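import Pool.Agent.Lib.MQ.Sharp

/-!
MODULE EV2.Tan.  The factorial power against the power, tangent at a point.

NOTATION.  u_j = max 0 ((N - (j+1))/(y - (j+1))), j < n; `fall (n+1) N = max 0 N * ∏_{j<n} max 0 (N - (j+1))
= N F0 n y ∏ u_j` for N ≥ 0 (all y - (j+1) > 0 for j < n < y).

LEMMA A.  0 ≤ τ ≤ 1, S_n = ∑_{i<n} τ^i, 0 ≤ u_j ≤ τ (j < n), n ≥ 1:
∏_{j<n} u_j ≥ 1 - (1 - (∑ u_j)/n) S_n.  Induction on n.  n = 1: equality.  n-1 → n: write ū' for the mean of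
the first n-1, a = 1 - ū' ≥ 1 - τ, b = 1 - u_{n-1} ≥ 1 - τ, S' = S_{n-1}, S = S_n = 1 + τ S' = S' + τ^(n-1).
By induction ∏ ≥ (1-b)(1 - a S') and (1-b)(1 - a S') - 1 + (((n-1) a + b)/n) S =: h(a, b) is bilinear,
h(1-τ, 1-τ) = 0 (as (1-τ) S' = 1 - τ^(n-1), (1-τ) S = 1 - τ^n), ∂_a h = -(1-b) S' + (n-1) S/n
≥ -τ S' + (n-1) S/n = 1 - S/n ≥ 0, ∂_b h = -1 + a S' + S/n ≥ -τ^(n-1) + S/n ≥ 0.
LEMMA B.  τ ≥ 1, v_j ≥ τ: ∏ v_j ≥ 1 + ((∑ v_j)/n - 1) S_n.  The same induction with a = v̄' - 1 ≥ τ - 1,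
b = v_{n-1} - 1 ≥ τ - 1: (1+b)(1 + a S') - 1 - (((n-1) a + b)/n) S is 0 at a = b = τ - 1, with
∂_a = (1+b) S' - (n-1) S/n ≥ τ S' - (n-1) S/n = S/n - 1 ≥ 0, ∂_b = 1 + a S' - S/n ≥ τ^(n-1) - S/n ≥ 0.
PROOF of `fall_tangent`.  N = 0: both sides are 0.  N > 0: divide by N F0 n y > 0; with τ = N/y and
κ_j = y/(y - (j+1)) ≥ 1 (so kap is their mean) the claim is kap τ^n - kap + 1 ≤ ∏ u_j, where
(N - (j+1))/(y - (j+1)) = 1 + κ_j (τ - 1).  If τ ≤ 1: u_j ∈ [0, τ] ((N-c)/(y-c) ≤ N/y), mean of the u_j ≥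
1 + kap (τ - 1), so Lemma A gives ∏ u_j ≥ 1 - kap (1-τ) S_n = 1 - kap (1 - τ^n).  If τ ≥ 1:
u_j = 1 + κ_j (τ-1) ≥ τ and Lemma B gives ∏ ≥ 1 + kap (τ-1) S_n.
PROOF of `kap_mul`.  w_j = (j+1)/y ∈ (0, 1), mean m = (n+1)/(2y) < 1.  1/(1-w) ≥ 1/(1-m) + (w-m)/(1-m)²
(w < 1, m < 1), so kap = mean of 1/(1-w_j) ≥ 1/(1-m), and 1 - n/(2y) ≥ 1 - m > 0.
PROOF of `coef_le_one`.  F0 kap/y^n = (1/n) ∑_j ∏_{i ≠ j} (1 - (i+1)/y), each product in [0, 1].
-/

set_option autoImplicit false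

open Finset

namespace Pool.Agent.EV2

open Pool.Agent.Lib.MQ

/-- `∏_{1 ≤ j ≤ n} (y - j)` -/
noncomputable def F0 (n : ℕ) (y : ℝ) : ℝ := ∏ j ∈ range n, (y - (j + 1))

/-- the mean of `y/(y - j)`, `1 ≤ j ≤ n` -/
noncomputable def kap (n : ℕ) (y : ℝ) : ℝ := (∑ j ∈ range n, y / (y - (j + 1))) / n

namespace TanAux

/-- `S n = ∑_{i<n} τ^i` -/
noncomputable def S (τ : ℝ) (n : ℕ) : ℝ := ∑ i ∈ range n, τ ^ i

lemma S_succ (τ : ℝ) (n : ℕ) : S τ (n + 1) = S τ n + τ ^ n := by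
  unfold S; rw [sum_range_succ]

lemma S_succ' (τ : ℝ) (n : ℕ) : S τ (n + 1) = 1 + τ * S τ n := by
  unfold S; rw [sum_range_succ', mul_sum]
  simp [pow_succ, mul_comm, add_comm]

lemma one_sub_mul_S (τ : ℝ) (n : ℕ) : (1 - τ) * S τ n = 1 - τ ^ n := by
  induction n with
  | zero => simp [S]
  | succ n ih => rw [S_succ, mul_add, ih, pow_succ]; ring

lemma S_nonneg {τ : ℝ} (h : 0 ≤ τ) (n : ℕ) : 0 ≤ S τ n := sum_nonneg fun _ _ => by positivity

lemma S_le {τ : ℝ} (h : 0 ≤ τ) (h1 : τ ≤ 1) (n : ℕ) : S τ n ≤ n := by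
  unfold S
  calc ∑ i ∈ range n, τ ^ i ≤ ∑ i ∈ range n, (1:ℝ) := sum_le_sum fun i _ => pow_le_one₀ h h1
    _ = n := by simp

lemma le_S {τ : ℝ} (h1 : 1 ≤ τ) (n : ℕ) : (n:ℝ) ≤ S τ n := by
  unfold S
  calc (n:ℝ) = ∑ i ∈ range n, (1:ℝ) := by simp
    _ ≤ ∑ i ∈ range n, τ ^ i := sum_le_sum fun i _ => one_le_pow₀ h1

/-- `n τ^(n-1) ≤ S n` for `τ ≤ 1` -/
lemma pow_le_S {τ : ℝ} (h : 0 ≤ τ) (h1 : τ ≤ 1) (n : ℕ) : ((n:ℝ) + 1) * τ ^ n ≤ S τ (n + 1) := by
  unfold S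
  calc ((n:ℝ) + 1) * τ ^ n = ∑ i ∈ range (n + 1), τ ^ n := by simp
    _ ≤ ∑ i ∈ range (n + 1), τ ^ i := sum_le_sum fun i hi =>
      pow_le_pow_of_le_one h h1 (by rw [mem_range] at hi; omega)

lemma S_le_pow {τ : ℝ} (h1 : 1 ≤ τ) (n : ℕ) : S τ (n + 1) ≤ ((n:ℝ) + 1) * τ ^ n := by
  unfold S
  calc ∑ i ∈ range (n + 1), τ ^ i ≤ ∑ i ∈ range (n + 1), τ ^ n := sum_le_sum fun i hi =>
      pow_le_pow_right₀ h1 (by rw [mem_range] at hi; omega)
    _ = ((n:ℝ) + 1) * τ ^ n := by simp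

lemma coreA {m τ S' a b : ℝ} (hS0 : 0 ≤ S') (hm : 0 ≤ m) (ha : 1 - τ ≤ a) (hb : 1 - τ ≤ b)
    (h1 : 1 + τ * S' ≤ m + 1) (h2 : (m + 1) * (1 - (1 - τ) * S') ≤ 1 + τ * S') :
    (m + 1) * (b + a * S' - a * b * S') ≤ (m * a + b) * (1 + τ * S') := by
  have k1 : 0 ≤ (a - (1 - τ)) * (m + 1 - (1 + τ * S')) := mul_nonneg (by linarith) (by linarith)
  have k2 : 0 ≤ (b - (1 - τ)) * ((1 + τ * S') - (m + 1) * (1 - (1 - τ) * S')) :=
    mul_nonneg (by linarith) (by linarith)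
  have k3 : 0 ≤ (a - (1 - τ)) * (b - (1 - τ)) * ((m + 1) * S') :=
    mul_nonneg (mul_nonneg (by linarith) (by linarith)) (by positivity)
  have e : (m * a + b) * (1 + τ * S') - (m + 1) * (b + a * S' - a * b * S') =
      (a - (1 - τ)) * (m + 1 - (1 + τ * S')) +
      (b - (1 - τ)) * ((1 + τ * S') - (m + 1) * (1 - (1 - τ) * S')) +
      (a - (1 - τ)) * (b - (1 - τ)) * ((m + 1) * S') := by ring
  linarith

lemma coreB {m τ S' a b : ℝ} (hS0 : 0 ≤ S') (hm : 0 ≤ m) (ha : τ - 1 ≤ a) (hb : τ - 1 ≤ b)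
    (h1 : m + 1 ≤ 1 + τ * S') (h2 : 1 + τ * S' ≤ (m + 1) * (1 + (τ - 1) * S')) :
    (m * a + b) * (1 + τ * S') ≤ (m + 1) * (b + a * S' + a * b * S') := by
  have k1 : 0 ≤ (a - (τ - 1)) * ((1 + τ * S') - (m + 1)) := mul_nonneg (by linarith) (by linarith)
  have k2 : 0 ≤ (b - (τ - 1)) * ((m + 1) * (1 + (τ - 1) * S') - (1 + τ * S')) :=
    mul_nonneg (by linarith) (by linarith)
  have k3 : 0 ≤ (a - (τ - 1)) * (b - (τ - 1)) * ((m + 1) * S') :=
    mul_nonneg (mul_nonneg (by linarith) (by linarith)) (by positivity)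
  have e : (m + 1) * (b + a * S' + a * b * S') - (m * a + b) * (1 + τ * S') =
      (a - (τ - 1)) * ((1 + τ * S') - (m + 1)) +
      (b - (τ - 1)) * ((m + 1) * (1 + (τ - 1) * S') - (1 + τ * S')) +
      (a - (τ - 1)) * (b - (τ - 1)) * ((m + 1) * S') := by ring
  linarith

/-- Lemma A, multiplied by `n + 1`. -/
lemma lemA {τ : ℝ} (h : 0 ≤ τ) (h1 : τ ≤ 1) (u : ℕ → ℝ) (n : ℕ)
    (hu : ∀ j < n + 1, 0 ≤ u j ∧ u j ≤ τ) :
    ((n:ℝ) + 1) * (1 - ∏ j ∈ range (n + 1), u j) ≤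
      (((n:ℝ) + 1) - ∑ j ∈ range (n + 1), u j) * S τ (n + 1) := by
  induction n with
  | zero => simp [S]
  | succ n ih =>
    have ih' := ih (fun j hj => hu j (by omega))
    obtain ⟨hb0, hbτ⟩ := hu (n + 1) (by omega)
    rw [prod_range_succ, sum_range_succ]
    have hT : ∑ j ∈ range (n + 1), u j ≤ ((n:ℝ) + 1) * τ := by
      calc ∑ j ∈ range (n + 1), u j ≤ ∑ j ∈ range (n + 1), τ := sum_le_sum fun j hj =>
            (hu j (by rw [mem_range] at hj; omega)).2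
        _ = ((n:ℝ) + 1) * τ := by simp
    set P := ∏ j ∈ range (n + 1), u j
    set T := ∑ j ∈ range (n + 1), u j
    set w := u (n + 1)
    have hn0 : (0:ℝ) ≤ n := Nat.cast_nonneg n
    obtain ⟨m, hm⟩ : ∃ m : ℝ, m = (n:ℝ) + 1 := ⟨_, rfl⟩
    have hm1 : 1 ≤ m := by rw [hm]; linarith
    have e1 : ((n + 1 : ℕ) : ℝ) + 1 = m + 1 := by rw [hm]; push_cast; ring
    rw [← hm] at ih' hT
    obtain ⟨a, ha⟩ : ∃ a : ℝ, a = 1 - T / m := ⟨_, rfl⟩
    have hma : m * a = m - T := by rw [ha]; field_simp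
    have ha1 : 1 - τ ≤ a := by
      have : T / m ≤ τ := by rw [div_le_iff₀ (by linarith)]; linarith
      linarith
    have hS : S τ (n + 1 + 1) = 1 + τ * S τ (n + 1) := S_succ' τ (n + 1)
    have hSm1 : S τ (n + 1 + 1) ≤ m + 1 := by
      have := S_le h h1 (n + 1 + 1); push_cast at this; linarith
    have hpow : (m + 1) * τ ^ (n + 1) ≤ S τ (n + 1 + 1) := by
      have := pow_le_S h h1 (n + 1); rw [e1] at this; exact this
    have hone : (1 - τ) * S τ (n + 1) = 1 - τ ^ (n + 1) := one_sub_mul_S τ (n + 1)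
    have hS0 : 0 ≤ S τ (n + 1) := S_nonneg h _
    rw [e1, hS]
    rw [hS] at hSm1 hpow
    set S' := S τ (n + 1)
    have hP : 1 - P ≤ a * S' := by
      have : m * (1 - P) ≤ m * (a * S') := by
        calc m * (1 - P) ≤ (m - T) * S' := ih'
          _ = m * (a * S') := by rw [← hma]; ring
      exact le_of_mul_le_mul_left this (by linarith)
    have hmul : w * (1 - a * S') ≤ w * P := mul_le_mul_of_nonneg_left (by linarith) hb0
    have hc := coreA (m := m) (τ := τ) (S' := S') (a := a) (b := 1 - w) hS0 (by linarith) ha1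
      (by linarith) hSm1 (by rw [hone]; linarith)
    have e2 : m + 1 - (T + w) = m * a + (1 - w) := by rw [hma]; ring
    rw [e2]
    refine le_trans ?_ hc
    refine mul_le_mul_of_nonneg_left ?_ (by linarith)
    nlinarith only [hmul]

/-- Lemma B, multiplied by `n + 1`. -/
lemma lemB {τ : ℝ} (h1 : 1 ≤ τ) (u : ℕ → ℝ) (n : ℕ)
    (hu : ∀ j < n + 1, τ ≤ u j) :
    ((∑ j ∈ range (n + 1), u j) - ((n:ℝ) + 1)) * S τ (n + 1) ≤
    ((n:ℝ) + 1) * ((∏ j ∈ range (n + 1), u j) - 1) := by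
  induction n with
  | zero => simp [S]
  | succ n ih =>
    have ih' := ih (fun j hj => hu j (by omega))
    have hbτ := hu (n + 1) (by omega)
    rw [prod_range_succ, sum_range_succ]
    have hT : ((n:ℝ) + 1) * τ ≤ ∑ j ∈ range (n + 1), u j := by
      calc ((n:ℝ) + 1) * τ = ∑ j ∈ range (n + 1), τ := by simp
        _ ≤ ∑ j ∈ range (n + 1), u j := sum_le_sum fun j hj =>
            (hu j (by rw [mem_range] at hj; omega))
    set P := ∏ j ∈ range (n + 1), u j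
    set T := ∑ j ∈ range (n + 1), u j
    set w := u (n + 1)
    have hn0 : (0:ℝ) ≤ n := Nat.cast_nonneg n
    obtain ⟨m, hm⟩ : ∃ m : ℝ, m = (n:ℝ) + 1 := ⟨_, rfl⟩
    have hm1 : 1 ≤ m := by rw [hm]; linarith
    have e1 : ((n + 1 : ℕ) : ℝ) + 1 = m + 1 := by rw [hm]; push_cast; ring
    rw [← hm] at ih' hT
    obtain ⟨a, ha⟩ : ∃ a : ℝ, a = T / m - 1 := ⟨_, rfl⟩
    have hma : m * a = T - m := by rw [ha]; field_simp
    have ha1 : τ - 1 ≤ a := by
      have : τ ≤ T / m := by rw [le_div_iff₀ (by linarith)]; linarith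
      linarith
    have hS : S τ (n + 1 + 1) = 1 + τ * S τ (n + 1) := S_succ' τ (n + 1)
    have hSm1 : m + 1 ≤ S τ (n + 1 + 1) := by
      have := le_S h1 (n + 1 + 1); push_cast at this; linarith
    have hpow : S τ (n + 1 + 1) ≤ (m + 1) * τ ^ (n + 1) := by
      have := S_le_pow h1 (n + 1); rw [e1] at this; exact this
    have hone : (1 - τ) * S τ (n + 1) = 1 - τ ^ (n + 1) := one_sub_mul_S τ (n + 1)
    have hone2 : (τ - 1) * S τ (n + 1) = τ ^ (n + 1) - 1 := by linarith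
    have hS0 : 0 ≤ S τ (n + 1) := S_nonneg (by linarith) _
    rw [e1, hS]
    rw [hS] at hSm1 hpow
    set S' := S τ (n + 1)
    have hP : a * S' ≤ P - 1 := by
      have : m * (a * S') ≤ m * (P - 1) := by
        calc m * (a * S') = (T - m) * S' := by rw [← hma]; ring
          _ ≤ m * (P - 1) := ih'
      exact le_of_mul_le_mul_left this (by linarith)
    have hmul : w * (1 + a * S') ≤ w * P := mul_le_mul_of_nonneg_left (by linarith) (by linarith)
    have hc := coreB (m := m) (τ := τ) (S' := S') (a := a) (b := w - 1) hS0 (by linarith) ha1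
      (by linarith) hSm1 (by rw [hone2]; linarith)
    have e2 : (T + w) - (m + 1) = m * a + (w - 1) := by rw [hma]; ring
    rw [e2]
    refine hc.trans ?_
    refine mul_le_mul_of_nonneg_left ?_ (by linarith)
    nlinarith only [hmul]


lemma fall_eq (n : ℕ) {N : ℝ} (hN : 0 ≤ N) :
    fall (n + 1) N = N * ∏ j ∈ range n, max 0 (N - ((j:ℝ) + 1)) := by
  unfold fall
  rw [prod_range_succ']
  have e : max 0 (N - ((0:ℕ):ℝ)) = N := by
    rw [Nat.cast_zero, sub_zero, max_eq_right hN]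
  rw [e, mul_comm]
  congr 1
  refine prod_congr rfl fun j _ => ?_
  push_cast
  rfl

lemma F0_pos (n : ℕ) {y : ℝ} (hy : (n : ℝ) < y) : 0 < F0 n y := by
  unfold F0
  refine prod_pos fun j hj => ?_
  have : ((j:ℝ) + 1) ≤ n := by
    have := mem_range.1 hj
    exact_mod_cast this
  linarith

/-- the mean of the values -/
lemma sum_val (n : ℕ) {y : ℝ} (hy : (n + 1 : ℝ) < y) (N : ℝ) :
    ∑ j ∈ range (n + 1), (N - ((j:ℝ) + 1)) / (y - ((j:ℝ) + 1)) =
      ((n:ℝ) + 1) * (1 + kap (n + 1) y * (N / y - 1)) := by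
  have hn : ((n:ℝ) + 1) ≠ 0 := by positivity
  have hy0 : y ≠ 0 := by
    have : (0:ℝ) ≤ n := Nat.cast_nonneg n
    intro h; linarith
  have e1 : ∀ j ∈ range (n + 1), (N - ((j:ℝ) + 1)) / (y - ((j:ℝ) + 1)) =
      1 + (N / y - 1) * (y / (y - ((j:ℝ) + 1))) := by
    intro j hj
    have h1 : ((j:ℝ) + 1) ≤ n + 1 := by
      have := mem_range.1 hj
      exact_mod_cast this
    have h2 : y - ((j:ℝ) + 1) ≠ 0 := by
      have : 0 < y - ((j:ℝ) + 1) := by linarith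
      exact this.ne'
    field_simp
    ring
  rw [sum_congr rfl e1, sum_add_distrib, ← mul_sum]
  unfold kap
  simp only [sum_const, card_range, nsmul_eq_mul, mul_one]
  push_cast
  field_simp

lemma core (n : ℕ) {y : ℝ} (hy : (n + 1 : ℝ) < y) {N : ℝ} (hN : 0 < N) :
    1 + kap (n + 1) y * ((N / y) ^ (n + 1) - 1) ≤
      ∏ j ∈ range (n + 1), max 0 ((N - ((j:ℝ) + 1)) / (y - ((j:ℝ) + 1))) := by
  have hn0 : (0:ℝ) ≤ n := Nat.cast_nonneg n
  have hy0 : 0 < y := by linarith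
  have hden : ∀ j < n + 1, 0 < y - ((j:ℝ) + 1) := by
    intro j hj
    have h1 : ((j:ℝ) + 1) ≤ n + 1 := by exact_mod_cast hj
    linarith
  set τ : ℝ := N / y with hτ
  have hτ0 : 0 < τ := by positivity
  have hNτ : N = τ * y := by rw [hτ]; field_simp
  have hsum := sum_val n hy N
  have hone := one_sub_mul_S τ (n + 1)
  rcases le_total τ 1 with h1 | h1
  · have hu : ∀ j < n + 1, 0 ≤ max 0 ((N - ((j:ℝ) + 1)) / (y - ((j:ℝ) + 1))) ∧
        max 0 ((N - ((j:ℝ) + 1)) / (y - ((j:ℝ) + 1))) ≤ τ := by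
      intro j hj
      refine ⟨le_max_left _ _, max_le hτ0.le ?_⟩
      rw [div_le_iff₀ (hden j hj)]
      have : (0:ℝ) ≤ j := Nat.cast_nonneg j
      nlinarith
    have hA := lemA hτ0.le h1 _ n hu
    have h2 : ∑ j ∈ range (n + 1), (N - ((j:ℝ) + 1)) / (y - ((j:ℝ) + 1)) ≤
        ∑ j ∈ range (n + 1), max 0 ((N - ((j:ℝ) + 1)) / (y - ((j:ℝ) + 1))) :=
      sum_le_sum fun j _ => le_max_right _ _
    rw [hsum] at h2
    have hS0 := S_nonneg hτ0.le (n + 1)
    set P := ∏ j ∈ range (n + 1), max 0 ((N - ((j:ℝ) + 1)) / (y - ((j:ℝ) + 1)))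
    set T := ∑ j ∈ range (n + 1), max 0 ((N - ((j:ℝ) + 1)) / (y - ((j:ℝ) + 1)))
    have h3 : (((n:ℝ) + 1) - T) * S τ (n + 1) ≤
        (((n:ℝ) + 1) - ((n:ℝ) + 1) * (1 + kap (n + 1) y * (τ - 1))) * S τ (n + 1) :=
      mul_le_mul_of_nonneg_right (by linarith) hS0
    have h4 : (((n:ℝ) + 1) - ((n:ℝ) + 1) * (1 + kap (n + 1) y * (τ - 1))) * S τ (n + 1) =
        ((n:ℝ) + 1) * (kap (n + 1) y * (1 - τ ^ (n + 1))) := by
      rw [← hone]; ring
    have h5 : ((n:ℝ) + 1) * (1 - P) ≤ ((n:ℝ) + 1) * (kap (n + 1) y * (1 - τ ^ (n + 1))) := by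
      linarith
    have h6 := le_of_mul_le_mul_left h5 (by linarith)
    linarith
  · have hu : ∀ j < n + 1, τ ≤ (N - ((j:ℝ) + 1)) / (y - ((j:ℝ) + 1)) := by
      intro j hj
      rw [le_div_iff₀ (hden j hj)]
      have : (0:ℝ) ≤ j := Nat.cast_nonneg j
      nlinarith
    have hB := lemB h1 _ n hu
    rw [hsum] at hB
    have e1 : ∏ j ∈ range (n + 1), max 0 ((N - ((j:ℝ) + 1)) / (y - ((j:ℝ) + 1))) =
        ∏ j ∈ range (n + 1), (N - ((j:ℝ) + 1)) / (y - ((j:ℝ) + 1)) := by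
      refine prod_congr rfl fun j hj => ?_
      exact max_eq_right (hτ0.le.trans (hu j (mem_range.1 hj)))
    rw [e1]
    set P := ∏ j ∈ range (n + 1), (N - ((j:ℝ) + 1)) / (y - ((j:ℝ) + 1))
    have h4 : (((n:ℝ) + 1) * (1 + kap (n + 1) y * (τ - 1)) - ((n:ℝ) + 1)) * S τ (n + 1) =
        ((n:ℝ) + 1) * (kap (n + 1) y * (τ ^ (n + 1) - 1)) := by
      have : τ ^ (n + 1) - 1 = (τ - 1) * S τ (n + 1) := by linarith
      rw [this]; ring
    rw [h4] at hB
    have h6 := le_of_mul_le_mul_left hB (by linarith)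
    linarith

end TanAux

open TanAux

theorem fall_tangent (n : ℕ) (hn : 1 ≤ n) (y : ℝ) (hy : (n : ℝ) < y) (N : ℝ) (hN : 0 ≤ N) :
    F0 n y * kap n y / y ^ n * N ^ (n + 1) - F0 n y * (kap n y - 1) * N ≤ fall (n + 1) N := by
  rw [fall_eq n hN]
  obtain ⟨m, rfl⟩ : ∃ m, n = m + 1 := ⟨n - 1, by omega⟩
  rcases hN.eq_or_lt with h | h
  · rw [← h]; simp
  · have hy' : (m + 1 : ℝ) < y := by push_cast at hy; exact hy
    have hy0 : 0 < y := by
      have : (0:ℝ) ≤ m := Nat.cast_nonneg m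
      linarith
    have hc := core m hy' h
    have hF := F0_pos (m + 1) hy
    have e1 : ∏ j ∈ range (m + 1), max 0 (N - ((j:ℝ) + 1)) =
        F0 (m + 1) y * ∏ j ∈ range (m + 1), max 0 ((N - ((j:ℝ) + 1)) / (y - ((j:ℝ) + 1))) := by
      unfold F0
      rw [← prod_mul_distrib]
      refine prod_congr rfl fun j hj => ?_
      have h1 : ((j:ℝ) + 1) ≤ m + 1 := by
        have := mem_range.1 hj
        exact_mod_cast this
      have h2 : 0 < y - ((j:ℝ) + 1) := by linarith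
      rw [mul_max_of_nonneg _ _ h2.le, mul_zero, mul_div_cancel₀ _ h2.ne']
    rw [e1]
    have h2 := mul_le_mul_of_nonneg_left (mul_le_mul_of_nonneg_left hc hF.le) h.le
    refine le_trans (le_of_eq ?_) h2
    rw [div_pow]
    have : y ^ (m + 1) ≠ 0 := by positivity
    field_simp
    ring

theorem kap_mul (n : ℕ) (hn : 1 ≤ n) (y : ℝ) (hy : (n : ℝ) < y) :
    1 ≤ kap n y * (1 - n / (2 * y)) := by
  have hn1 : (1:ℝ) ≤ n := by exact_mod_cast hn
  have hy0 : 0 < y := by linarith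
  set m : ℝ := (n + 1) / (2 * y) with hm
  have hm1 : m < 1 := by
    rw [hm, div_lt_one (by positivity)]
    linarith
  have hm0 : 0 < 1 - m := by linarith
  have hsum : ∑ j ∈ range n, (((j:ℝ) + 1) / y - m) = 0 := by
    rw [sum_sub_distrib, ← sum_div, sum_add_distrib]
    have h1 : ∑ j ∈ range n, (j:ℝ) = n * (n - 1) / 2 := by
      clear_value m
      clear hm1 hm0 hm hn hn1 hy
      induction n with
      | zero => simp
      | succ n ih => rw [sum_range_succ, ih]; push_cast; ring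
    rw [h1]
    simp only [sum_const, card_range, nsmul_eq_mul, mul_one]
    rw [hm]
    field_simp
    ring
  have hterm : ∀ j ∈ range n, 1 / (1 - m) + (((j:ℝ) + 1) / y - m) / (1 - m) ^ 2 ≤
      y / (y - ((j:ℝ) + 1)) := by
    intro j hj
    have h1 : ((j:ℝ) + 1) ≤ n := by
      have := mem_range.1 hj
      exact_mod_cast this
    have h2 : 0 < y - ((j:ℝ) + 1) := by linarith
    set w : ℝ := ((j:ℝ) + 1) / y with hw
    have hw1 : 0 < 1 - w := by
      have : w < 1 := by rw [hw, div_lt_one hy0]; linarith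
      linarith
    have e : y / (y - ((j:ℝ) + 1)) = 1 / (1 - w) := by
      rw [hw]
      field_simp
    rw [e]
    have e2 : 1 / (1 - w) - (1 / (1 - m) + (w - m) / (1 - m) ^ 2) =
        (w - m) ^ 2 / ((1 - w) * (1 - m) ^ 2) := by
      field_simp
      ring
    have : 0 ≤ (w - m) ^ 2 / ((1 - w) * (1 - m) ^ 2) := by positivity
    linarith
  have hk : 1 / (1 - m) ≤ kap n y := by
    unfold kap
    rw [le_div_iff₀ (by linarith)]
    have h5 := sum_le_sum hterm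
    have e5 : ∑ j ∈ range n, (1 / (1 - m) + (((j:ℝ) + 1) / y - m) / (1 - m) ^ 2) =
        1 / (1 - m) * n + (∑ j ∈ range n, (((j:ℝ) + 1) / y - m)) / (1 - m) ^ 2 := by
      rw [sum_add_distrib, sum_const, card_range, nsmul_eq_mul, sum_div]
      ring
    rw [e5, hsum, zero_div, add_zero] at h5
    exact h5
  have h3 : 1 - m ≤ 1 - n / (2 * y) := by
    rw [hm]
    have : (n:ℝ) / (2 * y) ≤ (n + 1) / (2 * y) := by gcongr; linarith
    linarith
  calc (1:ℝ) = 1 / (1 - m) * (1 - m) := by field_simp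
    _ ≤ kap n y * (1 - n / (2 * y)) := mul_le_mul hk h3 hm0.le ((by positivity : (0:ℝ) ≤ 1 / (1 - m)).trans hk)

theorem kap_ge_one (n : ℕ) (hn : 1 ≤ n) (y : ℝ) (hy : (n : ℝ) < y) : 1 ≤ kap n y := by
  have hn1 : (1:ℝ) ≤ n := by exact_mod_cast hn
  have hy0 : 0 < y := by linarith
  unfold kap
  rw [le_div_iff₀ (by linarith), one_mul]
  calc (n:ℝ) = ∑ j ∈ range n, (1:ℝ) := by simp
    _ ≤ _ := by
      refine sum_le_sum fun j hj => ?_
      have h1 : ((j:ℝ) + 1) ≤ n := by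
        have := mem_range.1 hj
        exact_mod_cast this
      have h2 : 0 < y - ((j:ℝ) + 1) := by linarith
      rw [le_div_iff₀ h2]
      have : (0:ℝ) ≤ j := Nat.cast_nonneg j
      linarith

theorem coef_le_one (n : ℕ) (hn : 1 ≤ n) (y : ℝ) (hy : (n : ℝ) < y) :
    F0 n y * kap n y / y ^ n ≤ 1 := by
  have hn1 : (1:ℝ) ≤ n := by exact_mod_cast hn
  have hy0 : 0 < y := by linarith
  have e : F0 n y * kap n y / y ^ n = (∑ j ∈ range n, F0 n y * (y / (y - (j + 1))) / y ^ n) / n := by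
    unfold kap
    rw [← sum_div, ← mul_sum]
    ring
  rw [e, div_le_one (by linarith)]
  calc _ ≤ ∑ j ∈ range n, (1:ℝ) := by
        refine sum_le_sum fun j hj => ?_
        have hjm := mem_range.1 hj
        have h1 : ((j:ℝ) + 1) ≤ n := by exact_mod_cast hjm
        have h2 : 0 < y - ((j:ℝ) + 1) := by linarith
        have hF : F0 n y = (y - ((j:ℝ) + 1)) * ∏ i ∈ (range n).erase j, (y - ((i:ℝ) + 1)) := by
          unfold F0
          exact (mul_prod_erase (range n) (fun i : ℕ => y - ((i:ℝ) + 1)) hj).symm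
        have hle : ∏ i ∈ (range n).erase j, (y - ((i:ℝ) + 1)) ≤ y ^ (n - 1) := by
          calc _ ≤ ∏ i ∈ (range n).erase j, y := by
                refine prod_le_prod (fun i hi => ?_) fun i hi => ?_
                · have h3 : ((i:ℝ) + 1) ≤ n := by
                    have := mem_range.1 (mem_of_mem_erase hi)
                    exact_mod_cast this
                  linarith
                · have : (0:ℝ) ≤ i := Nat.cast_nonneg i
                  linarith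
            _ = y ^ (n - 1) := by rw [prod_const, card_erase_of_mem hj, card_range]
        have hyn : y ^ n = y ^ (n - 1) * y := by
          rw [← pow_succ]; congr 1; omega
        rw [div_le_one (by positivity), hF, hyn]
        calc (y - ((j:ℝ) + 1)) * (∏ i ∈ (range n).erase j, (y - ((i:ℝ) + 1))) * (y / (y - ((j:ℝ) + 1)))
            = (∏ i ∈ (range n).erase j, (y - ((i:ℝ) + 1))) * y := by field_simp
          _ ≤ y ^ (n - 1) * y := mul_le_mul_of_nonneg_right hle hy0.le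
    _ = n := by simp

end Pool.Agent.EV2
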