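import Pool.Agent.Lib.EV2.Defs
import Pool.Agent.Lib.EV2.Tan
import Pool.Agent.Lib.HL.Desc

/-!
MODULE EV2.Alg (1.2 h).  The final algebra.

PROOF.  n = k + 1, y = l + 1/2.
Case y ≤ n: the factor j = k of gprod is max 0 (1 - (2k+1)/(2l)) = 0 (l ≤ k + 1/2), so gprod = 0 and the left side is
-C ε G ≤ 0 ≤ the right side (`fall_nonneg`; G ≥ x l^(k+2) ≥ 0).
Case y > n: a := F0 n y kap n y/y^n ∈ [0, 1], B := F0 n y (kap n y - 1) ≥ 0, η := y/l = 1 + 1/(2l) ≤ 2 (l > k + 1/2
≥ 1/2).  gprod (k+2) l = F0 n y/l^n =: ρ (each factor (l - (2j+1)/2)/l = (y - (j+1))/l > 0).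
`fall_tangent`: ∑ fall ≥ a ∑ N^(k+2) - B ∑ N.  Tangent line: N^(k+1) ≥ (k+1) (η Y)^k N - k (η Y)^(k+1)
(`pow_tangent` in Lib/HL/Desc.lean; for k = 0 trivial), so ∑ N^(k+2) ≥ (k+1) η^k ∑ N² Y^k - k η^(k+1) ∑ N Y^(k+1).
Hence ∑ fall ≥ a (k+1) η^k ((1-ε) G + (1/2-ε) G') - a k η^(k+1) (1+ε) G - B (1+ε) x l
= [a (k+1) η^k (G + G'/2) - a k η^(k+1) G - B x l] - ε [a (k+1) η^k (G + G') + a k η^(k+1) G + B x l].
Second bracket ≤ C G with C = 3 (k+1) 2^k + k 2^(k+1) + 2^(k+1): G' ≤ G/l ≤ 2 G, B ≤ a y^n ≤ (η l)^n ≤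
2^(k+1) l^(k+1) (B = a y^n - F0 n y), x l^(k+2) ≤ G.
First bracket ≥ ρ G: α := a (k+1) η^k - a k η^(k+1) - ρ ≥ 0, because a η^(k+1) = ρ kap (a y^n = F0 kap) and
(k+1)/η - k = (k+1) l/y - k = 1 - n/(2y) (`kap_mul`).  With G ≥ x l^(k+2), G' ≥ x l^(k+1) the difference is
≥ x l (α l^(k+1) + a (k+1) η^k l^k/2 - B) and the parenthesis is 0: α l^(k+1) + a (k+1) η^k l^k/2 =
a (k+1) η^k l^k (l + 1/2) - a k y^(k+1) - F0 = a (k+1) y^(k+1) - a k y^(k+1) - F0 = a y^(k+1) - F0 = B.
-/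

set_option autoImplicit false

open Finset

namespace Pool.Agent.EV2

open Pool.Agent.Lib.MQ

theorem alg (k : ℕ) : ∃ C : ℝ, 0 < C ∧ ∀ (s : Finset ℕ) (N Y : ℕ → ℝ) (x l G G' ε : ℝ),
    (∀ n ∈ s, 0 ≤ N n) → (∀ n ∈ s, 0 ≤ Y n) → 0 ≤ x → 0 < l → 0 ≤ ε → ε ≤ 1 / 2 →
    ∑ n ∈ s, N n ≤ (1 + ε) * (x * l) →
    ∑ n ∈ s, N n * Y n ^ (k + 1) ≤ (1 + ε) * G →
    (1 - ε) * G + (1 / 2 - ε) * G' ≤ ∑ n ∈ s, N n ^ 2 * Y n ^ k →
    x * l ^ (k + 2) ≤ G → x * l ^ (k + 1) ≤ G' → l * G' ≤ G →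
    (gprod (k + 2) l - C * ε) * G ≤ ∑ n ∈ s, fall (k + 2) (N n) := by
  refine ⟨3 * (k + 1) * 2 ^ k + k * 2 ^ (k + 1) + 2 ^ (k + 1), by positivity, ?_⟩
  intro s N Y x l G G' ε hN hY hx hl hε hε1 h1 h2 h3 h4 h5 h6
  have hG : 0 ≤ G := le_trans (by positivity) h4
  have hG' : 0 ≤ G' := le_trans (by positivity) h5
  have hk0 : (0 : ℝ) ≤ k := Nat.cast_nonneg k
  rcases le_or_gt (l + 1 / 2) ((k : ℝ) + 1) with hy | hy
  · have h0 : gprod (k + 2) l = 0 := by
      unfold gprod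
      refine prod_eq_zero (i := k) (by simp) (max_eq_left ?_)
      rw [sub_nonpos, le_div_iff₀ (by positivity)]
      linarith
    rw [h0, zero_sub]
    have h7 : 0 ≤ ∑ n ∈ s, fall (k + 2) (N n) := sum_nonneg fun n _ => fall_nonneg _ _
    have h8 : 0 ≤ (3 * (k + 1) * 2 ^ k + k * 2 ^ (k + 1) + 2 ^ (k + 1) : ℝ) * ε * G := by positivity
    linarith
  · set y : ℝ := l + 1 / 2 with hydef
    have hyn : ((k + 1 : ℕ) : ℝ) < y := by push_cast; exact hy
    have hy0 : 0 < y := by linarith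
    have hl2 : 1 / 2 ≤ l := by linarith
    have hF0 : 0 < F0 (k + 1) y := by
      unfold F0
      refine prod_pos fun j hj => ?_
      have : (j : ℝ) + 1 ≤ (k : ℝ) + 1 := by
        have := mem_range.1 hj
        have h9 : j ≤ k := by omega
        have h10 : (j : ℝ) ≤ k := by exact_mod_cast h9
        linarith
      linarith
    have hK1 := kap_ge_one (k + 1) (by omega) y hyn
    have hKm := kap_mul (k + 1) (by omega) y hyn
    have ha1 := coef_le_one (k + 1) (by omega) y hyn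
    have htan := fall_tangent (k + 1) (by omega) y hyn
    have hρ : gprod (k + 2) l = F0 (k + 1) y / l ^ (k + 1) := by
      unfold gprod F0
      rw [show k + 2 - 1 = k + 1 by omega, ← card_range (k + 1), ← prod_const, card_range,
        ← prod_div_distrib]
      refine prod_congr rfl fun j hj => ?_
      have h9 : (j : ℝ) + 1 < y := by
        have := mem_range.1 hj
        have h9 : j ≤ k := by omega
        have h10 : (j : ℝ) ≤ k := by exact_mod_cast h9
        linarith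
      have h10 : 1 - (2 * (j : ℝ) + 1) / (2 * l) = (y - (j + 1)) / l := by
        rw [hydef]
        field_simp
        ring
      rw [h10]
      exact max_eq_right (div_nonneg (by linarith) hl.le)
    set F := F0 (k + 1) y with hF
    set K := kap (k + 1) y with hK
    set a := F * K / y ^ (k + 1) with ha
    set B := F * (K - 1) with hB
    have hK0 : 0 < K := by linarith
    have ha0 : 0 ≤ a := by positivity
    have hB0 : 0 ≤ B := mul_nonneg hF0.le (by linarith)
    set η := y / l with hη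
    have hη0 : 0 < η := by positivity
    have hη2 : η ≤ 2 := by
      rw [hη, div_le_iff₀ hl]
      linarith
    have hηl : η * l = y := div_mul_cancel₀ _ hl.ne'
    have hay : a * y ^ (k + 1) = F * K := div_mul_cancel₀ _ (by positivity)
    have hBa : B = a * y ^ (k + 1) - F := by rw [hay, hB]; ring
    set P := a * (k + 1) * η ^ k with hP
    set Q := a * k * η ^ (k + 1) with hQ
    have hP0 : 0 ≤ P := by positivity
    have hQ0 : 0 ≤ Q := by positivity
    -- the sum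
    have hs1 : a * ∑ n ∈ s, N n ^ (k + 2) - B * ∑ n ∈ s, N n ≤ ∑ n ∈ s, fall (k + 2) (N n) := by
      rw [mul_sum, mul_sum, ← sum_sub_distrib]
      exact sum_le_sum fun n hn => htan (N n) (hN n hn)
    have hs2 : (k + 1) * η ^ k * ∑ n ∈ s, N n ^ 2 * Y n ^ k -
        k * η ^ (k + 1) * ∑ n ∈ s, N n * Y n ^ (k + 1) ≤ ∑ n ∈ s, N n ^ (k + 2) := by
      rw [mul_sum, mul_sum, ← sum_sub_distrib]
      refine sum_le_sum fun n hn => ?_
      have h9 := Pool.Agent.HL.pow_tangent (k + 1) (by omega) (hN n hn)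
        (mul_nonneg hη0.le (hY n hn))
      rw [Nat.add_sub_cancel] at h9
      have h10 := mul_le_mul_of_nonneg_left h9 (hN n hn)
      push_cast at h10
      calc _ = N n * (((k : ℝ) + 1) * (η * Y n) ^ k * N n -
            ((k : ℝ) + 1 - 1) * (η * Y n) ^ (k + 1)) := by
              rw [mul_pow, mul_pow]
              ring
        _ ≤ N n * N n ^ (k + 1) := h10
        _ = N n ^ (k + 2) := by ring
    have hs3 : P * ((1 - ε) * G + (1 / 2 - ε) * G') - Q * ((1 + ε) * G) -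
        B * ((1 + ε) * (x * l)) ≤ ∑ n ∈ s, fall (k + 2) (N n) := by
      refine le_trans ?_ hs1
      have h9 := mul_le_mul_of_nonneg_left hs2 ha0
      have h10 := mul_le_mul_of_nonneg_left h3 hP0
      have h11 := mul_le_mul_of_nonneg_left h2 hQ0
      have h12 := mul_le_mul_of_nonneg_left h1 hB0
      have h13 : a * ((k + 1) * η ^ k * ∑ n ∈ s, N n ^ 2 * Y n ^ k -
        k * η ^ (k + 1) * ∑ n ∈ s, N n * Y n ^ (k + 1)) =
        P * ∑ n ∈ s, N n ^ 2 * Y n ^ k - Q * ∑ n ∈ s, N n * Y n ^ (k + 1) := by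
        rw [hP, hQ]
        ring
      rw [h13] at h9
      linarith
    refine le_trans ?_ hs3
    -- second bracket
    have hPle : P ≤ (k + 1) * 2 ^ k := by
      rw [hP]
      have h9 : η ^ k ≤ 2 ^ k := pow_le_pow_left₀ hη0.le hη2 k
      calc a * (k + 1) * η ^ k ≤ 1 * (k + 1) * 2 ^ k := by gcongr
        _ = _ := by ring
    have hQle : Q ≤ k * 2 ^ (k + 1) := by
      rw [hQ]
      have h9 : η ^ (k + 1) ≤ 2 ^ (k + 1) := pow_le_pow_left₀ hη0.le hη2 _
      calc a * k * η ^ (k + 1) ≤ 1 * k * 2 ^ (k + 1) := by gcongr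
        _ = _ := by ring
    have hBle : B * (x * l) ≤ 2 ^ (k + 1) * G := by
      have h9 : y ^ (k + 1) ≤ (2 * l) ^ (k + 1) := by
        refine pow_le_pow_left₀ hy0.le ?_ _
        linarith
      have h10 : B ≤ 2 ^ (k + 1) * l ^ (k + 1) := by
        rw [hBa, ← mul_pow]
        have h11 : a * y ^ (k + 1) ≤ 1 * (2 * l) ^ (k + 1) := by gcongr
        linarith
      calc B * (x * l) ≤ (2 ^ (k + 1) * l ^ (k + 1)) * (x * l) := by gcongr
        _ = 2 ^ (k + 1) * (x * l ^ (k + 2)) := by ring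
        _ ≤ 2 ^ (k + 1) * G := by gcongr
    have hG'2 : G' ≤ 2 * G := by nlinarith
    have hsec : P * (G + G') + Q * G + B * (x * l) ≤
        (3 * (k + 1) * 2 ^ k + k * 2 ^ (k + 1) + 2 ^ (k + 1)) * G := by
      have h9 : P * (G + G') ≤ ((k + 1) * 2 ^ k) * (3 * G) := by
        refine mul_le_mul hPle (by linarith) (by linarith) (by positivity)
      have h10 : Q * G ≤ (k * 2 ^ (k + 1)) * G := mul_le_mul_of_nonneg_right hQle hG
      calc _ ≤ ((k + 1) * 2 ^ k) * (3 * G) + (k * 2 ^ (k + 1)) * G + 2 ^ (k + 1) * G := by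
            linarith
        _ = _ := by ring
    -- first bracket
    have hα : 0 ≤ P - Q - F / l ^ (k + 1) := by
      have h9 : P - Q = F / l ^ (k + 1) * (K * (1 - ((k + 1 : ℕ) : ℝ) / (2 * y))) := by
        have h10 : P = a * (k + 1) * y ^ k / l ^ k := by rw [hP, hη, div_pow]; ring
        have h11 : Q = a * k * y ^ (k + 1) / l ^ (k + 1) := by rw [hQ, hη, div_pow]; ring
        rw [h10, h11, ha]
        have h12 : y ≠ 0 := hy0.ne'
        have h13 : l ≠ 0 := hl.ne'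
        have h14 : l = y - 1 / 2 := by rw [hydef]; ring
        push_cast
        rw [pow_succ y k, pow_succ l k]
        field_simp
        rw [h14]
        ring
      rw [h9]
      have h10 : 0 < F / l ^ (k + 1) := by positivity
      nlinarith
    have hfirst : F / l ^ (k + 1) * G ≤ P * (G + G' / 2) - Q * G - B * (x * l) := by
      have h9 : (P - Q - F / l ^ (k + 1)) * (x * l ^ (k + 2)) ≤
          (P - Q - F / l ^ (k + 1)) * G := mul_le_mul_of_nonneg_left h4 hα
      have h10 : P / 2 * (x * l ^ (k + 1)) ≤ P / 2 * G' :=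
        mul_le_mul_of_nonneg_left h5 (by linarith)
      have h11 : (P - Q - F / l ^ (k + 1)) * (x * l ^ (k + 2)) + P / 2 * (x * l ^ (k + 1)) -
          B * (x * l) = 0 := by
        have e1 : P * l ^ k = a * (k + 1) * y ^ k := by
          rw [hP, ← hηl, mul_pow]
          ring
        have e2 : Q * l ^ (k + 1) = a * k * y ^ (k + 1) := by
          rw [hQ, ← hηl, mul_pow]
          ring
        have e3 : F / l ^ (k + 1) * l ^ (k + 1) = F := div_mul_cancel₀ _ (by positivity)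
        have e4 : (P - Q - F / l ^ (k + 1)) * (x * l ^ (k + 2)) + P / 2 * (x * l ^ (k + 1)) -
          B * (x * l) = x * l * ((P * l ^ k) * (l + 1 / 2) - Q * l ^ (k + 1) -
            F / l ^ (k + 1) * l ^ (k + 1) - B) := by ring
        rw [e4, e1, e2, e3, hBa, ← hydef]
        ring
      linarith
    have hlast := mul_le_mul_of_nonneg_left hsec hε
    rw [hρ]
    have e5 : P * ((1 - ε) * G + (1 / 2 - ε) * G') - Q * ((1 + ε) * G) -
        B * ((1 + ε) * (x * l)) = (P * (G + G' / 2) - Q * G - B * (x * l)) -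
          ε * (P * (G + G') + Q * G + B * (x * l)) := by ring
    rw [e5]
    have e6 : (F / l ^ (k + 1) - (3 * (k + 1) * 2 ^ k + k * 2 ^ (k + 1) + 2 ^ (k + 1)) * ε) * G =
      F / l ^ (k + 1) * G - ε * ((3 * (k + 1) * 2 ^ k + k * 2 ^ (k + 1) + 2 ^ (k + 1)) * G) := by
      ring
    rw [e6]
    linarith

end Pool.Agent.EV2
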