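import Pool.Agent.Lib.MP.PDat
import Pool.Agent.Lib.MT.BVSum

/-!
MODULE EV2.BVW (1 h).  Error terms weighted by K^ω(q).

PROOF.  By the Cauchy-Schwarz inequality and the trivial bound,
∑ K^ω Err ≤ √(∑ K^(2ω(q)) Err q) √(∑ Err q) ≤ √(N (log N)² ∑_{q ≤ Q squarefree} K^(2ω(q))/q) √(N/(log N)^A').
∑_{q ≤ Q squarefree} K^(2ω(q))/q ≤ ∏_{p ≤ Q} (1 + K²/p) ≤ ∏_{p ≤ Q} (1 - 1/p)^(-K²) = (DZ Q)^(-K²)
((1 + 1/p)^(K²) ≥ 1 + K²/p, 1 + 1/p ≤ (1 - 1/p)⁻¹) ≤ (log Q/c)^(K²) for Q ≥ 2 (`DZ_lower`,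
MP/PDat.lean).  Q ≤ N.  Take A' = 2 A + K² + 4 (or larger), N₀ large.  For K = 0 only q = 1 contributes (ω(1) = 0,
0^0 = 1): replace K by K + 1.  A similar proof is in Lib/MT/BVSum.lean.
-/

set_option autoImplicit false

open Finset

namespace Pool.Agent.EV2

private lemma sum_pow_div_le (C Q : ℕ) (hQ : 1 ≤ Q) :
    ∑ q ∈ (Icc 1 Q).filter Squarefree, (C : ℝ) ^ q.primeFactors.card / (q : ℝ) ≤
      (1 + Real.log Q) ^ C := by
  classical
  set P : Finset ℕ := Nat.primesLE Q with hP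
  have hPp : ∀ p ∈ P, p.Prime := fun p hp => (Nat.mem_primesLE.1 hp).2
  set φ : ℕ → Finset P := fun q => univ.filter fun p : P => (p : ℕ) ∣ q with hφ
  have himg : ∀ q ∈ (Icc 1 Q).filter Squarefree,
      (φ q).image (Subtype.val : P → ℕ) = q.primeFactors := by
    intro q hq
    rw [mem_filter, mem_Icc] at hq
    ext p
    rw [mem_image, Nat.mem_primeFactors]
    constructor
    · rintro ⟨p', hp', rfl⟩
      rw [hφ, mem_filter] at hp'
      exact ⟨hPp _ p'.2, hp'.2, by omega⟩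
    · rintro ⟨hp, hpq, _⟩
      have hle : p ≤ Q := (Nat.le_of_dvd hq.1.1 hpq).trans hq.1.2
      refine ⟨⟨p, Nat.mem_primesLE.2 ⟨hle, hp⟩⟩, ?_, rfl⟩
      rw [hφ, mem_filter]
      exact ⟨mem_univ _, hpq⟩
  have hpr : ∀ q ∈ (Icc 1 Q).filter Squarefree, Pool.Agent.Lib.MT.pr (φ q) = q := by
    intro q hq
    have h1 := himg q hq
    unfold Pool.Agent.Lib.MT.pr
    have h2 : ∏ p ∈ φ q, (p : ℕ) = ∏ p ∈ (φ q).image (Subtype.val : P → ℕ), p := by
      rw [Finset.prod_image fun _ _ _ _ h => Subtype.ext h]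
    rw [h2, h1]
    exact Nat.prod_primeFactors_of_squarefree (mem_filter.1 hq).2
  have hcard : ∀ q ∈ (Icc 1 Q).filter Squarefree, (φ q).card = q.primeFactors.card := by
    intro q hq
    rw [← himg q hq, Finset.card_image_of_injective _ Subtype.val_injective]
  have h1 : ∑ q ∈ (Icc 1 Q).filter Squarefree, (C : ℝ) ^ q.primeFactors.card / (q : ℝ) ≤
      ∑ S ∈ Pool.Agent.Lib.MT.TT P Q, (C : ℝ) ^ S.card / (Pool.Agent.Lib.MT.pr S : ℝ) := by
    have hinj : Set.InjOn φ ((Icc 1 Q).filter Squarefree) := by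
      intro q hq q' hq' he
      rw [← hpr q hq, ← hpr q' hq', he]
    have h2 : ∑ q ∈ (Icc 1 Q).filter Squarefree, (C : ℝ) ^ q.primeFactors.card / (q : ℝ) =
        ∑ S ∈ ((Icc 1 Q).filter Squarefree).image φ,
          (C : ℝ) ^ S.card / (Pool.Agent.Lib.MT.pr S : ℝ) := by
      rw [Finset.sum_image hinj]
      refine Finset.sum_congr rfl fun q hq => ?_
      rw [hpr q hq, hcard q hq]
    rw [h2]
    refine Finset.sum_le_sum_of_subset_of_nonneg ?_ fun S _ _ => by positivity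
    intro S hS
    rw [mem_image] at hS
    obtain ⟨q, hq, rfl⟩ := hS
    unfold Pool.Agent.Lib.MT.TT
    rw [mem_filter, hpr q hq]
    rw [mem_filter, mem_Icc] at hq
    exact ⟨mem_univ _, hq.1.2⟩
  refine h1.trans ((Pool.Agent.Lib.MT.sum_pow_le hPp Q C).trans ?_)
  exact pow_le_pow_left₀ (Finset.sum_nonneg fun _ _ => by positivity)
    (Pool.Agent.Lib.MT.sum_inv_TT hPp hQ) _

theorem bvw (K A : ℕ) : ∃ A' : ℕ, ∃ N₀ : ℝ, ∀ N : ℝ, N₀ ≤ N → ∀ (Q : ℕ) (Err : ℕ → ℝ),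
    (Q : ℝ) ≤ N → (∀ q, 0 ≤ Err q) →
    (∑ q ∈ Icc 1 Q, Err q ≤ N / (Real.log N) ^ A') →
    (∀ q ∈ Icc 1 Q, Err q ≤ N * (Real.log N) ^ 2 / q) →
    ∑ q ∈ (Icc 1 Q).filter Squarefree, (K : ℝ) ^ q.primeFactors.card * Err q ≤
      N / (Real.log N) ^ A := by
  classical
  refine ⟨2 * A + 2 + 2 * K ^ 2, Real.exp 2, ?_⟩
  intro N hN Q Err hQN hE hsum hpt
  have hN0 : 0 < N := (Real.exp_pos 2).trans_le hN
  set L := Real.log N with hL
  have hL2 : 2 ≤ L := (Real.le_log_iff_exp_le hN0).2 hN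
  have hL0 : 0 < L := by linarith
  set S : Finset ℕ := (Icc 1 Q).filter Squarefree with hS
  rcases Nat.eq_zero_or_pos Q with hQ0 | hQ0
  · have : S = ∅ := by
      rw [hS, hQ0]
      simp
    rw [this, Finset.sum_empty]
    positivity
  set X := ∑ q ∈ S, (K : ℝ) ^ q.primeFactors.card * Err q with hX
  have h2 : X ^ 2 ≤ (∑ q ∈ S, ((K ^ 2 : ℕ) : ℝ) ^ q.primeFactors.card * Err q) *
      ∑ q ∈ S, Err q := by
    rw [hX]
    refine Finset.sum_sq_le_sum_mul_sum_of_sq_le_mul _ (fun q _ => ?_) (fun q _ => hE _)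
      fun q _ => (Eq.le ?_)
    · exact mul_nonneg (by positivity) (hE q)
    · push_cast
      ring
  have h3 : ∑ q ∈ S, Err q ≤ N / L ^ (2 * A + 2 + 2 * K ^ 2) :=
    (Finset.sum_le_sum_of_subset_of_nonneg (Finset.filter_subset _ _)
      fun n _ _ => hE n).trans hsum
  have h4 : ∑ q ∈ S, ((K ^ 2 : ℕ) : ℝ) ^ q.primeFactors.card * Err q ≤
      N * L ^ 2 * (2 * L) ^ (K ^ 2) := by
    have h5 : ∀ q ∈ S, ((K ^ 2 : ℕ) : ℝ) ^ q.primeFactors.card * Err q ≤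
        N * L ^ 2 * (((K ^ 2 : ℕ) : ℝ) ^ q.primeFactors.card / (q : ℝ)) := by
      intro q hq
      have h6 := hpt q (Finset.mem_filter.1 hq).1
      calc ((K ^ 2 : ℕ) : ℝ) ^ q.primeFactors.card * Err q
          ≤ ((K ^ 2 : ℕ) : ℝ) ^ q.primeFactors.card * (N * L ^ 2 / (q : ℝ)) :=
            mul_le_mul_of_nonneg_left h6 (by positivity)
        _ = _ := by ring
    refine (Finset.sum_le_sum h5).trans ?_
    rw [← Finset.mul_sum]
    have h7 := sum_pow_div_le (K ^ 2) Q hQ0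
    have h8 : Real.log Q ≤ L := Real.log_le_log (by exact_mod_cast hQ0) hQN
    have h9 : 0 ≤ Real.log Q := Real.log_natCast_nonneg Q
    have h10 : (1 + Real.log Q) ^ (K ^ 2) ≤ (2 * L) ^ (K ^ 2) :=
      pow_le_pow_left₀ (by linarith) (by linarith) _
    exact mul_le_mul_of_nonneg_left (h7.trans h10) (by positivity)
  have hX0 : 0 ≤ X := Finset.sum_nonneg fun q _ => mul_nonneg (by positivity) (hE _)
  have h5 : X ^ 2 ≤ (N * L ^ 2 * (2 * L) ^ (K ^ 2)) * (N / L ^ (2 * A + 2 + 2 * K ^ 2)) :=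
    h2.trans (mul_le_mul h4 h3 (Finset.sum_nonneg fun _ _ => hE _) (by positivity))
  have h6 : X ^ 2 ≤ (N / L ^ A) ^ 2 := by
    have h7 : (2 * L) ^ (K ^ 2) ≤ L ^ (2 * K ^ 2) := by
      rw [pow_mul L 2]
      apply pow_le_pow_left₀ (by positivity)
      nlinarith
    calc X ^ 2 ≤ (N * L ^ 2 * L ^ (2 * K ^ 2)) * (N / L ^ (2 * A + 2 + 2 * K ^ 2)) := by
          refine h5.trans ?_
          gcongr
      _ = (N / L ^ A) ^ 2 := by
          have e1 : L ^ (2 * A) = (L ^ A) ^ 2 := by rw [← pow_mul, mul_comm]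
          rw [pow_add, pow_add, div_pow, e1]
          generalize hY : L ^ (2 * K ^ 2) = Y
          have hY0 : 0 < Y := by rw [← hY]; positivity
          field_simp
  exact (abs_le_of_sq_le_sq' h6 (by positivity)).2

end Pool.Agent.EV2
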