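import Pool.Agent.Lib.EV2.Defs
import Pool.Agent.Lib.MP.PreHits

/-!
MODULE EV2.HitP (1.5 h).  Primes in classes hit by a set of primes.

PROOF.  Induction on s as in `generic` (Lib/MP/PreHits.lean: use `sum_insert` there, it splits the n hit by
insert q s into the classes c ∈ Omt t q modulo q, combined with a class modulo W), for the statement with
an additional class n ≡ v modulo W, W coprime to d and to the p ∈ s:
the sum over the n ≤ x with n ≡ v [MOD W], d ∣ n + b, all p ∈ s hit, of ip (n + t i0) log (n + t i0) differs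
from [gcd(v + t i0, W) = 1] [gcd(d, t i0 - b) = 1] x/(φ(d) φ(W)) ∏_{p ∈ s} (ν_p - 1)/(p - 1) by at most
∏_{p ∈ s} ν_p (2 E + log Y), if E is as in the hypothesis for the modulus d W ∏ s (always the same number
in the induction).
Base s = ∅: m = n + t i0 runs over the m in (t i0, x + t i0] in one class C modulo q = d W.  If
gcd(C, q) = 1 (iff both conditions hold): the sum is thetaAP (x + t i0) q C - thetaAP (t i0) q C, each
within E of y/φ(q) (for t i0 = 0 the second is 0 = 0/φ(q)), total x/φ(q) ± 2E.  If a prime l divides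
gcd(C, q) then every prime m ≡ C mod q is divisible by l, m = l: at most one term, ≤ log Y.
(E ≥ 0: take c = 1, y = 1.)
Step: of the ν_q classes c ∈ Omt t q exactly one has c + t i0 ≡ 0 mod q (c ≡ - t i0); for it the indicator
[gcd(v' + t i0, W q) = 1] vanishes; for the other ν_q - 1 it is [gcd(v + t i0, W) = 1]; φ(W q) =
φ(W)(q-1).
Final: W = 1, v = 0.
-/

set_option autoImplicit false

open Finset

namespace Pool.Agent.EV2

open Pool.Agent.HLB

open scoped Classical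

namespace HitP

/-- the sum over one residue class is a difference of values of `thetaAP` -/
lemma sum_class (x t q v0 : ℕ) :
    ∑ n ∈ (Icc 1 x).filter (fun n => n ≡ v0 [MOD q]),
      ip (n + t) * Real.log ((n + t : ℕ) : ℝ) =
    Pool.Agent.Lib.SW.thetaAP ((x + t : ℕ) : ℝ) q (v0 + t) -
      Pool.Agent.Lib.SW.thetaAP ((t : ℕ) : ℝ) q (v0 + t) := by
  unfold Pool.Agent.Lib.SW.thetaAP
  rw [Nat.floor_natCast, Nat.floor_natCast, eq_sub_iff_add_eq]
  have h1 : (Icc 1 (x + t)).filter (fun p => p.Prime ∧ p ≡ v0 + t [MOD q]) =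
      ((Ioc t (x + t)).filter (fun p => p.Prime ∧ p ≡ v0 + t [MOD q])) ∪
      ((Icc 1 t).filter (fun p => p.Prime ∧ p ≡ v0 + t [MOD q])) := by
    ext p
    simp only [mem_union, mem_filter, mem_Icc, mem_Ioc]
    constructor
    · rintro ⟨⟨h1, h2⟩, h3⟩
      rcases Nat.lt_or_ge t p with h4 | h4
      · exact Or.inl ⟨⟨h4, h2⟩, h3⟩
      · exact Or.inr ⟨⟨h1, h4⟩, h3⟩
    · rintro (⟨⟨h1, h2⟩, h3⟩ | ⟨⟨h1, h2⟩, h3⟩)
      · exact ⟨⟨by omega, h2⟩, h3⟩
      · exact ⟨⟨h1, by omega⟩, h3⟩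
  have h2 : Disjoint ((Ioc t (x + t)).filter (fun p => p.Prime ∧ p ≡ v0 + t [MOD q]))
      ((Icc 1 t).filter (fun p => p.Prime ∧ p ≡ v0 + t [MOD q])) := by
    rw [Finset.disjoint_left]
    intro p hp hp'
    rw [mem_filter, mem_Ioc] at hp
    rw [mem_filter, mem_Icc] at hp'
    omega
  rw [h1, Finset.sum_union h2]
  congr 1
  have h3 : ∑ p ∈ (Ioc t (x + t)).filter (fun p => p.Prime ∧ p ≡ v0 + t [MOD q]), Real.log p =
      ∑ p ∈ (Ioc t (x + t)).filter (fun p => p ≡ v0 + t [MOD q]), ip p * Real.log p := by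
    rw [Finset.sum_filter, Finset.sum_filter]
    refine Finset.sum_congr rfl fun p _ => ?_
    unfold ip
    by_cases h1 : p.Prime <;> by_cases h2 : p ≡ v0 + t [MOD q] <;> simp [h1, h2]
  rw [h3]
  refine Finset.sum_bij' (fun n _ => n + t) (fun p _ => p - t) ?_ ?_ ?_ ?_ ?_
  · intro n hn
    rw [mem_filter, mem_Icc] at hn
    rw [mem_filter, mem_Ioc]
    exact ⟨⟨by omega, by omega⟩, hn.2.add_right t⟩
  · intro p hp
    rw [mem_filter, mem_Ioc] at hp
    rw [mem_filter, mem_Icc]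
    refine ⟨⟨by omega, by omega⟩, ?_⟩
    have h4 : (p - t) + t ≡ v0 + t [MOD q] := by
      rw [Nat.sub_add_cancel (by omega)]
      exact hp.2
    exact Nat.ModEq.add_right_cancel' t h4
  · intro n _
    exact Nat.add_sub_cancel n t
  · intro p hp
    rw [mem_filter, mem_Ioc] at hp
    exact Nat.sub_add_cancel (by omega)
  · intro n _
    rfl

lemma theta_zero (q a : ℕ) : Pool.Agent.Lib.SW.thetaAP ((0 : ℕ) : ℝ) q a = 0 := by
  unfold Pool.Agent.Lib.SW.thetaAP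
  rw [Nat.floor_natCast]
  simp

/-- the base case -/
lemma base (t b x d W v : ℕ) (hd : 1 ≤ d) (hW : 1 ≤ W) (hWd : Nat.Coprime W d)
    (Y E : ℝ) (hY : ((x + t : ℕ) : ℝ) ≤ Y) (hY1 : 1 ≤ Y)
    (hE : ∀ c : ℕ, c.Coprime (d * W) → ∀ y : ℝ, 1 ≤ y → y ≤ Y →
      |Pool.Agent.Lib.SW.thetaAP y (d * W) c - y / ((d * W).totient : ℝ)| ≤ E) :
    |∑ n ∈ (Icc 1 x).filter (fun n => n ≡ v [MOD W] ∧ d ∣ n + b),
        ip (n + t) * Real.log ((n + t : ℕ) : ℝ) -
      (if Nat.Coprime (v + t) W ∧ Int.gcd (d : ℤ) ((t : ℤ) - b) = 1 then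
        (x : ℝ) / ((d.totient : ℝ) * (W.totient : ℝ)) else 0)| ≤ 2 * E + Real.log Y := by
  have hE0 : 0 ≤ E := (abs_nonneg _).trans (hE 1 (Nat.coprime_one_left _) 1 le_rfl hY1)
  have hL : 0 ≤ Real.log Y := Real.log_nonneg hY1
  obtain ⟨v0, hv1, hv2⟩ := Nat.chineseRemainder hWd v ((d - 1) * b)
  have hv3 : d ∣ v0 + b := by
    have h1 : v0 + b ≡ (d - 1) * b + b [MOD d] := hv2.add_right b
    have h2 : (d - 1) * b + b = d * b := by
      obtain ⟨w, hw⟩ : ∃ w, d = w + 1 := ⟨d - 1, by omega⟩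
      rw [hw, Nat.add_sub_cancel]
      ring
    rw [h2] at h1
    exact (Nat.modEq_zero_iff_dvd).1 (h1.trans ((Nat.modEq_zero_iff_dvd).2 (dvd_mul_right _ _)))
  have hset : (Icc 1 x).filter (fun n => n ≡ v [MOD W] ∧ d ∣ n + b) =
      (Icc 1 x).filter (fun n => n ≡ v0 [MOD d * W]) := by
    refine Finset.filter_congr fun n _ => ?_
    rw [mul_comm, ← Nat.modEq_and_modEq_iff_modEq_mul hWd]
    constructor
    · rintro ⟨h1, h2⟩
      refine ⟨h1.trans hv1.symm, ?_⟩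
      have h3 : n + b ≡ v0 + b [MOD d] :=
        ((Nat.modEq_zero_iff_dvd).2 h2).trans ((Nat.modEq_zero_iff_dvd).2 hv3).symm
      exact Nat.ModEq.add_right_cancel' b h3
    · rintro ⟨h1, h2⟩
      refine ⟨h1.trans hv1, ?_⟩
      exact (Nat.modEq_zero_iff_dvd).1 ((h2.add_right b).trans ((Nat.modEq_zero_iff_dvd).2 hv3))
  have hcop : (Nat.Coprime (v + t) W ∧ Int.gcd (d : ℤ) ((t : ℤ) - b) = 1) ↔
      Nat.Coprime (v0 + t) (d * W) := by
    rw [Nat.coprime_mul_iff_right]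
    have e1 : Nat.Coprime (v0 + t) W ↔ Nat.Coprime (v + t) W := by
      have h3 : Nat.gcd (v0 + t) W = Nat.gcd (v + t) W := (hv1.add_right t).gcd_eq
      rw [Nat.Coprime, Nat.Coprime, h3]
    have e2 : Nat.Coprime (v0 + t) d ↔ Int.gcd (d : ℤ) ((t : ℤ) - b) = 1 := by
      have h4 : ((v0 + t : ℕ) : ℤ) = ((t : ℤ) - b) + ((v0 + b : ℕ) : ℤ) := by
        push_cast
        ring
      obtain ⟨w, hw⟩ := hv3
      rw [hw] at h4
      push_cast at h4
      have h5 : Int.gcd (d : ℤ) ((t : ℤ) - b) = Int.gcd (d : ℤ) ((v0 + t : ℕ) : ℤ) := by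
        rw [Nat.cast_add, h4]
        simp
      rw [h5, Int.gcd_natCast_natCast, Nat.coprime_comm]
    rw [e1, e2]
    exact and_comm
  rw [hset]
  by_cases hc : Nat.Coprime (v0 + t) (d * W)
  · rw [if_pos (hcop.2 hc), sum_class]
    have hb : ∀ y : ℕ, (y : ℝ) ≤ Y → |Pool.Agent.Lib.SW.thetaAP (y : ℝ) (d * W) (v0 + t) -
        (y : ℝ) / ((d * W).totient : ℝ)| ≤ E := by
      intro y hy
      rcases Nat.eq_zero_or_pos y with rfl | hy0
      · rw [theta_zero]
        simpa using hE0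
      · exact hE _ hc _ (by exact_mod_cast hy0) hy
    have h1 := abs_le.1 (hb (x + t) hY)
    have h2 := abs_le.1 (hb t (le_trans (by
      have : (0:ℝ) ≤ x := Nat.cast_nonneg x
      push_cast
      linarith) hY))
    have h3 : ((d * W).totient : ℝ) = (d.totient : ℝ) * (W.totient : ℝ) := by
      rw [Nat.totient_mul hWd.symm, Nat.cast_mul]
    rw [h3] at h1 h2
    have h4 : ((x + t : ℕ) : ℝ) / ((d.totient : ℝ) * (W.totient : ℝ)) =
        (x : ℝ) / ((d.totient : ℝ) * (W.totient : ℝ)) +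
        (t : ℝ) / ((d.totient : ℝ) * (W.totient : ℝ)) := by
      push_cast
      ring
    rw [h4] at h1
    rw [abs_le]
    constructor <;> linarith [h1.1, h1.2, h2.1, h2.2]
  · rw [if_neg (fun h => hc (hcop.1 h)), sub_zero]
    obtain ⟨l, hl, hl1, hl2⟩ := Nat.Prime.not_coprime_iff_dvd.1 hc
    have hnn : 0 ≤ ∑ n ∈ (Icc 1 x).filter (fun n => n ≡ v0 [MOD d * W]),
        ip (n + t) * Real.log ((n + t : ℕ) : ℝ) := by
      refine Finset.sum_nonneg fun n hn => mul_nonneg (ip_nonneg _) (Real.log_natCast_nonneg _)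
    rw [abs_of_nonneg hnn]
    have hle : ∑ n ∈ (Icc 1 x).filter (fun n => n ≡ v0 [MOD d * W]),
        ip (n + t) * Real.log ((n + t : ℕ) : ℝ) ≤ Real.log Y := by
      have hz : ∀ n ∈ (Icc 1 x).filter (fun n => n ≡ v0 [MOD d * W]), n ≠ l - t →
          ip (n + t) * Real.log ((n + t : ℕ) : ℝ) = 0 := by
        intro n hn hne
        rw [mem_filter, mem_Icc] at hn
        unfold ip
        rw [if_neg, zero_mul]
        intro hp
        have h5 : n + t ≡ v0 + t [MOD l] := (hn.2.of_dvd hl2).add_right t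
        have h6 : l ∣ n + t := (Nat.modEq_zero_iff_dvd).1 (h5.trans
          ((Nat.modEq_zero_iff_dvd).2 hl1))
        rw [Nat.prime_dvd_prime_iff_eq hl hp] at h6
        omega
      by_cases hm : l - t ∈ (Icc 1 x).filter (fun n => n ≡ v0 [MOD d * W])
      · rw [Finset.sum_eq_single_of_mem _ hm hz]
        rw [mem_filter, mem_Icc] at hm
        have h7 : Real.log ((l - t + t : ℕ) : ℝ) ≤ Real.log Y := by
          apply Real.log_le_log
          · have : 0 < l - t + t := by omega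
            exact_mod_cast this
          · refine le_trans ?_ hY
            exact_mod_cast (by omega : l - t + t ≤ x + t)
        calc ip (l - t + t) * Real.log ((l - t + t : ℕ) : ℝ)
            ≤ 1 * Real.log ((l - t + t : ℕ) : ℝ) :=
              mul_le_mul_of_nonneg_right (ip_le_one _) (Real.log_natCast_nonneg _)
          _ ≤ Real.log Y := by rw [one_mul]; exact h7
      · rw [Finset.sum_eq_zero]
        · exact hL
        · intro n hn
          exact hz n hn (fun h => hm (h ▸ hn))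
    linarith

lemma gen {k : ℕ} (t : Fin k → ℕ) (i0 : Fin k) (b x d : ℕ) (hd : 1 ≤ d) (Y E : ℝ)
    (hY : ((x + t i0 : ℕ) : ℝ) ≤ Y) (hY1 : 1 ≤ Y) (s : Finset ℕ) :
    ∀ W v : ℕ, 1 ≤ W → Nat.Coprime W d → (∀ p ∈ s, p.Prime ∧ ¬ p ∣ d ∧ ¬ p ∣ W) →
    (∀ c : ℕ, c.Coprime (d * W * ∏ p ∈ s, p) → ∀ y : ℝ, 1 ≤ y → y ≤ Y →
      |Pool.Agent.Lib.SW.thetaAP y (d * W * ∏ p ∈ s, p) c -
        y / ((d * W * ∏ p ∈ s, p).totient : ℝ)| ≤ E) →
    |∑ n ∈ (Icc 1 x).filter (fun n => n ≡ v [MOD W] ∧ d ∣ n + b ∧ ∀ p ∈ s, ∃ i, p ∣ n + t i),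
        ip (n + t i0) * Real.log ((n + t i0 : ℕ) : ℝ) -
      (if Nat.Coprime (v + t i0) W ∧ Int.gcd (d : ℤ) ((t i0 : ℤ) - b) = 1 then
        (x : ℝ) / ((d.totient : ℝ) * (W.totient : ℝ)) *
          ∏ p ∈ s, ((nuI t p : ℝ) - 1) / ((p : ℝ) - 1) else 0)| ≤
      (∏ p ∈ s, (nuI t p : ℝ)) * (2 * E + Real.log Y) := by
  induction s using Finset.induction_on with
  | empty =>
    intro W v hW hWd _ hE
    have h1 := base (t i0) b x d W v hd hW hWd Y E hY hY1 (by simpa using hE)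
    simpa using h1
  | insert q s hqs ih =>
    intro W v hW hWd hs hE
    obtain ⟨hq, hqd, hqW⟩ := hs q (mem_insert_self _ _)
    obtain ⟨δ, hd1, hd2, hd3⟩ := Pool.Agent.Lib.MP.PreHits.sum_insert (Icc 1 x)
      (fun n => ip (n + t i0) * Real.log ((n + t i0 : ℕ) : ℝ)) (fun n => d ∣ n + b) t W v q hq
      hqW s
    have hmod : d * W * (∏ p ∈ insert q s, p) = d * (W * q) * ∏ p ∈ s, p := by
      rw [Finset.prod_insert hqs]
      ring
    rw [hmod] at hE
    rw [hd3]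
    obtain ⟨c₀, hc₀, hc₀'⟩ : ∃ c₀ ∈ Omt t q, q ∣ c₀ + t i0 := by
      have hneg : q ∣ (q - 1) * t i0 % q + t i0 := by
        have h1 : (q - 1) * t i0 % q + t i0 ≡ (q - 1) * t i0 + t i0 [MOD q] :=
          (Nat.mod_modEq _ q).add_right _
        have h2 : (q - 1) * t i0 + t i0 = q * t i0 := by
          obtain ⟨w, hw⟩ : ∃ w, q = w + 1 := ⟨q - 1, by have := hq.pos; omega⟩
          rw [hw, Nat.add_sub_cancel]
          ring
        rw [h2] at h1
        exact (Nat.modEq_zero_iff_dvd).1 (h1.trans ((Nat.modEq_zero_iff_dvd).2 (dvd_mul_right _ _)))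
      refine ⟨(q - 1) * t i0 % q, ?_, hneg⟩
      rw [Pool.Agent.Lib.MP.PreHits.mem_Omt]
      exact ⟨Nat.mod_lt _ hq.pos, i0, hneg⟩
    have hcop : ∀ c ∈ Omt t q, (Nat.Coprime (δ c + t i0) (W * q) ↔
        Nat.Coprime (v + t i0) W ∧ c ≠ c₀) := by
      intro c hc
      rw [Pool.Agent.Lib.MP.PreHits.mem_Omt] at hc hc₀
      rw [Nat.coprime_mul_iff_right]
      have e1 : Nat.Coprime (δ c + t i0) W ↔ Nat.Coprime (v + t i0) W := by
        have h3 : Nat.gcd (δ c + t i0) W = Nat.gcd (v + t i0) W := ((hd1 c).add_right _).gcd_eq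
        rw [Nat.Coprime, Nat.Coprime, h3]
      have e2 : Nat.Coprime (δ c + t i0) q ↔ c ≠ c₀ := by
        rw [Nat.coprime_comm, hq.coprime_iff_not_dvd]
        apply not_congr
        constructor
        · intro hdvd
          have h2 : δ c + t i0 ≡ c₀ + t i0 [MOD q] :=
            ((Nat.modEq_zero_iff_dvd).2 hdvd).trans ((Nat.modEq_zero_iff_dvd).2 hc₀').symm
          have h3 : c ≡ c₀ [MOD q] := (hd2 c).symm.trans (Nat.ModEq.add_right_cancel' _ h2)
          exact Nat.ModEq.eq_of_lt_of_lt h3 hc.1 hc₀.1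
        · rintro rfl
          exact (Nat.modEq_zero_iff_dvd).1 (((hd2 c).add_right _).trans
            ((Nat.modEq_zero_iff_dvd).2 hc₀'))
      rw [e1, e2]
    have hcard : (((Omt t q).erase c₀).card : ℝ) = (nuI t q : ℝ) - 1 := by
      rw [Finset.card_erase_of_mem hc₀, card_Omt t hq, Nat.cast_sub, Nat.cast_one]
      rw [← card_Omt t hq]
      exact Finset.card_pos.2 ⟨c₀, hc₀⟩
    have hphi : (((W * q).totient : ℕ) : ℝ) = (W.totient : ℝ) * ((q:ℝ) - 1) := by
      have hco : Nat.Coprime W q := by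
        rw [Nat.coprime_comm]
        exact (hq.coprime_iff_not_dvd).mpr hqW
      rw [Nat.totient_mul hco, Nat.totient_prime hq, Nat.cast_mul, Nat.cast_sub hq.one_lt.le,
        Nat.cast_one]
    have hq1 : (q:ℝ) - 1 ≠ 0 := by
      have : (1:ℝ) < q := by exact_mod_cast hq.one_lt
      linarith
    have hphi0 : (W.totient : ℝ) ≠ 0 := by
      have := Nat.totient_pos.2 hW
      positivity
    have hphid : (d.totient : ℝ) ≠ 0 := by
      have := Nat.totient_pos.2 hd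
      positivity
    rw [Finset.prod_insert hqs, Finset.prod_insert hqs]
    have hmain : (if Nat.Coprime (v + t i0) W ∧ Int.gcd (d : ℤ) ((t i0 : ℤ) - b) = 1 then
        (x : ℝ) / ((d.totient : ℝ) * (W.totient : ℝ)) *
          (((nuI t q : ℝ) - 1) / ((q : ℝ) - 1) *
          ∏ p ∈ s, ((nuI t p : ℝ) - 1) / ((p : ℝ) - 1)) else 0) =
        ∑ c ∈ Omt t q, (if Nat.Coprime (δ c + t i0) (W * q) ∧
          Int.gcd (d : ℤ) ((t i0 : ℤ) - b) = 1 then
        (x : ℝ) / ((d.totient : ℝ) * ((W * q).totient : ℝ)) *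
          ∏ p ∈ s, ((nuI t p : ℝ) - 1) / ((p : ℝ) - 1) else 0) := by
      by_cases hA : Nat.Coprime (v + t i0) W ∧ Int.gcd (d : ℤ) ((t i0 : ℤ) - b) = 1
      · rw [if_pos hA, ← Finset.add_sum_erase _ _ hc₀]
        have e0 : ¬ (Nat.Coprime (δ c₀ + t i0) (W * q) ∧
            Int.gcd (d : ℤ) ((t i0 : ℤ) - b) = 1) := by
          rintro ⟨h1, _⟩
          exact ((hcop c₀ hc₀).1 h1).2 rfl
        rw [if_neg e0, zero_add]
        have e1 : ∀ c ∈ (Omt t q).erase c₀, (if Nat.Coprime (δ c + t i0) (W * q) ∧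
            Int.gcd (d : ℤ) ((t i0 : ℤ) - b) = 1 then
            (x : ℝ) / ((d.totient : ℝ) * ((W * q).totient : ℝ)) *
            ∏ p ∈ s, ((nuI t p : ℝ) - 1) / ((p : ℝ) - 1) else 0) =
            (x : ℝ) / ((d.totient : ℝ) * ((W * q).totient : ℝ)) *
            ∏ p ∈ s, ((nuI t p : ℝ) - 1) / ((p : ℝ) - 1) := by
          intro c hc
          rw [mem_erase] at hc
          exact if_pos ⟨(hcop c hc.2).2 ⟨hA.1, hc.1⟩, hA.2⟩
        rw [Finset.sum_congr rfl e1, Finset.sum_const, nsmul_eq_mul, hcard, hphi]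
        field_simp
      · rw [if_neg hA, Finset.sum_eq_zero]
        intro c hc
        rw [if_neg]
        rintro ⟨h1, h2⟩
        exact hA ⟨((hcop c hc).1 h1).1, h2⟩
    rw [hmain, ← Finset.sum_sub_distrib]
    refine (Finset.abs_sum_le_sum_abs _ _).trans ?_
    have h2 : (nuI t q : ℝ) * (∏ p ∈ s, (nuI t p : ℝ)) * (2 * E + Real.log Y) =
        ∑ c ∈ Omt t q, (∏ p ∈ s, (nuI t p : ℝ)) * (2 * E + Real.log Y) := by
      rw [Finset.sum_const, card_Omt t hq, nsmul_eq_mul]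
      ring
    rw [h2]
    refine Finset.sum_le_sum fun c _ => ?_
    apply ih (W * q) (δ c) (Nat.mul_pos hW hq.pos)
    · apply Nat.Coprime.mul_left hWd
      exact (hq.coprime_iff_not_dvd).2 hqd
    · intro p hp
      obtain ⟨h3, h4, h5⟩ := hs p (mem_insert_of_mem hp)
      refine ⟨h3, h4, ?_⟩
      intro hdvd
      rcases h3.dvd_mul.1 hdvd with h6 | h6
      · exact h5 h6
      · rw [Nat.prime_dvd_prime_iff_eq h3 hq] at h6
        subst h6
        exact hqs hp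
    · exact hE

end HitP

open scoped Classical in
theorem hitP {k : ℕ} (t : Fin k → ℕ) (i0 : Fin k) (b x d : ℕ) (hd : 1 ≤ d) (s : Finset ℕ)
    (hs : ∀ p ∈ s, p.Prime ∧ ¬ p ∣ d) (Y E : ℝ) (hY : ((x + t i0 : ℕ) : ℝ) ≤ Y) (hY1 : 1 ≤ Y)
    (hE : ∀ c : ℕ, c.Coprime (d * ∏ p ∈ s, p) → ∀ y : ℝ, 1 ≤ y → y ≤ Y →
      |Pool.Agent.Lib.SW.thetaAP y (d * ∏ p ∈ s, p) c - y / ((d * ∏ p ∈ s, p).totient : ℝ)| ≤ E) :
    |∑ n ∈ (Icc 1 x).filter (fun n => d ∣ n + b ∧ ∀ p ∈ s, ∃ i, p ∣ n + t i),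
        ip (n + t i0) * Real.log ((n + t i0 : ℕ) : ℝ) -
      (if Int.gcd (d : ℤ) ((t i0 : ℤ) - b) = 1 then
        (x : ℝ) / (d.totient : ℝ) * ∏ p ∈ s, ((nuI t p : ℝ) - 1) / ((p : ℝ) - 1) else 0)| ≤
      (∏ p ∈ s, (nuI t p : ℝ)) * (2 * E + Real.log Y) := by
  have h1 := HitP.gen t i0 b x d hd Y E hY hY1 s 1 0 le_rfl (Nat.coprime_one_left _)
    (fun p hp => ⟨(hs p hp).1, (hs p hp).2, fun h => (hs p hp).1.one_lt.ne'
      (Nat.dvd_one.1 h)⟩) (by simpa using hE)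
  simpa [Nat.modEq_one] using h1

end Pool.Agent.EV2
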