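import Pool.Agent.Lib.EV2.Defs

/-!
MODULE EV2.Lin (0.8 h).  The linear identity for the weights.

PROOF.  Exchange the sums: the left side is ∑_{m ∈ RR} (1/φ(m)) ∑_{d ∣ m, gcd(d, h) = 1} μ(d) d/φ(d)
(all divisors of an element of RR are in RR: `RR_of_dvd`).  For squarefree m
(`ArithmeticFunction.IsMultiplicative.prodPrimeFactors_one_add_of_squarefree`, or
`Nat.sum_divisors_filter_squarefree`, or induction over the prime factors) the inner sum is
∏_{p ∣ m} (1 + [p ∤ h] (-p/(p-1))) = ∏_{p ∣ m} (if p ∣ h then 1 else -1/(p-1)) = cc h m/φ(m), as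
φ(m) = ∏_{p ∣ m} (p-1) for squarefree m.
-/

set_option autoImplicit false

open Finset

namespace Pool.Agent.EV2

namespace LinAux

open scoped Classical in
/-- `d ↦ 1[gcd(d, h) = 1] μ(d) d / φ(d)` -/
noncomputable def ff (h : ℤ) : ArithmeticFunction ℝ :=
  ⟨fun d => if Int.gcd (d : ℤ) h = 1 then
    (ArithmeticFunction.moebius d : ℝ) * d / (d.totient : ℝ) else 0, by simp⟩

open scoped Classical in
theorem ff_apply (h : ℤ) (d : ℕ) : ff h d = if Int.gcd (d : ℤ) h = 1 then
    (ArithmeticFunction.moebius d : ℝ) * d / (d.totient : ℝ) else 0 := rfl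

theorem gcd_mul {m n : ℕ} (h : ℤ) : Int.gcd ((m * n : ℕ) : ℤ) h = 1 ↔
    Int.gcd (m : ℤ) h = 1 ∧ Int.gcd (n : ℤ) h = 1 := by
  rw [← Int.isCoprime_iff_gcd_eq_one, ← Int.isCoprime_iff_gcd_eq_one,
    ← Int.isCoprime_iff_gcd_eq_one]
  push_cast
  exact IsCoprime.mul_left_iff

theorem ff_mult (h : ℤ) : (ff h).IsMultiplicative := by
  classical
  refine ⟨?_, fun {m n} hmn => ?_⟩
  · rw [ff_apply]
    simp
  · rw [ff_apply, ff_apply, ff_apply]
    by_cases h1 : Int.gcd (m : ℤ) h = 1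
    · by_cases h2 : Int.gcd (n : ℤ) h = 1
      · rw [if_pos h1, if_pos h2, if_pos ((gcd_mul h).2 ⟨h1, h2⟩),
          ArithmeticFunction.isMultiplicative_moebius.map_mul_of_coprime hmn,
          Nat.totient_mul hmn]
        push_cast
        rw [div_mul_div_comm]
        congr 1
        ring
      · rw [if_neg h2, if_neg (fun h3 => h2 ((gcd_mul h).1 h3).2), mul_zero]
    · rw [if_neg h1, if_neg (fun h3 => h1 ((gcd_mul h).1 h3).1), zero_mul]

theorem gcd_prime {p : ℕ} (hp : p.Prime) (h : ℤ) : Int.gcd (p : ℤ) h = 1 ↔ ¬ (p : ℤ) ∣ h := by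
  rw [← Int.isCoprime_iff_gcd_eq_one]
  exact (Nat.prime_iff_prime_int.1 hp).coprime_iff_not_dvd

theorem totient_sqf {m : ℕ} (hm : Squarefree m) :
    (m.totient : ℝ) = ∏ p ∈ m.primeFactors, ((p : ℝ) - 1) := by
  have h1 := Nat.totient_mul_prod_primeFactors m
  rw [Nat.prod_primeFactors_of_squarefree hm, mul_comm] at h1
  have h2 := Nat.eq_of_mul_eq_mul_left (Nat.pos_of_ne_zero hm.ne_zero) h1
  rw [h2, Nat.cast_prod]
  refine prod_congr rfl fun p hp => ?_
  rw [Nat.cast_sub (Nat.prime_of_mem_primeFactors hp).one_le, Nat.cast_one]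

theorem sum_ff {m : ℕ} (hm : Squarefree m) (h : ℤ) :
    ∑ d ∈ m.divisors, ff h d = cc h m / (m.totient : ℝ) := by
  classical
  rw [← (ff_mult h).prodPrimeFactors_one_add_of_squarefree hm, totient_sqf hm, cc,
    ← prod_div_distrib]
  refine prod_congr rfl fun p hp => ?_
  have hp' := Nat.prime_of_mem_primeFactors hp
  have h2 : (2 : ℝ) ≤ p := by exact_mod_cast hp'.two_le
  have h3 : (p : ℝ) - 1 ≠ 0 := by linarith
  rw [ff_apply]
  by_cases hd : (p : ℤ) ∣ h
  · rw [if_neg (fun h4 => (gcd_prime hp' h).1 h4 hd), if_pos hd, add_zero, div_self h3]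
  · rw [if_pos ((gcd_prime hp' h).2 hd), if_neg hd, ArithmeticFunction.moebius_apply_prime hp',
      Nat.totient_prime hp', Nat.cast_sub hp'.one_le, Nat.cast_one]
    push_cast
    field_simp
    ring

end LinAux

open LinAux in
theorem lin_id (z R : ℕ) (h : ℤ) :
    ∑ d ∈ (RR z R).filter (fun d : ℕ => Int.gcd (d : ℤ) h = 1), lamd z R d / (d.totient : ℝ) = SR z R h := by
  classical
  have h1 : ∀ d ∈ (RR z R).filter (fun d : ℕ => Int.gcd (d : ℤ) h = 1),
      lamd z R d / (d.totient : ℝ) =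
      ∑ m ∈ (RR z R).filter (fun m => d ∣ m), ff h d / (m.totient : ℝ) := by
    intro d hd
    rw [mem_filter] at hd
    unfold lamd
    rw [ff_apply, if_pos hd.2, mul_sum, sum_div]
    refine sum_congr rfl fun m _ => ?_
    ring
  rw [sum_congr rfl h1]
  have h2 : ∑ d ∈ (RR z R).filter (fun d : ℕ => Int.gcd (d : ℤ) h = 1),
      ∑ m ∈ (RR z R).filter (fun m => d ∣ m), ff h d / (m.totient : ℝ) =
      ∑ d ∈ RR z R, ∑ m ∈ RR z R, if d ∣ m then ff h d / (m.totient : ℝ) else 0 := by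
    rw [sum_filter]
    refine sum_congr rfl fun d _ => ?_
    split_ifs with hd
    · rw [sum_filter]
    · symm
      refine sum_eq_zero fun m _ => ?_
      rw [ff_apply, if_neg hd]
      simp
  rw [h2, sum_comm]
  unfold SR
  refine sum_congr rfl fun m hm => ?_
  have h3 : ∑ d ∈ RR z R, (if d ∣ m then ff h d / (m.totient : ℝ) else 0) =
      ∑ d ∈ m.divisors, ff h d / (m.totient : ℝ) := by
    rw [← sum_filter]
    congr 1
    ext d
    rw [mem_filter, Nat.mem_divisors]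
    constructor
    · rintro ⟨_, h4⟩
      exact ⟨h4, by have := (mem_RR.1 hm).1.1; omega⟩
    · rintro ⟨h4, _⟩
      exact ⟨RR_of_dvd hm h4, h4⟩
  rw [h3, ← sum_div, sum_ff (mem_RR.1 hm).2.1]
  rw [div_div, sq]

end Pool.Agent.EV2
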