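import Pool.Agent.Lib.EV2.HitN
import Pool.Agent.Lib.EV2.HitP
import Pool.Agent.Lib.EV2.Lin

/-!
MODULE EV2.Cross (1.8 h).  Primes against the model, explicit error.

PROOF.  As in EV2.Diag, ∏_i ic z (n + t i) = ∑_{s ⊆ primesLE z} (-1)^|s| ∏_{p ∈ s} h_p(n), so the sum on the
left is ∑_{d ∈ RR} lamd d ∑_s (-1)^|s| Θ(d, s), Θ(d, s) the sum of ip (n + t 0) log (n + t 0) over the
n ≤ x with d ∣ n + t 1 and all p ∈ s hit.
(i) ∏ s ≤ D: `hitP` with i0 = 0, b = t 1, E := E (d ∏ s) (d ∏ s ≤ R D; elements of RR are coprime to the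
p ≤ z): Θ = main(d, s) + error ≤ ∏_{p ∈ s} ν_p (2 E + log Y) ≤ (k+2)^|s| (2 E + log Y).
(ii) ∏ s > D: 0 ≤ Θ ≤ log Y #{n} ≤ log Y (∏_{p ∈ s} ν_p) (x/(d ∏ s) + 1) ≤ log Y ∏ ν_p (x/(d D) + 1)
by `hitN` (with e = 1, b = 0); ∑_s ∏_{p ∈ s} ν_p ≤ (k+3)^π(z).
(iii) the main terms main(d, s) = [gcd(d, t 0 - t 1) = 1] x/φ(d) ∏_{p ∈ s} (ν_p - 1)/(p - 1) of the s with
∏ s > D: |.| ≤ (x/φ(d)) (1/D) ∏_{p ∈ s} (ν_p - 1) p/(p-1) ≤ (x/(φ(d) D)) (2(k+1))^|s|, and
∑_s (2k+2)^|s| ≤ (2k+5)^π(z).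
The complete main term: x ∑_{d, gcd(d, t 0 - t 1) = 1} lamd d/φ(d) ∑_s (-1)^|s| ∏_{p ∈ s} (ν_p-1)/(p-1)
= x SR z R (t 0 - t 1) pd z t (`lin_id`).
-/

set_option autoImplicit false

open Finset

namespace Pool.Agent.EV2

open Pool.Agent.HLB

namespace CrossAux

open scoped Classical in
lemma prod_ic_eq {ι : Type} [Fintype ι] (z : ℕ) (t : ι → ℕ) (n : ℕ) :
    ∏ i, ic z (n + t i) = ∑ s ∈ (Nat.primesLE z).powerset,
      (-1 : ℝ) ^ s.card * (if ∀ p ∈ s, ∃ i, p ∣ n + t i then 1 else 0) := by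
  have h1 : ∏ i, ic z (n + t i) =
      ∏ p ∈ Nat.primesLE z, ((-(if ∃ i, p ∣ n + t i then (1 : ℝ) else 0)) + 1) := by
    by_cases h : ∀ p ∈ Nat.primesLE z, ∀ i, ¬ p ∣ n + t i
    · rw [prod_eq_one fun i _ => ?_, prod_eq_one fun p hp => ?_]
      · rw [if_neg (by push Not; exact h p hp)]
        norm_num
      · unfold ic
        rw [if_pos fun p hp => h p hp i]
    · push Not at h
      obtain ⟨p, hp, i, hi⟩ := h
      rw [prod_eq_zero (mem_univ i) ?_, prod_eq_zero hp ?_]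
      · rw [if_pos ⟨i, hi⟩]
        norm_num
      · unfold ic
        rw [if_neg]
        push Not
        exact ⟨p, hp, hi⟩
  rw [h1, prod_add]
  refine sum_congr rfl fun s _ => ?_
  rw [prod_const_one, mul_one, prod_neg, prod_ite_zero, prod_const_one]

lemma sum_pow_card (P : Finset ℕ) (a : ℝ) : ∑ s ∈ P.powerset, a ^ s.card = (a + 1) ^ P.card := by
  have := Finset.prod_add (fun _ : ℕ => a) (fun _ : ℕ => (1 : ℝ)) P
  simp only [prod_const, one_pow, mul_one] at this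
  exact this.symm

end CrossAux

open CrossAux

open scoped Classical in
theorem cross (k z R x D : ℕ) (hD : 1 ≤ D) (t : Fin (k + 2) → ℕ) (Y : ℝ)
    (hY : ((x + t 0 : ℕ) : ℝ) ≤ Y) (hY1 : 1 ≤ Y) (E : ℕ → ℝ)
    (hE : ∀ q, 1 ≤ q → q ≤ R * D → ∀ c : ℕ, c.Coprime q → ∀ y : ℝ, 1 ≤ y → y ≤ Y →
      |Pool.Agent.Lib.SW.thetaAP y q c - y / (q.totient : ℝ)| ≤ E q) :
    |∑ n ∈ Icc 1 x, (∏ i, ic z (n + t i)) * (ip (n + t 0) * Real.log ((n + t 0 : ℕ) : ℝ)) *
        lamS z R (n + t 1) - x * pd z t * SR z R ((t 0 : ℤ) - t 1)| ≤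
      (∑ d ∈ RR z R, ∑ s ∈ (Nat.primesLE z).powerset.filter (fun s => ∏ p ∈ s, p ≤ D),
        |lamd z R d| * ((k : ℝ) + 2) ^ s.card * (2 * E (d * ∏ p ∈ s, p) + Real.log Y)) +
      ((k : ℝ) + 3) ^ (Nat.primesLE z).card * Real.log Y *
        (∑ d ∈ RR z R, |lamd z R d| * ((x : ℝ) / (d * D) + 1)) +
      (2 * (k : ℝ) + 5) ^ (Nat.primesLE z).card * ((x : ℝ) / D) *
        ∑ d ∈ RR z R, |lamd z R d| / (d.totient : ℝ) := by
  set P := Nat.primesLE z with hPdef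
  have hPp : ∀ p ∈ P, p.Prime := fun p hp => (Nat.mem_primesLE.1 hp).2
  have hLY : 0 ≤ Real.log Y := Real.log_nonneg hY1
  have hx0 : (0 : ℝ) ≤ x := Nat.cast_nonneg x
  have hD0 : (0 : ℝ) < D := by exact_mod_cast hD
  -- the sum over the n hit
  set Th : ℕ → Finset ℕ → ℝ := fun d s =>
    ∑ n ∈ (Icc 1 x).filter (fun n => d ∣ n + t 1 ∧ ∀ p ∈ s, ∃ i, p ∣ n + t i),
      ip (n + t 0) * Real.log ((n + t 0 : ℕ) : ℝ) with hTh
  set Ma : ℕ → Finset ℕ → ℝ := fun d s =>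
    if Int.gcd (d : ℤ) ((t 0 : ℤ) - t 1) = 1 then
        (x : ℝ) / (d.totient : ℝ) * ∏ p ∈ s, ((nuI t p : ℝ) - 1) / ((p : ℝ) - 1) else 0 with hMa
  -- expansion of the left side
  have hL : ∑ n ∈ Icc 1 x, (∏ i, ic z (n + t i)) * (ip (n + t 0) * Real.log ((n + t 0 : ℕ) : ℝ)) *
        lamS z R (n + t 1) = ∑ d ∈ RR z R, ∑ s ∈ P.powerset, lamd z R d * ((-1 : ℝ) ^ s.card * Th d s) := by
    have e1 : ∀ n ∈ Icc 1 x, (∏ i, ic z (n + t i)) * (ip (n + t 0) * Real.log ((n + t 0 : ℕ) : ℝ)) *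
        lamS z R (n + t 1) = ∑ d ∈ RR z R, ∑ s ∈ P.powerset, lamd z R d * ((-1 : ℝ) ^ s.card *
          (if d ∣ n + t 1 ∧ ∀ p ∈ s, ∃ i, p ∣ n + t i then
            ip (n + t 0) * Real.log ((n + t 0 : ℕ) : ℝ) else 0)) := by
      intro n _
      rw [prod_ic_eq]
      unfold lamS
      rw [sum_filter, sum_mul, sum_mul_sum, sum_comm]
      refine sum_congr rfl fun d _ => sum_congr rfl fun s _ => ?_
      by_cases h1 : d ∣ n + t 1
      · by_cases h2 : ∀ p ∈ s, ∃ i, p ∣ n + t i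
        · rw [if_pos h1, if_pos h2, if_pos ⟨h1, h2⟩]
          ring
        · rw [if_neg h2, if_neg (fun h : d ∣ n + t 1 ∧ ∀ p ∈ s, ∃ i, p ∣ n + t i => h2 h.2)]
          ring
      · rw [if_neg h1, if_neg (fun h : d ∣ n + t 1 ∧ ∀ p ∈ s, ∃ i, p ∣ n + t i => h1 h.1)]
        ring
    rw [sum_congr rfl e1, sum_comm]
    refine sum_congr rfl fun d _ => ?_
    rw [sum_comm]
    refine sum_congr rfl fun s _ => ?_
    rw [← mul_sum, ← mul_sum, hTh]
    simp only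
    rw [sum_filter]
  -- the complete main term
  have hM : ∑ d ∈ RR z R, ∑ s ∈ P.powerset, lamd z R d * ((-1 : ℝ) ^ s.card * Ma d s) =
      x * pd z t * SR z R ((t 0 : ℤ) - t 1) := by
    have e1 : ∑ s ∈ P.powerset, (-1 : ℝ) ^ s.card * ∏ p ∈ s, ((nuI t p : ℝ) - 1) / ((p : ℝ) - 1) =
        pd z t := by
      unfold pd
      have := Finset.prod_add (fun p : ℕ => -(((nuI t p : ℝ) - 1) / ((p : ℝ) - 1)))
        (fun _ : ℕ => (1 : ℝ)) P
      rw [show ∏ p ∈ P, (1 - ((nuI t p : ℝ) - 1) / ((p : ℝ) - 1)) =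
        ∏ p ∈ P, (-(((nuI t p : ℝ) - 1) / ((p : ℝ) - 1)) + 1) from
          prod_congr rfl fun p _ => by ring, this]
      refine sum_congr rfl fun s _ => ?_
      rw [prod_const_one, mul_one, prod_neg]
    rw [← lin_id, ← e1, sum_filter, mul_sum]
    refine sum_congr rfl fun d _ => ?_
    simp only [hMa]
    by_cases h : Int.gcd (d : ℤ) ((t 0 : ℤ) - t 1) = 1
    · simp only [if_pos h]
      rw [mul_sum, sum_mul]
      refine sum_congr rfl fun s _ => ?_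
      ring
    · simp only [if_neg h]
      simp
  rw [hL, ← hM, ← sum_sub_distrib]
  -- bounds for one pair
  have hnu1 : ∀ p, (1 : ℝ) ≤ nuI t p := fun p => by exact_mod_cast nuI_pos t p
  have hnu2 : ∀ p, (nuI t p : ℝ) ≤ (k : ℝ) + 2 := fun p => by
    have := nuI_le t p
    rw [Fintype.card_fin] at this
    have h2 : ((nuI t p : ℕ) : ℝ) ≤ ((k + 2 : ℕ) : ℝ) := by exact_mod_cast this
    push_cast at h2
    exact h2
  have hnuprod : ∀ s : Finset ℕ, ∏ p ∈ s, (nuI t p : ℝ) ≤ ((k : ℝ) + 2) ^ s.card := fun s => by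
    rw [← prod_const]
    exact prod_le_prod (fun p _ => by linarith [hnu1 p]) fun p _ => hnu2 p
  have hnuprod0 : ∀ s : Finset ℕ, 0 ≤ ∏ p ∈ s, (nuI t p : ℝ) := fun s =>
    prod_nonneg fun p _ => by linarith [hnu1 p]
  have hprodpos : ∀ s ∈ P.powerset, 1 ≤ ∏ p ∈ s, p := fun s hs =>
    prod_pos fun p hp => (hPp p (mem_powerset.mp hs hp)).pos
  have key1 : ∀ d ∈ RR z R, ∀ s ∈ P.powerset, ∏ p ∈ s, p ≤ D →
      |Th d s - Ma d s| ≤ ((k : ℝ) + 2) ^ s.card * (2 * E (d * ∏ p ∈ s, p) + Real.log Y) := by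
    intro d hd s hs hsD
    have hd' := mem_RR.mp hd
    have hq1 : 1 ≤ d * ∏ p ∈ s, p := Nat.mul_pos hd'.1.1 (hprodpos s hs)
    have hq2 : d * ∏ p ∈ s, p ≤ R * D := Nat.mul_le_mul hd'.1.2 hsD
    have hE0 : 0 ≤ E (d * ∏ p ∈ s, p) :=
      (abs_nonneg _).trans (hE _ hq1 hq2 1 (Nat.coprime_one_left _) 1 le_rfl hY1)
    have h := hitP t 0 (t 1) x d hd'.1.1 s (fun p hp => ⟨hPp p (mem_powerset.mp hs hp),
      hd'.2.2 p (mem_powerset.mp hs hp)⟩) Y (E (d * ∏ p ∈ s, p)) hY hY1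
      (fun c hc y hy1 hy2 => hE _ hq1 hq2 c hc y hy1 hy2)
    refine h.trans (mul_le_mul_of_nonneg_right (hnuprod s) (by linarith))
  have key2 : ∀ d ∈ RR z R, ∀ s ∈ P.powerset, ¬ ∏ p ∈ s, p ≤ D →
      |Th d s| ≤ ((k : ℝ) + 2) ^ s.card * (Real.log Y * ((x : ℝ) / (d * D) + 1)) := by
    intro d hd s hs hsD
    have hd' := mem_RR.mp hd
    have hd0 : (0 : ℝ) < d := by exact_mod_cast hd'.1.1
    have hsD' : D < ∏ p ∈ s, p := not_le.mp hsD
    have hsD2 : (D : ℝ) ≤ ∏ p ∈ s, (p : ℝ) := by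
      have : ((D : ℕ) : ℝ) ≤ ((∏ p ∈ s, p : ℕ) : ℝ) := by exact_mod_cast hsD'.le
      rwa [Nat.cast_prod] at this
    have h := hitN t x d 1 (t 1) 0 hd'.1.1 le_rfl s (fun p hp => ⟨hPp p (mem_powerset.mp hs hp),
      hd'.2.2 p (mem_powerset.mp hs hp), (hPp p (mem_powerset.mp hs hp)).one_lt.ne' ∘ Nat.dvd_one.mp⟩)
    rw [Nat.gcd_one_right, if_pos (by simp), Nat.lcm_one_right] at h
    have h1 := (abs_le.mp h).2
    have hcardeq : (Icc 1 x).filter (fun n => d ∣ n + t 1 ∧ 1 ∣ n + 0 ∧ ∀ p ∈ s, ∃ i, p ∣ n + t i) =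
        (Icc 1 x).filter (fun n => d ∣ n + t 1 ∧ ∀ p ∈ s, ∃ i, p ∣ n + t i) := by
      refine filter_congr fun n _ => ?_
      simp
    rw [hcardeq] at h1
    have hTh0 : 0 ≤ Th d s := by
      rw [hTh]
      refine sum_nonneg fun n hn => mul_nonneg (ip_nonneg _) (Real.log_natCast_nonneg _)
    have hTh1 : Th d s ≤ Real.log Y *
        (((Icc 1 x).filter (fun n => d ∣ n + t 1 ∧ ∀ p ∈ s, ∃ i, p ∣ n + t i)).card : ℝ) := by
      rw [hTh, mul_comm, ← nsmul_eq_mul, ← sum_const]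
      refine sum_le_sum fun n hn => ?_
      have hnx := (mem_Icc.mp (mem_filter.mp hn).1)
      have hlog : Real.log ((n + t 0 : ℕ) : ℝ) ≤ Real.log Y := by
        refine Real.log_le_log (by exact_mod_cast (by omega : 0 < n + t 0)) (le_trans ?_ hY)
        exact_mod_cast (by omega : n + t 0 ≤ x + t 0)
      calc ip (n + t 0) * Real.log ((n + t 0 : ℕ) : ℝ) ≤ 1 * Real.log ((n + t 0 : ℕ) : ℝ) :=
            mul_le_mul_of_nonneg_right (ip_le_one _) (Real.log_natCast_nonneg _)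
        _ ≤ Real.log Y := by rw [one_mul]; exact hlog
    have hpr : (x : ℝ) / d * ∏ p ∈ s, (nuI t p : ℝ) / p ≤ (∏ p ∈ s, (nuI t p : ℝ)) * ((x : ℝ) / (d * D)) := by
      rw [prod_div_distrib]
      have h3 : (∏ p ∈ s, (nuI t p : ℝ)) / ∏ p ∈ s, (p : ℝ) ≤ (∏ p ∈ s, (nuI t p : ℝ)) / D :=
        div_le_div_of_nonneg_left (hnuprod0 s) hD0 hsD2
      calc (x : ℝ) / d * ((∏ p ∈ s, (nuI t p : ℝ)) / ∏ p ∈ s, (p : ℝ)) ≤
          (x : ℝ) / d * ((∏ p ∈ s, (nuI t p : ℝ)) / D) :=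
            mul_le_mul_of_nonneg_left h3 (by positivity)
        _ = (∏ p ∈ s, (nuI t p : ℝ)) * ((x : ℝ) / (d * D)) := by
            field_simp
    rw [abs_of_nonneg hTh0]
    have h4 : (((Icc 1 x).filter (fun n => d ∣ n + t 1 ∧ ∀ p ∈ s, ∃ i, p ∣ n + t i)).card : ℝ) ≤
        (∏ p ∈ s, (nuI t p : ℝ)) * ((x : ℝ) / (d * D) + 1) := by
      linarith
    have h5 : (0 : ℝ) ≤ (x : ℝ) / (d * D) + 1 := by positivity
    calc Th d s ≤ Real.log Y * ((∏ p ∈ s, (nuI t p : ℝ)) * ((x : ℝ) / (d * D) + 1)) :=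
          hTh1.trans (mul_le_mul_of_nonneg_left h4 hLY)
      _ ≤ Real.log Y * (((k : ℝ) + 2) ^ s.card * ((x : ℝ) / (d * D) + 1)) :=
          mul_le_mul_of_nonneg_left (mul_le_mul_of_nonneg_right (hnuprod s) h5) hLY
      _ = _ := by ring
  have key3 : ∀ d ∈ RR z R, ∀ s ∈ P.powerset, ¬ ∏ p ∈ s, p ≤ D →
      |Ma d s| ≤ (2 * ((k : ℝ) + 1)) ^ s.card * ((x : ℝ) / D / (d.totient : ℝ)) := by
    intro d hd s hs hsD
    have hd' := mem_RR.mp hd
    have hphi : (0 : ℝ) < d.totient := by exact_mod_cast Nat.totient_pos.mpr hd'.1.1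
    have hsD' : D < ∏ p ∈ s, p := not_le.mp hsD
    have hsD2 : (D : ℝ) ≤ ∏ p ∈ s, (p : ℝ) := by
      have : ((D : ℕ) : ℝ) ≤ ((∏ p ∈ s, p : ℕ) : ℝ) := by exact_mod_cast hsD'.le
      rwa [Nat.cast_prod] at this
    have hrhs : 0 ≤ (2 * ((k : ℝ) + 1)) ^ s.card * ((x : ℝ) / D / (d.totient : ℝ)) := by positivity
    simp only [hMa]
    split_ifs with hg
    · have hfac : ∀ p ∈ s, 0 ≤ ((nuI t p : ℝ) - 1) / ((p : ℝ) - 1) ∧
          ((nuI t p : ℝ) - 1) / ((p : ℝ) - 1) ≤ 2 * ((k : ℝ) + 1) * (1 / (p : ℝ)) := by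
        intro p hp
        have hp2 : (2 : ℝ) ≤ p := by exact_mod_cast (hPp p (mem_powerset.mp hs hp)).two_le
        have h1 := hnu1 p
        have h2 := hnu2 p
        refine ⟨div_nonneg (by linarith) (by linarith), ?_⟩
        rw [div_le_iff₀ (by linarith)]
        have h3 : 1 ≤ 2 * (1 / (p : ℝ)) * ((p : ℝ) - 1) := by
          have : 2 * (1 / (p : ℝ)) * ((p : ℝ) - 1) = 2 - 2 / p := by
            field_simp
          rw [this]
          have : 2 / (p : ℝ) ≤ 1 := by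
            rw [div_le_one (by linarith)]
            exact hp2
          linarith
        calc (nuI t p : ℝ) - 1 ≤ ((k : ℝ) + 1) * 1 := by linarith
          _ ≤ ((k : ℝ) + 1) * (2 * (1 / (p : ℝ)) * ((p : ℝ) - 1)) :=
              mul_le_mul_of_nonneg_left h3 (by positivity)
          _ = _ := by ring
      have hP0 : 0 ≤ ∏ p ∈ s, ((nuI t p : ℝ) - 1) / ((p : ℝ) - 1) :=
        prod_nonneg fun p hp => (hfac p hp).1
      have hP1 : ∏ p ∈ s, ((nuI t p : ℝ) - 1) / ((p : ℝ) - 1) ≤ (2 * ((k : ℝ) + 1)) ^ s.card * (1 / D) := by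
        calc ∏ p ∈ s, ((nuI t p : ℝ) - 1) / ((p : ℝ) - 1) ≤ ∏ p ∈ s, (2 * ((k : ℝ) + 1) * (1 / (p : ℝ))) :=
              prod_le_prod (fun p hp => (hfac p hp).1) fun p hp => (hfac p hp).2
          _ = (2 * ((k : ℝ) + 1)) ^ s.card * (1 / ∏ p ∈ s, (p : ℝ)) := by
              rw [prod_mul_distrib, prod_const]
              congr 1
              simp
          _ ≤ _ := by
              refine mul_le_mul_of_nonneg_left ?_ (by positivity)
              exact one_div_le_one_div_of_le hD0 hsD2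
      rw [abs_of_nonneg (by positivity)]
      calc (x : ℝ) / (d.totient : ℝ) * ∏ p ∈ s, ((nuI t p : ℝ) - 1) / ((p : ℝ) - 1) ≤
          (x : ℝ) / (d.totient : ℝ) * ((2 * ((k : ℝ) + 1)) ^ s.card * (1 / D)) :=
            mul_le_mul_of_nonneg_left hP1 (by positivity)
        _ = _ := by ring
    · rw [abs_zero]
      exact hrhs
  -- one d
  have hone : ∀ d ∈ RR z R, |∑ s ∈ P.powerset, lamd z R d * ((-1 : ℝ) ^ s.card * Th d s) -
      ∑ s ∈ P.powerset, lamd z R d * ((-1 : ℝ) ^ s.card * Ma d s)| ≤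
      ∑ s ∈ P.powerset.filter (fun s => ∏ p ∈ s, p ≤ D),
        |lamd z R d| * ((k : ℝ) + 2) ^ s.card * (2 * E (d * ∏ p ∈ s, p) + Real.log Y) +
      ((k : ℝ) + 3) ^ P.card * Real.log Y * (|lamd z R d| * ((x : ℝ) / (d * D) + 1)) +
      (2 * (k : ℝ) + 5) ^ P.card * ((x : ℝ) / D) * (|lamd z R d| / (d.totient : ℝ)) := by
    intro d hd
    have hd' := mem_RR.mp hd
    have hphi : (0 : ℝ) < d.totient := by exact_mod_cast Nat.totient_pos.mpr hd'.1.1
    have hd0 : (0 : ℝ) < d := by exact_mod_cast hd'.1.1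
    rw [← sum_sub_distrib]
    have hB1 : (0 : ℝ) ≤ Real.log Y * ((x : ℝ) / (d * D) + 1) := by positivity
    have hB2 : (0 : ℝ) ≤ (x : ℝ) / D / (d.totient : ℝ) := by positivity
    calc |∑ s ∈ P.powerset, (lamd z R d * ((-1 : ℝ) ^ s.card * Th d s) -
          lamd z R d * ((-1 : ℝ) ^ s.card * Ma d s))|
        ≤ ∑ s ∈ P.powerset, |lamd z R d| * |Th d s - Ma d s| := by
          refine (abs_sum_le_sum_abs _ _).trans (le_of_eq (sum_congr rfl fun s _ => ?_))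
          rw [← mul_sub, ← mul_sub, abs_mul, abs_mul, abs_pow, abs_neg, abs_one, one_pow, one_mul]
      _ = ∑ s ∈ P.powerset.filter (fun s => ∏ p ∈ s, p ≤ D), |lamd z R d| * |Th d s - Ma d s| +
          ∑ s ∈ P.powerset.filter (fun s => ¬ ∏ p ∈ s, p ≤ D), |lamd z R d| * |Th d s - Ma d s| :=
          (sum_filter_add_sum_filter_not _ _ _).symm
      _ ≤ ∑ s ∈ P.powerset.filter (fun s => ∏ p ∈ s, p ≤ D),
            |lamd z R d| * ((k : ℝ) + 2) ^ s.card * (2 * E (d * ∏ p ∈ s, p) + Real.log Y) +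
          ∑ s ∈ P.powerset, |lamd z R d| * (((k : ℝ) + 2) ^ s.card *
            (Real.log Y * ((x : ℝ) / (d * D) + 1)) +
              (2 * ((k : ℝ) + 1)) ^ s.card * ((x : ℝ) / D / (d.totient : ℝ))) := by
          refine add_le_add (sum_le_sum fun s hs => ?_) ?_
          · rw [mul_assoc]
            exact mul_le_mul_of_nonneg_left (key1 d hd s (mem_filter.mp hs).1 (mem_filter.mp hs).2)
              (abs_nonneg _)
          · refine (sum_le_sum fun s hs => ?_).trans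
              (sum_le_sum_of_subset_of_nonneg (filter_subset _ _) fun s _ _ => ?_)
            · refine mul_le_mul_of_nonneg_left ?_ (abs_nonneg _)
              exact (abs_sub _ _).trans (add_le_add (key2 d hd s (mem_filter.mp hs).1 (mem_filter.mp hs).2)
                (key3 d hd s (mem_filter.mp hs).1 (mem_filter.mp hs).2))
            · positivity
      _ = ∑ s ∈ P.powerset.filter (fun s => ∏ p ∈ s, p ≤ D),
            |lamd z R d| * ((k : ℝ) + 2) ^ s.card * (2 * E (d * ∏ p ∈ s, p) + Real.log Y) +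
          |lamd z R d| * (((k : ℝ) + 2 + 1) ^ P.card * (Real.log Y * ((x : ℝ) / (d * D) + 1)) +
            (2 * ((k : ℝ) + 1) + 1) ^ P.card * ((x : ℝ) / D / (d.totient : ℝ))) := by
          congr 1
          rw [← mul_sum, sum_add_distrib, ← sum_mul, ← sum_mul, sum_pow_card, sum_pow_card]
      _ ≤ _ := by
          have h1 : ((k : ℝ) + 2 + 1) ^ P.card = ((k : ℝ) + 3) ^ P.card := by
            congr 1
            ring
          have h2 : (2 * ((k : ℝ) + 1) + 1) ^ P.card ≤ (2 * (k : ℝ) + 5) ^ P.card :=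
            pow_le_pow_left₀ (by positivity) (by linarith) _
          rw [h1, mul_add, add_assoc]
          refine add_le_add le_rfl (add_le_add (le_of_eq (by ring)) ?_)
          calc |lamd z R d| * ((2 * ((k : ℝ) + 1) + 1) ^ P.card * ((x : ℝ) / D / (d.totient : ℝ))) ≤
              |lamd z R d| * ((2 * (k : ℝ) + 5) ^ P.card * ((x : ℝ) / D / (d.totient : ℝ))) :=
                mul_le_mul_of_nonneg_left (mul_le_mul_of_nonneg_right h2 hB2) (abs_nonneg _)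
            _ = _ := by ring
  refine (abs_sum_le_sum_abs _ _).trans ((sum_le_sum hone).trans (le_of_eq ?_))
  rw [sum_add_distrib, sum_add_distrib, mul_sum, mul_sum]

end Pool.Agent.EV2
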