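import Pool.Agent.Lib.EV2.Defs
import Pool.Agent.Lib.BV.TauSum

/-!
MODULE EV2.LamB.  The weights are bounded by a power of log R.

If d divides no element of RR then lamd = 0.  Otherwise d ∈ RR, 1 ≤ d ≤ R, and the elements
m ∈ RR with d ∣ m are m = d m', m' ≤ R, gcd(d, m') = 1 (squarefree), φ(m) = φ(d) φ(m'):
|lamd z R d| ≤ (d/φ(d)) ∑_{m' ≤ R} 1/φ(m') ≤ 3 log(R+2) C (1 + log R) (`inv_totient_le`,
`sum_inv_totient` in BV/TauSum.lean), and log(R+2) ≤ 2 (1 + log R).
-/

set_option autoImplicit false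

open Finset

namespace Pool.Agent.EV2

theorem lam_bound : ∃ C : ℝ, 1 ≤ C ∧ ∀ z R d : ℕ, 1 ≤ R → |lamd z R d| ≤ C * (1 + Real.log R) ^ 2 := by
  obtain ⟨C, hC, hCs⟩ := Pool.Agent.Lib.BV.sum_inv_totient
  refine ⟨6 * C + 1, by linarith, fun z R d hR => ?_⟩
  have hR1 : (1:ℝ) ≤ R := by exact_mod_cast hR
  have hlog : 0 ≤ Real.log R := Real.log_nonneg hR1
  have hpos : 0 ≤ (6 * C + 1) * (1 + Real.log R) ^ 2 := by positivity
  rcases ((RR z R).filter (fun m => d ∣ m)).eq_empty_or_nonempty with hemp | ⟨m₀, hm₀⟩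
  · unfold lamd
    rw [hemp, sum_empty, mul_zero, abs_zero]
    exact hpos
  rw [mem_filter] at hm₀
  obtain ⟨⟨hd1, hdR⟩, hdsq, _⟩ := mem_RR.1 (RR_of_dvd hm₀.1 hm₀.2)
  have hd0 : (0:ℝ) < d := by exact_mod_cast hd1
  have hφ : 0 < (d.totient : ℝ) := by exact_mod_cast Nat.totient_pos.2 hd1
  -- the sum over the multiples
  have hsum : ∑ m ∈ (RR z R).filter (fun m => d ∣ m), 1 / (m.totient : ℝ) ≤
      1 / (d.totient : ℝ) * (C * (1 + Real.log R)) := by
    have h1 : ∀ m ∈ (RR z R).filter (fun m => d ∣ m), 1 / (m.totient : ℝ) =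
        1 / (d.totient : ℝ) * (1 / ((m / d).totient : ℝ)) := by
      intro m hm
      rw [mem_filter] at hm
      obtain ⟨hm1, hm2⟩ := hm
      obtain ⟨⟨h3, h4⟩, h5, _⟩ := mem_RR.1 hm1
      obtain ⟨q, rfl⟩ := hm2
      rw [Nat.mul_div_cancel_left q hd1, Nat.totient_mul (Nat.coprime_of_squarefree_mul h5)]
      push_cast
      rw [one_div_mul_one_div]
    rw [sum_congr rfl h1, ← mul_sum]
    refine mul_le_mul_of_nonneg_left ?_ (by positivity)
    refine le_trans ?_ (hCs R hR)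
    rw [← sum_image (f := fun m : ℕ => 1 / (m.totient : ℝ)) (g := fun m => m / d) (by
      intro m hm m' hm' h
      have hm := mem_filter.1 (mem_coe.1 hm)
      have hm' := mem_filter.1 (mem_coe.1 hm')
      have h' : m / d = m' / d := h
      rw [← Nat.mul_div_cancel' hm.2, ← Nat.mul_div_cancel' hm'.2, h'])]
    refine sum_le_sum_of_subset_of_nonneg ?_ (fun _ _ _ => by positivity)
    intro q hq
    obtain ⟨m, hm, rfl⟩ := mem_image.1 hq
    obtain ⟨hm1, hm2⟩ := mem_filter.1 hm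
    obtain ⟨⟨h3, h4⟩, _, _⟩ := mem_RR.1 hm1
    rw [mem_Icc]
    exact ⟨Nat.div_pos (Nat.le_of_dvd h3 hm2) hd1, (Nat.div_le_self m d).trans h4⟩
  have hmu : |(ArithmeticFunction.moebius d : ℝ)| ≤ 1 := by
    have : |(ArithmeticFunction.moebius d : ℤ)| ≤ 1 := ArithmeticFunction.abs_moebius_le_one
    exact_mod_cast this
  have hS0 : 0 ≤ ∑ m ∈ (RR z R).filter (fun m => d ∣ m), 1 / (m.totient : ℝ) :=
    sum_nonneg fun _ _ => by positivity
  have h1 : |lamd z R d| ≤ d * (1 / (d.totient : ℝ) * (C * (1 + Real.log R))) := by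
    unfold lamd
    rw [abs_mul, abs_mul, abs_of_nonneg hS0, abs_of_pos hd0]
    refine mul_le_mul ?_ hsum hS0 hd0.le
    calc |(ArithmeticFunction.moebius d : ℝ)| * d ≤ 1 * d :=
          mul_le_mul_of_nonneg_right hmu hd0.le
      _ = d := one_mul _
  have h2 : (d:ℝ) * (1 / (d.totient : ℝ)) ≤ 3 * Real.log (d + 2) := by
    have h3 := Pool.Agent.Lib.BV.inv_totient_le d hd1
    calc (d:ℝ) * (1 / (d.totient : ℝ)) ≤ d * (3 * Real.log (d + 2) / d) :=
          mul_le_mul_of_nonneg_left h3 hd0.le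
      _ = 3 * Real.log (d + 2) := by field_simp
  have h4 : Real.log (d + 2) ≤ 2 * (1 + Real.log R) := by
    have h5 : ((d:ℝ) + 2) ≤ 3 * R := by
      have : (d:ℝ) ≤ R := by exact_mod_cast hdR
      linarith
    have h6 : Real.log (d + 2) ≤ Real.log (3 * R) := Real.log_le_log (by positivity) h5
    rw [Real.log_mul (by norm_num) (by positivity)] at h6
    have h7 : Real.log 3 ≤ 2 := by
      have := Real.log_le_sub_one_of_pos (show (0:ℝ) < 3 by norm_num)
      linarith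
    linarith
  calc |lamd z R d| ≤ d * (1 / (d.totient : ℝ) * (C * (1 + Real.log R))) := h1
    _ = (d * (1 / (d.totient : ℝ))) * (C * (1 + Real.log R)) := by ring
    _ ≤ (3 * (2 * (1 + Real.log R))) * (C * (1 + Real.log R)) := by
        refine mul_le_mul_of_nonneg_right (h2.trans ?_) (by positivity)
        linarith
    _ = 6 * C * (1 + Real.log R) ^ 2 := by ring
    _ ≤ (6 * C + 1) * (1 + Real.log R) ^ 2 := by
        refine mul_le_mul_of_nonneg_right (by linarith) (by positivity)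

end Pool.Agent.EV2
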