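import Pool.Agent.Lib.EV2.Defs

/-!
MODULE EV2.PiS (0.7 h).  K^π(z) is smaller than every power of x.

PROOF.  (primesLE z).card = π(z) and π(z)/z → 0 (for every w < z: π(z) ≤ w + θ(z)/log w ≤ w + z log 4/log w
from Mathlib's Chebyshev bound θ(z) ≤ log 4 z, e.g. `Chebyshev.theta_le_log4_mul_x`, or
`primorial_le_4_pow`: ∏_{p ≤ z} p ≤ 4^z; or the PNT lemmas of Pool/Agent/Lib/HL/PntAux.lean; with w = √z or
w fixed large).  zz r x = ⌊log x/(2(r+1))⌋ → ∞, zz r x ≤ log x.  So for x large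
π(zz r x) log (K+1) ≤ δ log x.
-/

set_option autoImplicit false

open Finset Filter

namespace Pool.Agent.EV2

open Pool.Agent.HLB

private lemma tendsto_zz (r : ℕ) : Tendsto (fun x : ℕ => Real.log x / (2 * (r + 1))) atTop atTop :=
  Tendsto.atTop_div_const (by positivity) (Real.tendsto_log_atTop.comp tendsto_natCast_atTop_atTop)

theorem pow_card_le (K r : ℕ) {δ : ℝ} (hδ : 0 < δ) : ∀ᶠ x : ℕ in atTop,
    (K : ℝ) ^ (Nat.primesLE (zz r x)).card ≤ (x : ℝ) ^ δ := by
  set C : ℝ := (Real.log 4 + 1) * Real.log ((K : ℝ) + 1) with hC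
  have hKlog : 0 ≤ Real.log ((K : ℝ) + 1) := Real.log_nonneg (by
    have : (0:ℝ) ≤ K := Nat.cast_nonneg K
    linarith)
  have h4 : 0 ≤ Real.log 4 := Real.log_nonneg (by norm_num)
  have hC0 : 0 ≤ C := mul_nonneg (by linarith) hKlog
  have e1 : ∀ᶠ y : ℝ in atTop, Nat.primeCounting ⌊y⌋₊ ≤ (Real.log 4 + 1) * y / Real.log y :=
    Chebyshev.eventually_primeCounting_le one_pos
  have e2 : ∀ᶠ y : ℝ in atTop, C / δ ≤ Real.log y := Real.tendsto_log_atTop.eventually_ge_atTop _
  have e3 := (tendsto_zz r).eventually (e1.and (e2.and (eventually_gt_atTop 1)))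
  filter_upwards [e3, eventually_ge_atTop 1] with x hx hx1
  obtain ⟨h1, h2, h3⟩ := hx
  set y : ℝ := Real.log x / (2 * (r + 1)) with hy
  have hx0 : (0:ℝ) < x := by exact_mod_cast hx1
  have hlogy : 0 < Real.log y := Real.log_pos h3
  have hlogx : 0 ≤ Real.log x := Real.log_nonneg (by exact_mod_cast hx1)
  have hyx : y ≤ Real.log x := by
    rw [hy]
    apply div_le_self hlogx
    have : (0:ℝ) ≤ r := Nat.cast_nonneg r
    linarith
  have hcard : ((Nat.primesLE (zz r x)).card : ℝ) ≤ (Real.log 4 + 1) * y / Real.log y := by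
    have : zz r x = ⌊y⌋₊ := rfl
    rw [this, Nat.primesLE_card_eq_primeCounting]
    exact h1
  have hbase : (K : ℝ) ^ (Nat.primesLE (zz r x)).card ≤
      ((K : ℝ) + 1) ^ (Nat.primesLE (zz r x)).card :=
    pow_le_pow_left₀ (Nat.cast_nonneg K) (by linarith) _
  refine hbase.trans ?_
  have hK1 : (0:ℝ) < (K : ℝ) + 1 := by positivity
  rw [Real.rpow_def_of_pos hx0]
  have h5 : ((K : ℝ) + 1) ^ (Nat.primesLE (zz r x)).card =
      Real.exp (((Nat.primesLE (zz r x)).card : ℝ) * Real.log ((K : ℝ) + 1)) := by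
    rw [mul_comm, Real.exp_mul, Real.exp_log hK1, Real.rpow_natCast]
  rw [h5, Real.exp_le_exp]
  calc ((Nat.primesLE (zz r x)).card : ℝ) * Real.log ((K : ℝ) + 1)
      ≤ ((Real.log 4 + 1) * y / Real.log y) * Real.log ((K : ℝ) + 1) :=
        mul_le_mul_of_nonneg_right hcard hKlog
    _ = C * y / Real.log y := by rw [hC]; ring
    _ ≤ (δ * Real.log y) * y / Real.log y := by
        have h6 : C ≤ δ * Real.log y := by
          rw [div_le_iff₀ hδ] at h2
          linarith
        have h7 : 0 ≤ y := by linarith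
        gcongr
    _ = δ * y := by field_simp
    _ ≤ δ * Real.log x := mul_le_mul_of_nonneg_left hyx hδ.le
    _ = Real.log x * δ := mul_comm _ _

end Pool.Agent.EV2
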