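import Pool.Agent.Lib.EV2.Cross
import Pool.Agent.Lib.EV2.BVW
import Pool.Agent.Lib.EV2.PiS
import Pool.Agent.Lib.EV2.LamB
import Pool.Agent.Lib.BVH.Main

/-!
MODULE EV2.CrossAs (2.5 h).  Primes against the model, asymptotic form.

PROOF.  L = log x, z = zz r x ≤ L, Y = 2 x L^K0 (x + t 0 ≤ Y for L ≥ 1), D = ⌊x^(η/4)⌋₊ ≥ x^(η/4)/2, D ≥ 1,
`cross` with these.  E: let E₁ be the function of `bv_half A₁ (η := η/2)` at Y (A₁ large, below); since
R D ≤ x^(1/2 - η + η/4) ≤ Y^(1/2 - η/2), every q ≤ R D is ≤ ⌊Y^(1/2-η/2)⌋₊.  Put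
E q = min (E₁ q) (Y (log Y)²/q): for q ≤ Y^(1/2) and 1 ≤ y ≤ Y, trivially
0 ≤ thetaAP y q c ≤ (Y/q + 1) log Y and y/φ(q) ≤ 3 Y log(q+2)/q (`inv_totient_le`), so
|thetaAP - y/φ(q)| ≤ Y (log Y)²/q for Y large.
First error term of `cross`: |lamd| ≤ C (1 + L)² (`lam_bound`, R ≤ x), and (d, s) ↦ q = d ∏ s is injective
(d is coprime to the p ≤ z, s is the set of the prime factors ≤ z of q) into the squarefree
q ≤ R D, with (k+2)^|s| ≤ (k+2)^ω(q).  So it is at most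
2 C (1+L)² ∑_{q ≤ R D squarefree} (k+2)^ω(q) E q + C (1+L)² log Y (k+2)^π(z) 2^π(z) R.
`bvw (k+2) (M + K0 + 5)` at N = Y gives A' and (A₁ = A' + 1, C₁ Y/(log Y)^(A'+1) ≤ Y/(log Y)^A') the bound
Y/(log Y)^(M + K0 + 5) for the first sum; Y ≤ 2 x L^K0; the second is ≤ x^(1-η/2) by `pow_card_le`.
Second error term: ∑_d |lamd| (x/(d D) + 1) ≤ C (1+L)² (x (1+L)/D + R) (∑_{d ≤ R} 1/d ≤ 1 + L) and
(k+3)^π(z) ≤ x^(η/16): ≤ x^(1-η/8).  Third: ∑_d |lamd|/φ(d) ≤ C (1+L)² · C' (1+L)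
(`sum_inv_totient`): the same.  All are ≤ x/L^(M+1) for x large, the sum ≤ x/L^M.
-/

set_option autoImplicit false

open Finset Filter

namespace Pool.Agent.EV2

open Pool.Agent.HLB

namespace CrossAsAux

private lemma ev_polylog (C : ℝ) (m : ℕ) {δ : ℝ} (hδ : 0 < δ) :
    ∀ᶠ x : ℕ in atTop, C * Real.log x ^ m ≤ (x : ℝ) ^ δ := by
  have h := isLittleO_log_rpow_rpow_atTop (s := δ) (m : ℝ) hδ
  have h2 := (h.comp_tendsto tendsto_natCast_atTop_atTop).bound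
    (show (0 : ℝ) < 1 / (|C| + 1) by positivity)
  filter_upwards [h2] with x hx
  have hlog : 0 ≤ Real.log x := Real.log_natCast_nonneg x
  simp only [Function.comp_def, Real.rpow_natCast] at hx
  rw [Real.norm_of_nonneg (by positivity), Real.norm_of_nonneg (by positivity)] at hx
  have h3 : C * Real.log x ^ m ≤ (|C| + 1) * Real.log x ^ m :=
    mul_le_mul_of_nonneg_right (by linarith [le_abs_self C]) (by positivity)
  refine h3.trans ?_
  have h4 := mul_le_mul_of_nonneg_left hx (show 0 ≤ |C| + 1 by positivity)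
  refine h4.trans (le_of_eq ?_)
  field_simp

private lemma ev_log (C : ℝ) : ∀ᶠ x : ℕ in atTop, C ≤ Real.log x :=
  (Real.tendsto_log_atTop.comp tendsto_natCast_atTop_atTop).eventually_ge_atTop _

/-! ### the trivial bound -/

private lemma card_modEq_le (M q a : ℕ) (hq : 1 ≤ q) :
    (((Finset.Icc 1 M).filter (fun n => n ≡ a [MOD q])).card : ℝ) ≤ M / q + 1 := by
  have h1 : (Finset.Icc 1 M) = Finset.Ioc 0 M := by ext n; simp; omega
  have h2 := Nat.Ioc_filter_modEq_card 0 M (r := q) (by omega) a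
  rw [h1]
  have h3 : ((((Finset.Ioc 0 M).filter (fun n => n ≡ a [MOD q])).card : ℤ) : ℝ) =
      ((max (⌊((M:ℚ) - a) / q⌋ - ⌊(((0:ℕ):ℚ) - a) / q⌋) 0 : ℤ) : ℝ) := by
    rw [h2]
  have h4 : (((Finset.Ioc 0 M).filter (fun n => n ≡ a [MOD q])).card : ℝ) =
      ((max (⌊((M:ℚ) - a) / q⌋ - ⌊(((0:ℕ):ℚ) - a) / q⌋) 0 : ℤ) : ℝ) := by
    rw [← h3]; push_cast; rfl
  rw [h4]
  have hq0 : (0:ℚ) < q := by exact_mod_cast hq
  have h5 : ((max (⌊((M:ℚ) - a) / q⌋ - ⌊(((0:ℕ):ℚ) - a) / q⌋) 0 : ℤ) : ℚ) ≤ (M:ℚ) / q + 1 := by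
    push_cast
    apply max_le _ (by positivity)
    have e1 := Int.floor_le (((M:ℚ) - a) / q)
    have e2 := Int.lt_floor_add_one ((((0:ℕ):ℚ) - a) / q)
    have e3 : ((M:ℚ) - a) / q - ((((0:ℕ):ℚ) - a) / q) = (M:ℚ) / q := by
      push_cast
      ring
    push_cast at e2 e3 ⊢
    linarith
  have h6 := (Rat.cast_le (K := ℝ)).2 h5
  push_cast at h6 ⊢
  exact h6

private lemma theta_le (y : ℝ) (q a : ℕ) (hq : 1 ≤ q) (hy : 1 ≤ y) :
    Pool.Agent.Lib.SW.thetaAP y q a ≤ (y / q + 1) * Real.log y := by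
  have hq0 : (0:ℝ) < q := by exact_mod_cast hq
  have hl : 0 ≤ Real.log y := Real.log_nonneg hy
  unfold Pool.Agent.Lib.SW.thetaAP
  have h1 : ∀ p ∈ (Finset.Icc 1 ⌊y⌋₊).filter (fun p => p.Prime ∧ p ≡ a [MOD q]),
      Real.log p ≤ Real.log y := by
    intro p hp
    simp only [Finset.mem_filter, Finset.mem_Icc] at hp
    have hp1 : (0:ℝ) < p := by exact_mod_cast hp.1.1
    exact Real.log_le_log hp1 ((Nat.le_floor_iff (by linarith)).1 hp.1.2)
  refine (Finset.sum_le_sum h1).trans ?_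
  rw [Finset.sum_const, nsmul_eq_mul]
  apply mul_le_mul_of_nonneg_right _ hl
  have h2 : (((Finset.Icc 1 ⌊y⌋₊).filter (fun p => p.Prime ∧ p ≡ a [MOD q])).card : ℝ) ≤
      (((Finset.Icc 1 ⌊y⌋₊).filter (fun n => n ≡ a [MOD q])).card : ℝ) := by
    have : ((Finset.Icc 1 ⌊y⌋₊).filter (fun p => p.Prime ∧ p ≡ a [MOD q])).card ≤
      ((Finset.Icc 1 ⌊y⌋₊).filter (fun n => n ≡ a [MOD q])).card := by
      apply Finset.card_le_card
      intro p hp
      simp only [Finset.mem_filter] at hp ⊢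
      exact ⟨hp.1, hp.2.2⟩
    exact_mod_cast this
  refine h2.trans ((card_modEq_le _ q a hq).trans ?_)
  have h3 : ((⌊y⌋₊ : ℕ) : ℝ) ≤ y := Nat.floor_le (by linarith)
  have h4 : ((⌊y⌋₊ : ℕ) : ℝ) / q ≤ y / q := div_le_div_of_nonneg_right h3 hq0.le
  linarith

private lemma theta_nonneg (y : ℝ) (q a : ℕ) : 0 ≤ Pool.Agent.Lib.SW.thetaAP y q a := by
  unfold Pool.Agent.Lib.SW.thetaAP
  refine Finset.sum_nonneg fun p hp => Real.log_nonneg ?_
  simp only [Finset.mem_filter, Finset.mem_Icc] at hp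
  exact_mod_cast hp.1.1

private lemma err_trivial {Y : ℝ} (hL : 6 ≤ Real.log Y) (hY : 3 ≤ Y) (q a : ℕ) (hq : 1 ≤ q)
    (hqY : (q : ℝ) ≤ Y) (y : ℝ) (hy1 : 1 ≤ y) (hy : y ≤ Y) :
    |Pool.Agent.Lib.SW.thetaAP y q a - y / (q.totient : ℝ)| ≤ Y * Real.log Y ^ 2 / q := by
  have hq0 : (0:ℝ) < q := by exact_mod_cast hq
  set L := Real.log Y with hLdef
  have h1 := theta_le y q a hq hy1
  have h2 := theta_nonneg y q a
  have h3 := Pool.Agent.Lib.BV.inv_totient_le q hq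
  have hlog1 : Real.log y ≤ L := Real.log_le_log (by linarith) hy
  have hlog2 : Real.log (q + 2) ≤ 2 * L := by
    have h5 : (q : ℝ) + 2 ≤ Y * Y := by nlinarith
    refine (Real.log_le_log (by positivity) h5).trans ?_
    rw [Real.log_mul (by linarith) (by linarith)]
    linarith
  have hlog0 : 0 ≤ Real.log y := Real.log_nonneg hy1
  have h4 : y / (q.totient : ℝ) ≤ 6 * Y * L / q := by
    calc y / (q.totient : ℝ) = y * (1 / (q.totient : ℝ)) := by ring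
      _ ≤ Y * (3 * Real.log (q + 2) / q) := by
          apply mul_le_mul hy h3 (by positivity) (by positivity)
      _ = 3 * Y * Real.log (q+2) / q := by ring
      _ ≤ 3 * Y * (2 * L) / q := by
          apply div_le_div_of_nonneg_right _ hq0.le
          apply mul_le_mul_of_nonneg_left hlog2 (by positivity)
      _ = _ := by ring
  have h5 : Pool.Agent.Lib.SW.thetaAP y q a ≤ 2 * Y * L / q := by
    refine h1.trans ?_
    have e1 : y / q + 1 ≤ 2 * Y / q := by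
      rw [div_add_one hq0.ne']
      apply div_le_div_of_nonneg_right _ hq0.le
      linarith
    calc (y / q + 1) * Real.log y ≤ (2 * Y / q) * L :=
          mul_le_mul e1 hlog1 hlog0 (by positivity)
      _ = _ := by ring
  have h6 : 0 ≤ y / (q.totient : ℝ) := by positivity
  have h7 : 6 * Y * L / q ≤ Y * L ^ 2 / q := by
    apply div_le_div_of_nonneg_right _ hq0.le
    have : 0 ≤ Y * L := by positivity
    nlinarith
  have h8 : 2 * Y * L / q ≤ 6 * Y * L / q := by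
    apply div_le_div_of_nonneg_right _ hq0.le
    have : 0 ≤ Y * L := by positivity
    nlinarith
  rw [abs_le]
  constructor <;> linarith

/-! ### the pairs -/

private lemma prod_dvd_iff (s : Finset ℕ) (hs : ∀ p ∈ s, p.Prime) {p : ℕ} (hp : p.Prime) :
    p ∣ ∏ q ∈ s, q ↔ p ∈ s := by
  rw [hp.prime.dvd_finsetProd_iff]
  constructor
  · rintro ⟨q, hq, hpq⟩
    rwa [(Nat.prime_dvd_prime_iff_eq hp (hs q hq)).1 hpq]
  · intro h
    exact ⟨p, h, dvd_rfl⟩

private lemma sq_prod (s : Finset ℕ) (hs : ∀ p ∈ s, p.Prime) : Squarefree (∏ p ∈ s, p) := by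
  classical
  induction s using Finset.induction_on with
  | empty => simp
  | insert p s hp ih =>
    rw [Finset.prod_insert hp]
    have hpp := hs p (Finset.mem_insert_self p s)
    have hs' : ∀ q ∈ s, q.Prime := fun q hq => hs q (Finset.mem_insert_of_mem hq)
    have hc : Nat.Coprime p (∏ q ∈ s, q) := by
      rw [hpp.coprime_iff_not_dvd, prod_dvd_iff s hs' hpp]
      exact hp
    exact (Nat.squarefree_mul hc).2 ⟨hpp.prime.squarefree, ih hs'⟩

private lemma prod_pos' (s : Finset ℕ) (hs : ∀ p ∈ s, p.Prime) : 0 < ∏ p ∈ s, p :=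
  Finset.prod_pos fun p hp => (hs p hp).pos

private lemma pair_sum (K z R D : ℕ) (hK : 1 ≤ K) (E : ℕ → ℝ) (hE : ∀ q, 0 ≤ E q) :
    ∑ d ∈ RR z R, ∑ s ∈ (Nat.primesLE z).powerset.filter (fun s => ∏ p ∈ s, p ≤ D),
      (K : ℝ) ^ s.card * E (d * ∏ p ∈ s, p) ≤
    ∑ q ∈ (Icc 1 (R * D)).filter Squarefree, (K : ℝ) ^ q.primeFactors.card * E q := by
  classical
  rw [← Finset.sum_product']
  set P : Finset (ℕ × Finset ℕ) :=
    RR z R ×ˢ (Nat.primesLE z).powerset.filter (fun s => ∏ p ∈ s, p ≤ D) with hP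
  set f : ℕ × Finset ℕ → ℕ := fun a => a.1 * ∏ p ∈ a.2, p with hf
  have hmem : ∀ a ∈ P, ((1 ≤ a.1 ∧ a.1 ≤ R) ∧ Squarefree a.1 ∧ ∀ p ∈ Nat.primesLE z, ¬ p ∣ a.1) ∧
      a.2 ⊆ Nat.primesLE z ∧ ∏ p ∈ a.2, p ≤ D := by
    intro a ha
    rw [hP, Finset.mem_product, Finset.mem_filter, Finset.mem_powerset] at ha
    exact ⟨mem_RR.1 ha.1, ha.2.1, ha.2.2⟩
  have hpr : ∀ a ∈ P, ∀ p ∈ a.2, p.Prime := fun a ha p hp =>
    Nat.prime_of_mem_primesLE ((hmem a ha).2.1 hp)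
  have hrec : ∀ a ∈ P, (Nat.primesLE z).filter (fun p => p ∣ f a) = a.2 := by
    intro a ha
    ext p
    rw [Finset.mem_filter]
    constructor
    · rintro ⟨h1, h2⟩
      have hp := Nat.prime_of_mem_primesLE h1
      rcases (hp.dvd_mul).1 h2 with h3 | h3
      · exact absurd h3 ((hmem a ha).1.2.2 p h1)
      · exact (prod_dvd_iff a.2 (hpr a ha) hp).1 h3
    · intro h
      refine ⟨(hmem a ha).2.1 h, ?_⟩
      exact Dvd.dvd.mul_left ((prod_dvd_iff a.2 (hpr a ha) (hpr a ha p h)).2 h) _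
  have hinj : Set.InjOn f (P : Set (ℕ × Finset ℕ)) := by
    intro a ha b hb hab
    have h1 : a.2 = b.2 := by
      rw [← hrec a ha, ← hrec b hb, hab]
    have h2 : a.1 = b.1 := by
      have h3 : a.1 * ∏ p ∈ a.2, p = b.1 * ∏ p ∈ b.2, p := hab
      rw [h1] at h3
      exact Nat.eq_of_mul_eq_mul_right (prod_pos' b.2 (hpr b hb)) h3
    exact Prod.ext h2 h1
  have hK1 : (1 : ℝ) ≤ K := by exact_mod_cast hK
  have hfp : ∀ a ∈ P, 0 < f a := fun a ha =>
    Nat.mul_pos (hmem a ha).1.1.1 (prod_pos' a.2 (hpr a ha))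
  calc ∑ a ∈ P, (K : ℝ) ^ a.2.card * E (a.1 * ∏ p ∈ a.2, p) ≤
      ∑ a ∈ P, (K : ℝ) ^ (f a).primeFactors.card * E (f a) := by
        refine Finset.sum_le_sum fun a ha => ?_
        refine mul_le_mul_of_nonneg_right ?_ (hE _)
        apply pow_le_pow_right₀ hK1
        apply Finset.card_le_card
        intro p hp
        rw [Nat.mem_primeFactors]
        exact ⟨hpr a ha p hp,
          Dvd.dvd.mul_left ((prod_dvd_iff a.2 (hpr a ha) (hpr a ha p hp)).2 hp) _, (hfp a ha).ne'⟩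
    _ = ∑ q ∈ P.image f, (K : ℝ) ^ q.primeFactors.card * E q :=
        (Finset.sum_image (f := fun q => (K : ℝ) ^ q.primeFactors.card * E q) hinj).symm
    _ ≤ _ := by
        apply Finset.sum_le_sum_of_subset_of_nonneg
        · intro q hq
          obtain ⟨a, ha, rfl⟩ := Finset.mem_image.1 hq
          rw [Finset.mem_filter, Finset.mem_Icc]
          refine ⟨⟨hfp a ha, Nat.mul_le_mul (hmem a ha).1.1.2 (hmem a ha).2.2⟩, ?_⟩
          have hc : Nat.Coprime a.1 (∏ p ∈ a.2, p) := by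
            apply Nat.Coprime.symm
            apply Nat.coprime_of_dvd
            intro p hp h1 h2
            have h3 := (prod_dvd_iff a.2 (hpr a ha) hp).1 h1
            exact (hmem a ha).1.2.2 p ((hmem a ha).2.1 h3) h2
          exact (Nat.squarefree_mul hc).2 ⟨(hmem a ha).1.2.1, sq_prod a.2 (hpr a ha)⟩
        · intro q _ _
          exact mul_nonneg (by positivity) (hE q)

private lemma card_RR (z R : ℕ) : ((RR z R).card : ℝ) ≤ R := by
  have : (RR z R).card ≤ R := by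
    unfold RR
    refine (Finset.card_filter_le _ _).trans (le_of_eq ?_)
    simp
  exact_mod_cast this

private lemma RR_sub (z R : ℕ) : RR z R ⊆ Icc 1 R := by
  unfold RR
  exact Finset.filter_subset _ _

private lemma pow_sum (K z D : ℕ) :
    ∑ s ∈ (Nat.primesLE z).powerset.filter (fun s => ∏ p ∈ s, p ≤ D), (K : ℝ) ^ s.card ≤
      ((K : ℝ) + 1) ^ (Nat.primesLE z).card := by
  have h := Finset.sum_pow_mul_eq_add_pow (K : ℝ) 1 (Nat.primesLE z)
  rw [← h]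
  refine (Finset.sum_le_sum_of_subset_of_nonneg (Finset.filter_subset _ _)
    (fun s _ _ => by positivity)).trans (le_of_eq ?_)
  refine Finset.sum_congr rfl fun s _ => ?_
  rw [one_pow, mul_one]

private lemma inv_sum (z R : ℕ) : ∑ d ∈ RR z R, 1 / (d : ℝ) ≤ 1 + Real.log R := by
  refine (Finset.sum_le_sum_of_subset_of_nonneg (RR_sub z R) (fun d _ _ => by positivity)).trans ?_
  have h := harmonic_le_one_add_log R
  rw [harmonic_eq_sum_Icc] at h
  push_cast at h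
  simpa only [one_div] using h

/-- the final comparison -/
private lemma combine {x L Λ C₁ C₂ S1 P P' LY Di R' δ Kc : ℝ} (M : ℕ) (hx : 0 < x) (hL : 1 ≤ L)
    (hC₁ : 1 ≤ C₁) (hC₂ : 0 < C₂) (hK : 0 ≤ Kc)
    (hΛ : Λ = C₁ * (1 + L) ^ 2) (hS : S1 ≤ 2 * x / L ^ (M + 5)) (hL64 : 64 * C₁ ≤ L)
    (hP'0 : 0 ≤ P') (hP' : P' ≤ P) (hLY0 : 0 ≤ LY) (hLY : LY ≤ Kc * L) (hP0 : 0 ≤ P)
    (hR0 : 0 ≤ R') (hR : R' ≤ δ) (hD : Di ≤ 2 * δ) (hD0 : 0 ≤ Di)
    (hfin : P * δ * (4 * (4 * C₁ * (6 * Kc + 4 * C₂)) * L ^ (M + 4)) ≤ x) :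
    Λ * (2 * S1 + LY * (R' * P')) + P' * LY * (Λ * (Di * (1 + L) + R')) +
      P * Di * (Λ * (C₂ * (1 + L))) ≤ x / L ^ M := by
  have hL0 : 0 < L := by linarith
  have hδ0 : 0 ≤ δ := hR0.trans hR
  have hΛ1 : Λ ≤ 4 * C₁ * L ^ 2 := by
    rw [hΛ]
    have : (1 + L) ^ 2 ≤ 4 * L ^ 2 := by nlinarith
    nlinarith
  have hΛ0 : 0 ≤ Λ := by rw [hΛ]; positivity
  have a1 : Λ * (2 * S1) ≤ x / (4 * L ^ M) := by
    have h1 : Λ * (2 * S1) ≤ Λ * (2 * (2 * x / L ^ (M + 5))) := by gcongr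
    have h2 : Λ * (2 * (2 * x / L ^ (M + 5))) ≤ 4 * C₁ * L ^ 2 * (2 * (2 * x / L ^ (M + 5))) := by
      gcongr
    refine (h1.trans h2).trans ?_
    have h3 : 4 * C₁ * L ^ 2 * (2 * (2 * x / L ^ (M + 5))) = 16 * C₁ * x / (L ^ M * L ^ 3) := by
      rw [pow_add L M 5]
      field_simp
      ring
    rw [h3, div_le_div_iff₀ (by positivity) (by positivity)]
    have h4 : 64 * C₁ ≤ L ^ 3 := by
      calc 64 * C₁ ≤ L := hL64
        _ = L ^ 1 := (pow_one L).symm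
        _ ≤ L ^ 3 := pow_le_pow_right₀ hL (by norm_num)
    have h5 : 0 ≤ x * L ^ M := by positivity
    nlinarith
  have hKL : 0 ≤ Kc * L := by positivity
  have b1 : Λ * (LY * (R' * P')) ≤ 4 * C₁ * L ^ 2 * (Kc * L * (δ * P)) := by gcongr
  have b2 : P' * LY * (Λ * (Di * (1 + L) + R')) ≤
      P * (Kc * L) * (4 * C₁ * L ^ 2 * (2 * δ * (L + L) + δ)) := by gcongr
  have b3 : P * Di * (Λ * (C₂ * (1 + L))) ≤ P * (2 * δ) * (4 * C₁ * L ^ 2 * (C₂ * (L + L))) := by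
    gcongr
  have c1 : 4 * C₁ * L ^ 2 * (Kc * L * (δ * P)) + P * (Kc * L) * (4 * C₁ * L ^ 2 * (2 * δ * (L + L) + δ)) +
      P * (2 * δ) * (4 * C₁ * L ^ 2 * (C₂ * (L + L))) ≤
      P * δ * ((4 * C₁ * (6 * Kc + 4 * C₂)) * L ^ 4) := by
    have e : P * δ * ((4 * C₁ * (6 * Kc + 4 * C₂)) * L ^ 4) -
        (4 * C₁ * L ^ 2 * (Kc * L * (δ * P)) + P * (Kc * L) * (4 * C₁ * L ^ 2 * (2 * δ * (L + L) + δ)) +
      P * (2 * δ) * (4 * C₁ * L ^ 2 * (C₂ * (L + L)))) =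
      P * δ * (4 * C₁) * L ^ 3 * (2 * Kc * (L - 1) + 4 * C₂ * (L - 1)) := by ring
    have : 0 ≤ P * δ * (4 * C₁) * L ^ 3 * (2 * Kc * (L - 1) + 4 * C₂ * (L - 1)) := by
      have : 0 ≤ L - 1 := by linarith
      positivity
    linarith
  have c2 : P * δ * ((4 * C₁ * (6 * Kc + 4 * C₂)) * L ^ 4) ≤ x / (4 * L ^ M) := by
    rw [le_div_iff₀ (by positivity)]
    calc P * δ * ((4 * C₁ * (6 * Kc + 4 * C₂)) * L ^ 4) * (4 * L ^ M) =
        P * δ * (4 * (4 * C₁ * (6 * Kc + 4 * C₂)) * L ^ (M + 4)) := by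
          rw [pow_add]
          ring
      _ ≤ x := hfin
  have d1 : x / (4 * L ^ M) + x / (4 * L ^ M) ≤ x / L ^ M := by
    have : x / L ^ M = 4 * (x / (4 * L ^ M)) := by field_simp
    rw [this]
    have : 0 ≤ x / (4 * L ^ M) := by positivity
    linarith
  have e0 : Λ * (2 * S1 + LY * (R' * P')) = Λ * (2 * S1) + Λ * (LY * (R' * P')) := by ring
  rw [e0]
  linarith

end CrossAsAux

open CrossAsAux in
theorem cross_as (r k K0 M : ℕ) {η : ℝ} (hη : 0 < η) (hη1 : η ≤ 1 / 4) : ∀ᶠ x : ℕ in atTop,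
    ∀ R : ℕ, 1 ≤ R → (R : ℝ) ≤ (x : ℝ) ^ (1 / 2 - η) →
    ∀ t : Fin (k + 2) → ℕ, (t 0 : ℝ) ≤ x * Real.log x ^ K0 →
    |∑ n ∈ Icc 1 x, (∏ i, ic (zz r x) (n + t i)) * (ip (n + t 0) * Real.log ((n + t 0 : ℕ) : ℝ)) *
        lamS (zz r x) R (n + t 1) -
      x * pd (zz r x) t * SR (zz r x) R ((t 0 : ℤ) - t 1)| ≤ x / Real.log x ^ M := by
  classical
  obtain ⟨C₁, hC₁, hlam⟩ := lam_bound
  obtain ⟨C₂, hC₂, htot⟩ := Pool.Agent.Lib.BV.sum_inv_totient
  obtain ⟨A', N₀, hbvw⟩ := bvw (k + 2) (M + K0 + 5)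
  obtain ⟨Cb, x₀, hCb, hbv⟩ := Pool.Agent.BVH.bv_half (A' + 1) (η := η / 2) (by linarith) (by linarith)
  have hcast := (tendsto_natCast_atTop_atTop (R := ℝ)).eventually_ge_atTop (max (max x₀ N₀) 3)
  filter_upwards [pow_card_le (2 * k + 5) r (δ := η / 16) (by linarith), ev_log 6, ev_log Cb,
    ev_log (64 * C₁), hcast,
    ev_polylog (4 * (4 * C₁ * (6 * ((K0 : ℝ) + 2) + 4 * C₂))) (M + 4) (δ := 3 * η / 16) (by linarith)]
    with x hpi hL6 hLC hL64 hxc hpoly R hR1 hR t ht0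
  have hx0 : x₀ ≤ x := ((le_max_left _ _).trans (le_max_left _ _)).trans hxc
  have hxN : N₀ ≤ x := ((le_max_right _ _).trans (le_max_left _ _)).trans hxc
  have hx3 : (3 : ℝ) ≤ x := (le_max_right _ _).trans hxc
  have hxp : (0 : ℝ) < x := by linarith
  have hx1 : (1 : ℝ) ≤ x := by linarith
  set L : ℝ := Real.log x with hLd
  have hL1 : 1 ≤ L := by linarith
  have hL0 : 0 < L := by linarith
  obtain ⟨Y, hY⟩ : ∃ Y : ℝ, Y = 2 * x * L ^ K0 := ⟨_, rfl⟩
  have hLK : 1 ≤ L ^ K0 := one_le_pow₀ hL1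
  have hxY : (x : ℝ) ≤ Y := by
    rw [hY]
    nlinarith
  have hYp : 0 < Y := by linarith
  have hLY : L ≤ Real.log Y := Real.log_le_log hxp hxY
  have hLY2 : Real.log Y ≤ ((K0 : ℝ) + 2) * L := by
    rw [hY, Real.log_mul (by positivity) (by positivity), Real.log_mul (by norm_num) hxp.ne',
      Real.log_pow]
    have h1 : Real.log 2 ≤ 1 := by
      have := Real.log_two_lt_d9
      linarith
    have h2 : Real.log L ≤ L := (Real.log_le_sub_one_of_pos hL0).trans (by linarith)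
    have h3 : (0 : ℝ) ≤ K0 := Nat.cast_nonneg _
    have h4 : (K0 : ℝ) * Real.log L ≤ K0 * L := mul_le_mul_of_nonneg_left h2 h3
    linarith
  have hYt : ((x + t 0 : ℕ) : ℝ) ≤ Y := by
    push_cast
    rw [hY]
    nlinarith
  -- the number D
  set D : ℕ := ⌊(x : ℝ) ^ (η / 4)⌋₊ with hD
  have hxη : 1 ≤ (x : ℝ) ^ (η / 4) := Real.one_le_rpow hx1 (by positivity)
  have hD1 : 1 ≤ D := by
    rw [hD]
    exact Nat.le_floor (by simpa using hxη)
  have hDle : (D : ℝ) ≤ (x : ℝ) ^ (η / 4) := Nat.floor_le (by positivity)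
  have hDge : (x : ℝ) ^ (η / 4) ≤ 2 * D := by
    have h1 : (x : ℝ) ^ (η / 4) < D + 1 := Nat.lt_floor_add_one _
    have h2 : (1 : ℝ) ≤ D := by exact_mod_cast hD1
    linarith
  have hDp : (0 : ℝ) < D := by
    have h2 : (1 : ℝ) ≤ D := by exact_mod_cast hD1
    linarith
  -- the level
  have hRD : ((R * D : ℕ) : ℝ) ≤ Y ^ (1 / 2 - η / 2) := by
    push_cast
    calc (R : ℝ) * D ≤ (x : ℝ) ^ (1 / 2 - η) * (x : ℝ) ^ (η / 4) := by gcongr
      _ = (x : ℝ) ^ (1 / 2 - 3 * η / 4) := by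
          rw [← Real.rpow_add hxp]
          congr 1
          ring
      _ ≤ (x : ℝ) ^ (1 / 2 - η / 2) := Real.rpow_le_rpow_of_exponent_le hx1 (by linarith)
      _ ≤ Y ^ (1 / 2 - η / 2) := Real.rpow_le_rpow hxp.le hxY (by linarith)
  have hRDf : R * D ≤ ⌊Y ^ (1 / 2 - η / 2)⌋₊ := Nat.le_floor hRD
  have hRDY : ((R * D : ℕ) : ℝ) ≤ Y := by
    refine hRD.trans ?_
    calc Y ^ (1 / 2 - η / 2) ≤ Y ^ (1 : ℝ) :=
          Real.rpow_le_rpow_of_exponent_le (by linarith) (by linarith)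
      _ = Y := Real.rpow_one Y
  obtain ⟨E₁, hE0, hEs, hE⟩ := hbv Y (hx0.trans hxY)
  obtain ⟨E, hEd⟩ : ∃ E : ℕ → ℝ, E = fun q => min (E₁ q) (Y * Real.log Y ^ 2 / q) := ⟨_, rfl⟩
  have hEnn : ∀ q, 0 ≤ E q := by
    intro q
    rw [hEd]
    exact le_min (hE0 q) (by positivity)
  have hEE : ∀ q, 1 ≤ q → q ≤ R * D → ∀ c : ℕ, c.Coprime q → ∀ y : ℝ, 1 ≤ y → y ≤ Y →
      |Pool.Agent.Lib.SW.thetaAP y q c - y / (q.totient : ℝ)| ≤ E q := by
    intro q hq1 hq2 c hc y hy1 hy2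
    rw [hEd]
    refine le_min ?_ ?_
    · exact hE q (Finset.mem_Icc.2 ⟨hq1, hq2.trans hRDf⟩) c hc y hy1 hy2
    · have hqY : (q : ℝ) ≤ Y := by
        refine le_trans ?_ hRDY
        exact_mod_cast hq2
      exact err_trivial (by linarith) (by linarith) q c hq1 hqY y hy1 hy2
  have hcross := cross k (zz r x) R x D hD1 t Y hYt (by linarith) E hEE
  refine hcross.trans ?_
  -- the first sum
  have hS1 : ∑ q ∈ (Icc 1 (R * D)).filter Squarefree, ((k + 2 : ℕ) : ℝ) ^ q.primeFactors.card * E q ≤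
      Y / (Real.log Y) ^ (M + K0 + 5) := by
    refine hbvw Y (hxN.trans hxY) (R * D) E hRDY hEnn ?_ ?_
    · calc ∑ q ∈ Icc 1 (R * D), E q ≤ ∑ q ∈ Icc 1 (R * D), E₁ q := by
            refine Finset.sum_le_sum fun q _ => ?_
            rw [hEd]
            exact min_le_left _ _
        _ ≤ ∑ q ∈ Icc 1 ⌊Y ^ (1 / 2 - η / 2)⌋₊, E₁ q := by
            refine Finset.sum_le_sum_of_subset_of_nonneg ?_ fun q _ _ => hE0 q
            exact Finset.Icc_subset_Icc le_rfl hRDf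
        _ ≤ Cb * Y / (Real.log Y) ^ (A' + 1) := hEs
        _ ≤ Y / (Real.log Y) ^ A' := by
            have hly : 0 < Real.log Y := by linarith
            rw [div_le_div_iff₀ (by positivity) (by positivity), pow_succ]
            have h1 : Cb ≤ Real.log Y := by linarith
            have h2 : 0 ≤ Y * Real.log Y ^ A' := by positivity
            nlinarith
    · intro q _
      rw [hEd]
      exact min_le_right _ _
  have hS2 : Y / (Real.log Y) ^ (M + K0 + 5) ≤ 2 * x / L ^ (M + 5) := by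
    calc Y / (Real.log Y) ^ (M + K0 + 5) ≤ Y / L ^ (M + K0 + 5) := by gcongr
      _ = 2 * x / L ^ (M + 5) := by
          rw [hY, show M + K0 + 5 = (M + 5) + K0 by ring, pow_add L (M + 5) K0]
          field_simp
  set z : ℕ := zz r x with hz
  have hpair := pair_sum (k + 2) z R D (by omega) E hEnn
  have hlogR : Real.log R ≤ L := by
    have hRx : (R : ℝ) ≤ x := by
      refine hR.trans ?_
      calc (x : ℝ) ^ (1 / 2 - η) ≤ (x : ℝ) ^ (1 : ℝ) :=
            Real.rpow_le_rpow_of_exponent_le hx1 (by linarith)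
        _ = x := Real.rpow_one _
    have hR0 : (0 : ℝ) < R := by exact_mod_cast hR1
    exact Real.log_le_log hR0 hRx
  have hlogR0 : 0 ≤ Real.log R := Real.log_natCast_nonneg R
  obtain ⟨Λ, hΛ⟩ : ∃ Λ : ℝ, Λ = C₁ * (1 + L) ^ 2 := ⟨_, rfl⟩
  have hΛ0 : 0 ≤ Λ := by rw [hΛ]; positivity
  have hlamL : ∀ d, |lamd z R d| ≤ Λ := by
    intro d
    refine (hlam z R d hR1).trans ?_
    rw [hΛ]
    gcongr
  have hlY0 : 0 ≤ Real.log Y := by linarith
  -- first term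
  have hT1 : ∑ d ∈ RR z R, ∑ s ∈ (Nat.primesLE z).powerset.filter (fun s => ∏ p ∈ s, p ≤ D),
        |lamd z R d| * ((k : ℝ) + 2) ^ s.card * (2 * E (d * ∏ p ∈ s, p) + Real.log Y) ≤
      Λ * (2 * (2 * x / L ^ (M + 5)) + Real.log Y * ((R : ℝ) * ((k : ℝ) + 3) ^ (Nat.primesLE z).card)) := by
    calc ∑ d ∈ RR z R, ∑ s ∈ (Nat.primesLE z).powerset.filter (fun s => ∏ p ∈ s, p ≤ D),
        |lamd z R d| * ((k : ℝ) + 2) ^ s.card * (2 * E (d * ∏ p ∈ s, p) + Real.log Y) ≤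
        ∑ d ∈ RR z R, ∑ s ∈ (Nat.primesLE z).powerset.filter (fun s => ∏ p ∈ s, p ≤ D),
          Λ * (2 * (((k + 2 : ℕ) : ℝ) ^ s.card * E (d * ∏ p ∈ s, p)) +
            Real.log Y * ((k + 2 : ℕ) : ℝ) ^ s.card) := by
          refine Finset.sum_le_sum fun d _ => Finset.sum_le_sum fun s _ => ?_
          have h1 : 0 ≤ 2 * E (d * ∏ p ∈ s, p) + Real.log Y := by
            have := hEnn (d * ∏ p ∈ s, p)
            linarith
          have h2 : |lamd z R d| * ((k : ℝ) + 2) ^ s.card * (2 * E (d * ∏ p ∈ s, p) + Real.log Y) ≤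
              Λ * ((k : ℝ) + 2) ^ s.card * (2 * E (d * ∏ p ∈ s, p) + Real.log Y) := by
            have := hlamL d
            gcongr
          refine h2.trans (le_of_eq ?_)
          push_cast
          ring
      _ = Λ * (2 * ∑ d ∈ RR z R, ∑ s ∈ (Nat.primesLE z).powerset.filter (fun s => ∏ p ∈ s, p ≤ D),
            ((k + 2 : ℕ) : ℝ) ^ s.card * E (d * ∏ p ∈ s, p) +
          Real.log Y * ((RR z R).card * ∑ s ∈ (Nat.primesLE z).powerset.filter (fun s => ∏ p ∈ s, p ≤ D),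
            ((k + 2 : ℕ) : ℝ) ^ s.card)) := by
          simp only [← Finset.mul_sum, Finset.sum_add_distrib, Finset.sum_const, nsmul_eq_mul]
      _ ≤ Λ * (2 * (2 * x / L ^ (M + 5)) + Real.log Y *
            ((R : ℝ) * ((k : ℝ) + 3) ^ (Nat.primesLE z).card)) := by
          have h3 := pow_sum (k + 2) z D
          have h4 : (((k + 2 : ℕ) : ℝ) + 1) = (k : ℝ) + 3 := by push_cast; ring
          rw [h4] at h3
          have h5 := card_RR z R
          have h6 : 0 ≤ ∑ s ∈ (Nat.primesLE z).powerset.filter (fun s => ∏ p ∈ s, p ≤ D),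
            ((k + 2 : ℕ) : ℝ) ^ s.card := Finset.sum_nonneg fun s _ => by positivity
          have h7 := (hpair.trans hS1).trans hS2
          gcongr
  -- second term
  have hT2 : ∑ d ∈ RR z R, |lamd z R d| * ((x : ℝ) / (d * D) + 1) ≤
      Λ * ((x : ℝ) / D * (1 + L) + R) := by
    calc ∑ d ∈ RR z R, |lamd z R d| * ((x : ℝ) / (d * D) + 1) ≤
        ∑ d ∈ RR z R, Λ * ((x : ℝ) / D * (1 / (d : ℝ)) + 1) := by
          refine Finset.sum_le_sum fun d _ => ?_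
          have h1 : (x : ℝ) / (d * D) = (x : ℝ) / D * (1 / (d : ℝ)) := by
            rw [div_mul_div_comm, mul_one, mul_comm (D : ℝ) d]
          rw [h1]
          have := hlamL d
          gcongr
      _ = Λ * ((x : ℝ) / D * (∑ d ∈ RR z R, 1 / (d : ℝ)) + (RR z R).card) := by
          rw [← Finset.mul_sum, Finset.sum_add_distrib, ← Finset.mul_sum, Finset.sum_const,
            nsmul_eq_mul, mul_one]
      _ ≤ Λ * ((x : ℝ) / D * (1 + L) + R) := by
          have h5 := card_RR z R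
          have h6 : ∑ d ∈ RR z R, 1 / (d : ℝ) ≤ 1 + L := (inv_sum z R).trans (by linarith)
          gcongr
  -- third term
  have hT3 : ∑ d ∈ RR z R, |lamd z R d| / (d.totient : ℝ) ≤ Λ * (C₂ * (1 + L)) := by
    calc ∑ d ∈ RR z R, |lamd z R d| / (d.totient : ℝ) ≤ ∑ d ∈ RR z R, Λ * (1 / (d.totient : ℝ)) := by
          refine Finset.sum_le_sum fun d _ => ?_
          rw [mul_one_div]
          exact div_le_div_of_nonneg_right (hlamL d) (Nat.cast_nonneg _)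
      _ = Λ * ∑ d ∈ RR z R, 1 / (d.totient : ℝ) := by rw [Finset.mul_sum]
      _ ≤ Λ * (C₂ * (1 + L)) := by
          apply mul_le_mul_of_nonneg_left _ hΛ0
          refine (Finset.sum_le_sum_of_subset_of_nonneg (RR_sub z R)
            (fun d _ _ => by positivity)).trans ?_
          refine (htot R hR1).trans ?_
          gcongr
  set P : ℝ := (2 * (k : ℝ) + 5) ^ (Nat.primesLE z).card with hP
  set P' : ℝ := ((k : ℝ) + 3) ^ (Nat.primesLE z).card with hP'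
  have hPP : P' ≤ P := by
    rw [hP, hP']
    have : (0 : ℝ) ≤ k := Nat.cast_nonneg k
    gcongr
    · linarith
    · norm_num
  have hP0 : 0 ≤ P := by rw [hP]; positivity
  have hP'0 : 0 ≤ P' := by rw [hP']; positivity
  have hPx : P ≤ (x : ℝ) ^ (η / 16) := by
    have := hpi
    push_cast at this
    rw [hP]
    exact this
  have hDi : (x : ℝ) / D ≤ 2 * (x : ℝ) ^ (1 - η / 4) := by
    rw [div_le_iff₀ hDp]
    have h1 : (x : ℝ) ^ (1 - η / 4) * (x : ℝ) ^ (η / 4) = x := by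
      rw [← Real.rpow_add hxp, sub_add_cancel, Real.rpow_one]
    have h2 : 0 ≤ (x : ℝ) ^ (1 - η / 4) := Real.rpow_nonneg hxp.le _
    have h3 := mul_le_mul_of_nonneg_left hDge h2
    rw [h1] at h3
    refine h3.trans (le_of_eq ?_)
    rw [mul_left_comm, ← mul_assoc]
  have hDi0 : 0 ≤ (x : ℝ) / D := div_nonneg hxp.le hDp.le
  have hRx : (R : ℝ) ≤ (x : ℝ) ^ (1 - η / 4) :=
    hR.trans (Real.rpow_le_rpow_of_exponent_le hx1 (by linarith))
  have hfin : P * (x : ℝ) ^ (1 - η / 4) *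
      (4 * (4 * C₁ * (6 * ((K0 : ℝ) + 2) + 4 * C₂)) * L ^ (M + 4)) ≤ x := by
    have h2 : 0 ≤ 4 * (4 * C₁ * (6 * ((K0 : ℝ) + 2) + 4 * C₂)) * L ^ (M + 4) := by positivity
    calc P * (x : ℝ) ^ (1 - η / 4) *
      (4 * (4 * C₁ * (6 * ((K0 : ℝ) + 2) + 4 * C₂)) * L ^ (M + 4)) ≤
        (x : ℝ) ^ (η / 16) * (x : ℝ) ^ (1 - η / 4) * (x : ℝ) ^ (3 * η / 16) := by gcongr
      _ = (x : ℝ) ^ (1 : ℝ) := by
          rw [← Real.rpow_add hxp, ← Real.rpow_add hxp]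
          congr 1
          ring
      _ = x := Real.rpow_one _
  have hcomb := combine (x := x) (L := L) (Λ := Λ) (C₁ := C₁) (C₂ := C₂)
    (S1 := 2 * x / L ^ (M + 5)) (P := P) (P' := P') (LY := Real.log Y) (Di := (x : ℝ) / D)
    (R' := R) (δ := (x : ℝ) ^ (1 - η / 4)) (Kc := (K0 : ℝ) + 2) M hxp hL1 hC₁ hC₂ (by positivity)
    hΛ le_rfl hL64 hP'0 hPP hlY0 hLY2 hP0 (Nat.cast_nonneg R) hRx hDi hDi0 hfin
  refine le_trans ?_ hcomb
  have hA : P' * Real.log Y * (∑ d ∈ RR z R, |lamd z R d| * ((x : ℝ) / (d * D) + 1)) ≤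
      P' * Real.log Y * (Λ * ((x : ℝ) / D * (1 + L) + R)) :=
    mul_le_mul_of_nonneg_left hT2 (mul_nonneg hP'0 hlY0)
  have hB : P * ((x : ℝ) / D) * ∑ d ∈ RR z R, |lamd z R d| / (d.totient : ℝ) ≤
      P * ((x : ℝ) / D) * (Λ * (C₂ * (1 + L))) :=
    mul_le_mul_of_nonneg_left hT3 (mul_nonneg hP0 hDi0)
  exact add_le_add (add_le_add hT1 hA) hB

end Pool.Agent.EV2
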