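import Pool.Agent.Lib.HLB.T1Lower

/-!
# Bombieri-Davenport for every set of shifts: definitions

`RR z R`: the squarefree `d ≤ R` without prime factor `≤ z`.  `lamd z R d = μ(d) d ∑_{m ∈ RR, d ∣ m} 1/φ(m)`,
`lamS z R n = ∑_{d ∈ RR, d ∣ n} lamd z R d` (the truncated Ramanujan expansion of the von Mangoldt
function over the integers without small prime factors), `cc h m` is the Ramanujan sum `c_m(h)`,
`SR z R h = ∑_{m ∈ RR} c_m(h)/φ(m)²` the truncated singular series of the pair `(0, h)`.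
`dd z t` is the density of the `n` such that no `n + t i` has a prime factor `≤ z`, `pd z t` the same
relative to the primes `n + t 0`.
-/

set_option autoImplicit false

open Finset

namespace Pool.Agent.EV2

open Pool.Agent.HLB

open scoped Classical in
/-- the squarefree integers `1 ≤ d ≤ R` without prime factor `≤ z` -/
noncomputable def RR (z R : ℕ) : Finset ℕ :=
  (Icc 1 R).filter (fun d => Squarefree d ∧ ∀ p ∈ Nat.primesLE z, ¬ p ∣ d)

/-- the weights -/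
noncomputable def lamd (z R d : ℕ) : ℝ :=
  (ArithmeticFunction.moebius d : ℝ) * d * ∑ m ∈ (RR z R).filter (fun m => d ∣ m), 1 / (m.totient : ℝ)

/-- the divisor sum of the weights -/
noncomputable def lamS (z R n : ℕ) : ℝ := ∑ d ∈ (RR z R).filter (fun d => d ∣ n), lamd z R d

/-- the Ramanujan sum `c_m(h)` for squarefree `m` -/
noncomputable def cc (h : ℤ) (m : ℕ) : ℝ := ∏ p ∈ m.primeFactors, (if (p : ℤ) ∣ h then (p : ℝ) - 1 else -1)

/-- the truncated singular series of a pair with difference `h`, primes `> z` -/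
noncomputable def SR (z R : ℕ) (h : ℤ) : ℝ := ∑ m ∈ RR z R, cc h m / (m.totient : ℝ) ^ 2

/-- density of the `n` with all `n + t i` free of prime factors `≤ z` -/
noncomputable def dd {ι : Type} [Fintype ι] (z : ℕ) (t : ι → ℕ) : ℝ :=
  ∏ p ∈ Nat.primesLE z, (1 - (nuI t p : ℝ) / p)

/-- the same relative to the primes `n + t i0` -/
noncomputable def pd {ι : Type} [Fintype ι] (z : ℕ) (t : ι → ℕ) : ℝ :=
  ∏ p ∈ Nat.primesLE z, (1 - ((nuI t p : ℝ) - 1) / ((p : ℝ) - 1))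

/-- `∏_{1 ≤ j < r} (1 - (2 j - 1) / (2 λ))_+` -/
noncomputable def gprod (r : ℕ) (l : ℝ) : ℝ := ∏ j ∈ range (r - 1), max 0 (1 - (2 * j + 1) / (2 * l))

lemma mem_RR {z R d : ℕ} : d ∈ RR z R ↔ (1 ≤ d ∧ d ≤ R) ∧ Squarefree d ∧ ∀ p ∈ Nat.primesLE z, ¬ p ∣ d := by
  classical
  unfold RR
  rw [mem_filter, mem_Icc]

lemma RR_of_dvd {z R d m : ℕ} (hm : m ∈ RR z R) (hd : d ∣ m) : d ∈ RR z R := by
  rw [mem_RR] at hm ⊢
  obtain ⟨⟨h1, h2⟩, h3, h4⟩ := hm
  refine ⟨⟨Nat.pos_of_dvd_of_pos hd h1, (Nat.le_of_dvd h1 hd).trans h2⟩,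
    h3.squarefree_of_dvd hd, fun p hp hpd => h4 p hp (hpd.trans hd)⟩

lemma dd_nonneg {ι : Type} [Fintype ι] (z : ℕ) (t : ι → ℕ) : 0 ≤ dd z t := by
  refine prod_nonneg fun p hp => ?_
  have hp' := (Nat.mem_primesLE.1 hp).2
  have h1 : (nuI t p : ℝ) ≤ p := by exact_mod_cast nuI_le_prime t hp'
  have hp0 : (0:ℝ) < p := by exact_mod_cast hp'.pos
  rw [sub_nonneg, div_le_one hp0]
  exact h1

lemma SZ_eq {ι : Type} [Fintype ι] (z : ℕ) (t : ι → ℕ) :
    SZ z t = dd z t * ((DZ z)⁻¹) ^ (Fintype.card ι) := by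
  unfold SZ dd DZ locI
  rw [← prod_inv_distrib, ← prod_pow, ← prod_mul_distrib]

lemma pd_eq {ι : Type} [Fintype ι] (z : ℕ) (t : ι → ℕ) : pd z t = dd z t * (DZ z)⁻¹ := by
  unfold pd dd DZ
  rw [← prod_inv_distrib, ← prod_mul_distrib]
  refine prod_congr rfl fun p hp => ?_
  have hp' := (Nat.mem_primesLE.1 hp).2
  have h2 : (2:ℝ) ≤ p := by exact_mod_cast hp'.two_le
  have h3 : (p:ℝ) - 1 ≠ 0 := by linarith
  have h4 : (p:ℝ) ≠ 0 := by linarith
  have h5 : (1 - 1 / (p:ℝ)) = ((p:ℝ) - 1) / p := by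
    field_simp
  rw [h5, inv_div]
  field_simp
  ring

lemma gprod_nonneg (r : ℕ) (l : ℝ) : 0 ≤ gprod r l := prod_nonneg fun _ _ => le_max_left _ _

lemma gprod_le_one (r : ℕ) {l : ℝ} (hl : 0 < l) : gprod r l ≤ 1 := by
  unfold gprod
  refine prod_le_one (fun _ _ => le_max_left _ _) fun j _ => ?_
  have : 0 ≤ (2 * (j:ℝ) + 1) / (2 * l) := by positivity
  exact max_le zero_le_one (by linarith)

end Pool.Agent.EV2
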