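import Pool.Agent.Lib.EV2.Defs

/-!
MODULE EV2.Quad (1 h).  The quadratic identity for the weights.

PROOF.  Put g(n) = n if n ∣ h and 0 otherwise (n ≥ 1, divisibility in ℤ) and G(l) = ∑_{m ∣ l} μ(l/m) g(m)
(Moebius inversion, g(n) = ∑_{l ∣ n} G(l): `ArithmeticFunction.sum_eq_iff_sum_mul_moebius_eq` or
g = G * ζ for the arithmetic functions).  Since d e/lcm(d,e) = gcd(d,e), the left side is
∑_{d,e} μ(d) μ(e) g(gcd(d,e)) ∑_{m ∋ d ∣ m} ∑_{m' ∋ e ∣ m'} 1/(φ(m) φ(m'))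
= ∑_{m, m' ∈ RR} (1/(φ(m) φ(m'))) ∑_{d ∣ m} ∑_{e ∣ m'} μ(d) μ(e) ∑_{l ∣ d, l ∣ e} G(l)
= ∑_{m, m'} (1/(φ(m) φ(m'))) ∑_l G(l) (∑_{l ∣ d ∣ m} μ(d)) (∑_{l ∣ e ∣ m'} μ(e)).
For squarefree m, ∑_{l ∣ d ∣ m} μ(d) = μ(l) ∑_{d' ∣ m/l} μ(d') = μ(m) if l = m, and 0 for the other
divisors l of m.  So only l = m = m' remains and gives G(m) μ(m)² = G(m) =
∑_{d ∣ m} μ(m/d) g(d) = ∏_{p ∣ m} (p [p ∣ h] - 1) = cc h m (multiplicativity over the prime factors of
the squarefree m, `prodPrimeFactors_one_add_of_squarefree`).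
-/

set_option autoImplicit false

open Finset

namespace Pool.Agent.EV2

namespace QuadAux

/-- `n` if `n ∣ h`, otherwise `0` -/
noncomputable def gg (h : ℤ) (n : ℕ) : ℝ := open scoped Classical in if (n : ℤ) ∣ h then (n : ℝ) else 0

lemma gg_one (h : ℤ) : gg h 1 = 1 := by
  unfold gg
  rw [if_pos (by simp)]
  simp

lemma gg_mul (h : ℤ) {a b : ℕ} (hab : Nat.Coprime a b) : gg h (a * b) = gg h a * gg h b := by
  unfold gg
  have hc : IsCoprime (a : ℤ) (b : ℤ) := Nat.isCoprime_iff_coprime.2 hab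
  by_cases h1 : (a : ℤ) ∣ h
  · by_cases h2 : (b : ℤ) ∣ h
    · rw [if_pos h1, if_pos h2, if_pos]
      · push_cast
        ring
      · push_cast
        exact hc.mul_dvd h1 h2
    · rw [if_neg h2, if_neg, mul_zero]
      intro h3
      push_cast at h3
      exact h2 ((dvd_mul_left _ _).trans h3)
  · rw [if_neg h1, if_neg, zero_mul]
    intro h3
    push_cast at h3
    exact h1 ((dvd_mul_right _ _).trans h3)

lemma sum_div {p m : ℕ} (hp : p.Prime) (hm : ¬ p ∣ m) (hm0 : m ≠ 0) (f : ℕ → ℝ) :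
    ∑ d ∈ (p * m).divisors, f d = ∑ d ∈ m.divisors, (f d + f (p * d)) := by
  classical
  have h1 : (p * m).divisors = m.divisors ∪ m.divisors.image (fun d => p * d) := by
    ext x
    rw [Nat.mem_divisors, mem_union, Nat.mem_divisors, mem_image]
    constructor
    · rintro ⟨hx, -⟩
      by_cases hpx : p ∣ x
      · obtain ⟨y, rfl⟩ := hpx
        right
        exact ⟨y, Nat.mem_divisors.2 ⟨Nat.dvd_of_mul_dvd_mul_left hp.pos hx, hm0⟩, rfl⟩
      · left
        have hc : Nat.Coprime x p := ((Nat.Prime.coprime_iff_not_dvd hp).2 hpx).symm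
        exact ⟨hc.dvd_of_dvd_mul_left hx, hm0⟩
    · rintro (⟨hx, -⟩ | ⟨y, hy, rfl⟩)
      · exact ⟨hx.trans (dvd_mul_left _ _), mul_ne_zero hp.ne_zero hm0⟩
      · exact ⟨Nat.mul_dvd_mul_left p (Nat.mem_divisors.1 hy).1, mul_ne_zero hp.ne_zero hm0⟩
  have hd : Disjoint m.divisors (m.divisors.image (fun d => p * d)) := by
    rw [Finset.disjoint_left]
    intro x hx hx2
    obtain ⟨y, -, rfl⟩ := mem_image.1 hx2
    exact hm ((dvd_mul_right p y).trans (Nat.mem_divisors.1 hx).1)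
  rw [h1, sum_union hd, sum_image, sum_add_distrib]
  intro a _ b _ hab
  exact Nat.eq_of_mul_eq_mul_left hp.pos hab

lemma mu_mul {p d m : ℕ} (hp : p.Prime) (hm : ¬ p ∣ m) (hd : d ∈ m.divisors) :
    (ArithmeticFunction.moebius (p * d) : ℝ) = -(ArithmeticFunction.moebius d : ℝ) := by
  have hc : Nat.Coprime p d := (Nat.Prime.coprime_iff_not_dvd hp).2
    fun h => hm (h.trans (Nat.mem_divisors.1 hd).1)
  rw [ArithmeticFunction.isMultiplicative_moebius.map_mul_of_coprime hc,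
    ArithmeticFunction.moebius_apply_prime hp]
  push_cast
  ring

/-- the double sum -/
noncomputable def FF (h : ℤ) (m n : ℕ) : ℝ := ∑ d ∈ m.divisors, ∑ e ∈ n.divisors,
  (ArithmeticFunction.moebius d : ℝ) * (ArithmeticFunction.moebius e : ℝ) * gg h (Nat.gcd d e)

lemma FF_ne {h : ℤ} {p m n : ℕ} (hp : p.Prime) (hm : ¬ p ∣ m) (hm0 : m ≠ 0) (hn : ¬ p ∣ n) :
    FF h (p * m) n = 0 := by
  unfold FF
  rw [sum_div hp hm hm0]
  refine sum_eq_zero fun d hd => ?_
  rw [← sum_add_distrib]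
  refine sum_eq_zero fun e he => ?_
  rw [mu_mul hp hm hd]
  have hc : Nat.Coprime p e := (Nat.Prime.coprime_iff_not_dvd hp).2
    fun h => hn (h.trans (Nat.mem_divisors.1 he).1)
  rw [hc.gcd_mul_left_cancel d]
  ring

lemma FF_comm (h : ℤ) (m n : ℕ) : FF h m n = FF h n m := by
  unfold FF
  rw [sum_comm]
  refine sum_congr rfl fun d _ => sum_congr rfl fun e _ => ?_
  rw [Nat.gcd_comm]
  ring

lemma FF_mul {h : ℤ} {p m n : ℕ} (hp : p.Prime) (hm : ¬ p ∣ m) (hm0 : m ≠ 0) (hn : ¬ p ∣ n)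
    (hn0 : n ≠ 0) : FF h (p * m) (p * n) = (gg h p - 1) * FF h m n := by
  unfold FF
  rw [sum_div hp hm hm0, mul_sum]
  refine sum_congr rfl fun d hd => ?_
  rw [sum_div hp hn hn0, sum_div hp hn hn0, ← sum_add_distrib, mul_sum]
  refine sum_congr rfl fun e he => ?_
  have hcd : Nat.Coprime p d := (Nat.Prime.coprime_iff_not_dvd hp).2
    fun h => hm (h.trans (Nat.mem_divisors.1 hd).1)
  have hce : Nat.Coprime p e := (Nat.Prime.coprime_iff_not_dvd hp).2
    fun h => hn (h.trans (Nat.mem_divisors.1 he).1)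
  have hcg : Nat.Coprime p (Nat.gcd d e) := hcd.coprime_dvd_right (Nat.gcd_dvd_left d e)
  rw [mu_mul hp hm hd, mu_mul hp hn he, Nat.gcd_mul_left, gg_mul h hcg, hce.gcd_mul_left_cancel d,
    Nat.gcd_comm d (p * e), hcd.gcd_mul_left_cancel e, Nat.gcd_comm e d]
  ring

lemma FF_one (h : ℤ) {n : ℕ} (hn : Squarefree n) : FF h 1 n = if 1 = n then 1 else 0 := by
  split_ifs with h1
  · subst h1
    simp [FF, gg_one]
  · obtain ⟨p, hp, k, rfl⟩ : ∃ p, p.Prime ∧ p ∣ n := by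
      obtain ⟨p, hp, hpn⟩ := Nat.exists_prime_and_dvd (Ne.symm h1)
      exact ⟨p, hp, hpn⟩
    have hk : ¬ p ∣ k := by
      intro hk
      have h3 := (Nat.squarefree_mul_iff.1 hn).1
      exact (Nat.Prime.coprime_iff_not_dvd hp).1 h3 hk
    have hk0 : k ≠ 0 := by
      rintro rfl
      exact hn.ne_zero (mul_zero p)
    rw [FF_comm]
    exact FF_ne hp hk hk0 (fun h => hp.one_lt.ne' (Nat.dvd_one.1 h))

lemma cc_mul {h : ℤ} {p m : ℕ} (hp : p.Prime) (hm : ¬ p ∣ m) (hm0 : m ≠ 0) :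
    cc h (p * m) = (gg h p - 1) * cc h m := by
  classical
  unfold cc
  have hc : Nat.Coprime p m := (Nat.Prime.coprime_iff_not_dvd hp).2 hm
  rw [hc.primeFactors_mul, hp.primeFactors, prod_union (by
    rw [disjoint_singleton_left]
    intro h
    exact hm (Nat.dvd_of_mem_primeFactors h)), prod_singleton]
  congr 1
  unfold gg
  by_cases h1 : (p : ℤ) ∣ h
  · rw [if_pos h1, if_pos h1]
  · rw [if_neg h1, if_neg h1]
    ring

lemma FF_eq (h : ℤ) (m : ℕ) : ∀ n : ℕ, Squarefree m → Squarefree n →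
    FF h m n = if m = n then cc h m else 0 := by
  induction m using Nat.strong_induction_on with
  | _ m ih =>
    intro n hm hn
    by_cases hm1 : m = 1
    · subst hm1
      rw [FF_one h hn]
      unfold cc
      simp
    obtain ⟨p, hp, hpm⟩ := Nat.exists_prime_and_dvd hm1
    obtain ⟨k, rfl⟩ := hpm
    have hk : ¬ p ∣ k := by
      intro hk
      exact (Nat.Prime.coprime_iff_not_dvd hp).1 (Nat.squarefree_mul_iff.1 hm).1 hk
    have hk0 : k ≠ 0 := by
      rintro rfl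
      exact hm.ne_zero (mul_zero p)
    have hks : Squarefree k := (Nat.squarefree_mul_iff.1 hm).2.2
    by_cases hpn : p ∣ n
    · obtain ⟨l, rfl⟩ := hpn
      have hl : ¬ p ∣ l := by
        intro hl
        exact (Nat.Prime.coprime_iff_not_dvd hp).1 (Nat.squarefree_mul_iff.1 hn).1 hl
      have hl0 : l ≠ 0 := by
        rintro rfl
        exact hn.ne_zero (mul_zero p)
      have hls : Squarefree l := (Nat.squarefree_mul_iff.1 hn).2.2
      have hlt : k < p * k := by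
        have := hp.one_lt
        have hk1 : 0 < k := Nat.pos_of_ne_zero hk0
        nlinarith
      rw [FF_mul hp hk hk0 hl hl0, ih k hlt l hks hls, cc_mul hp hk hk0]
      by_cases hkl : k = l
      · rw [if_pos hkl, if_pos (by rw [hkl])]
      · rw [if_neg hkl, if_neg (fun h => hkl (Nat.eq_of_mul_eq_mul_left hp.pos h)), mul_zero]
    · rw [FF_ne hp hk hk0 hpn, if_neg]
      rintro rfl
      exact hpn (dvd_mul_right p k)

lemma filter_RR {z R m : ℕ} (hm : m ∈ RR z R) : (RR z R).filter (fun d => d ∣ m) = m.divisors := by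
  ext d
  rw [mem_filter, Nat.mem_divisors]
  constructor
  · rintro ⟨-, h⟩
    exact ⟨h, by
      have := (mem_RR.1 hm).1.1
      omega⟩
  · rintro ⟨h, -⟩
    exact ⟨RR_of_dvd hm h, h⟩

lemma term_eq {h : ℤ} {d e : ℕ} (hd : d ≠ 0) (he : e ≠ 0) (μd μe S T : ℝ) :
    (open scoped Classical in if ((Nat.gcd d e : ℕ) : ℤ) ∣ h then
        (μd * d * S) * (μe * e * T) / (Nat.lcm d e : ℝ) else 0) =
      μd * μe * gg h (Nat.gcd d e) * (S * T) := by
  unfold gg
  have h1 : ((Nat.gcd d e : ℕ) : ℝ) * (Nat.lcm d e : ℝ) = (d : ℝ) * e := by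
    exact_mod_cast Nat.gcd_mul_lcm d e
  have h2 : ((Nat.lcm d e : ℕ) : ℝ) ≠ 0 := by
    exact_mod_cast Nat.lcm_ne_zero hd he
  by_cases h3 : ((Nat.gcd d e : ℕ) : ℤ) ∣ h
  · rw [if_pos h3, if_pos h3, div_eq_iff h2]
    linear_combination (-(μd * μe * S * T)) * h1
  · rw [if_neg h3, if_neg h3]
    ring

end QuadAux

open scoped Classical in
open QuadAux in
theorem quad_id (z R : ℕ) (h : ℤ) :
    ∑ d ∈ RR z R, ∑ e ∈ RR z R, (if ((Nat.gcd d e : ℕ) : ℤ) ∣ h then
        lamd z R d * lamd z R e / (Nat.lcm d e : ℝ) else 0) = SR z R h := by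
  have hpos : ∀ d ∈ RR z R, d ≠ 0 := fun d hd => by
    have := (mem_RR.1 hd).1.1
    omega
  have h1 : ∑ d ∈ RR z R, ∑ e ∈ RR z R, (if ((Nat.gcd d e : ℕ) : ℤ) ∣ h then
        lamd z R d * lamd z R e / (Nat.lcm d e : ℝ) else 0) =
      ∑ d ∈ RR z R, ∑ e ∈ RR z R, ∑ m ∈ RR z R, ∑ n ∈ RR z R, (if d ∣ m ∧ e ∣ n then
        (1 / (m.totient : ℝ) * (1 / (n.totient : ℝ))) * ((ArithmeticFunction.moebius d : ℝ) *
          (ArithmeticFunction.moebius e : ℝ) * gg h (Nat.gcd d e)) else 0) := by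
    refine sum_congr rfl fun d hd => sum_congr rfl fun e he => ?_
    unfold lamd
    rw [term_eq (hpos d hd) (hpos e he), sum_mul_sum, mul_sum, sum_filter]
    refine sum_congr rfl fun m _ => ?_
    by_cases h2 : d ∣ m
    · rw [if_pos h2, mul_sum, sum_filter]
      refine sum_congr rfl fun n _ => ?_
      by_cases h3 : e ∣ n
      · rw [if_pos h3, if_pos ⟨h2, h3⟩]
        ring
      · rw [if_neg h3, if_neg (fun h => h3 h.2)]
    · rw [if_neg h2]
      symm
      exact sum_eq_zero fun n _ => if_neg (fun h => h2 h.1)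
  have h2 : ∑ d ∈ RR z R, ∑ e ∈ RR z R, ∑ m ∈ RR z R, ∑ n ∈ RR z R, (if d ∣ m ∧ e ∣ n then
        (1 / (m.totient : ℝ) * (1 / (n.totient : ℝ))) * ((ArithmeticFunction.moebius d : ℝ) *
          (ArithmeticFunction.moebius e : ℝ) * gg h (Nat.gcd d e)) else 0) =
      ∑ m ∈ RR z R, ∑ n ∈ RR z R, ∑ d ∈ RR z R, ∑ e ∈ RR z R, (if d ∣ m ∧ e ∣ n then
        (1 / (m.totient : ℝ) * (1 / (n.totient : ℝ))) * ((ArithmeticFunction.moebius d : ℝ) *
          (ArithmeticFunction.moebius e : ℝ) * gg h (Nat.gcd d e)) else 0) := by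
    have e1 : ∀ d ∈ RR z R, ∑ e ∈ RR z R, ∑ m ∈ RR z R, ∑ n ∈ RR z R, (if d ∣ m ∧ e ∣ n then
        (1 / (m.totient : ℝ) * (1 / (n.totient : ℝ))) * ((ArithmeticFunction.moebius d : ℝ) *
          (ArithmeticFunction.moebius e : ℝ) * gg h (Nat.gcd d e)) else 0) =
        ∑ m ∈ RR z R, ∑ n ∈ RR z R, ∑ e ∈ RR z R, (if d ∣ m ∧ e ∣ n then
        (1 / (m.totient : ℝ) * (1 / (n.totient : ℝ))) * ((ArithmeticFunction.moebius d : ℝ) *
          (ArithmeticFunction.moebius e : ℝ) * gg h (Nat.gcd d e)) else 0) := by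
      intro d _
      rw [sum_comm]
      refine sum_congr rfl fun m _ => ?_
      rw [sum_comm]
    rw [sum_congr rfl e1, sum_comm]
    refine sum_congr rfl fun m _ => ?_
    rw [sum_comm]
  rw [h1, h2]
  unfold SR
  refine sum_congr rfl fun m hm => ?_
  have h3 : ∀ n ∈ RR z R, ∑ d ∈ RR z R, ∑ e ∈ RR z R, (if d ∣ m ∧ e ∣ n then
        (1 / (m.totient : ℝ) * (1 / (n.totient : ℝ))) * ((ArithmeticFunction.moebius d : ℝ) *
          (ArithmeticFunction.moebius e : ℝ) * gg h (Nat.gcd d e)) else 0) =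
      if m = n then cc h m / (m.totient : ℝ) ^ 2 else 0 := by
    intro n hn
    have h4 : ∑ d ∈ RR z R, ∑ e ∈ RR z R, (if d ∣ m ∧ e ∣ n then
        (1 / (m.totient : ℝ) * (1 / (n.totient : ℝ))) * ((ArithmeticFunction.moebius d : ℝ) *
          (ArithmeticFunction.moebius e : ℝ) * gg h (Nat.gcd d e)) else 0) =
        (1 / (m.totient : ℝ) * (1 / (n.totient : ℝ))) * FF h m n := by
      unfold FF
      rw [← filter_RR hm, ← filter_RR hn, mul_sum, sum_filter]
      refine sum_congr rfl fun d _ => ?_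
      by_cases h5 : d ∣ m
      · rw [if_pos h5, mul_sum, sum_filter]
        refine sum_congr rfl fun e _ => ?_
        by_cases h6 : e ∣ n
        · rw [if_pos h6, if_pos ⟨h5, h6⟩]
        · rw [if_neg h6, if_neg (fun h => h6 h.2)]
      · rw [if_neg h5]
        exact sum_eq_zero fun e _ => if_neg (fun h => h5 h.1)
    rw [h4, FF_eq h m n (mem_RR.1 hm).2.1 (mem_RR.1 hn).2.1]
    by_cases h7 : m = n
    · subst h7
      rw [if_pos rfl, if_pos rfl]
      ring
    · rw [if_neg h7, if_neg h7, mul_zero]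
  rw [sum_congr rfl h3, sum_ite_eq, if_pos hm]

end Pool.Agent.EV2
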