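import Pool.Agent.Lib.EV2.HitN
import Pool.Agent.Lib.EV2.Quad
import Pool.Agent.Lib.HLB.PosDef

/-!
MODULE EV2.Diag (1.2 h).  The square of the model, exact main term.

PROOF.  ∏_i ic z (n + t i) = ∏_{p ≤ z} (1 - h_p(n)), h_p(n) = 1 if some i has p ∣ n + t i, else 0
(`prod_ic`, `mem_OmI` in HLB/PosDef.lean) = ∑_{s ⊆ primesLE z} (-1)^|s| ∏_{p ∈ s} h_p(n)
(`Finset.prod_one_sub_ordered` / `Finset.prod_sub` / `prod_add`).  Expanding lamS twice the left side is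
∑_{d,e ∈ RR} lamd d lamd e ∑_s (-1)^|s| #{n ≤ x : d ∣ n + t 0, e ∣ n + t 1, all p ∈ s hit}.
`hitN` (elements of RR are coprime to the p ≤ z): the main terms sum to
x ∑_{d,e} [gcd(d,e) ∣ t 0 - t 1] lamd d lamd e/lcm(d,e) ∑_s (-1)^|s| ∏_{p ∈ s} ν_p/p
= x SR z R (t 0 - t 1) dd z t (`quad_id`), the errors to at most
(∑ |lamd d|)² ∑_s ∏_{p ∈ s} ν_p, and ν_p ≤ k+2 (`nuI_le`), ∑_s (k+2)^|s| = (k+3)^π(z).
-/

set_option autoImplicit false

open Finset

namespace Pool.Agent.EV2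

open Pool.Agent.HLB

namespace DiagAux

theorem prod_one_sub' {α : Type*} [DecidableEq α] (s : Finset α) (f : α → ℝ) :
    ∏ p ∈ s, (1 - f p) = ∑ u ∈ s.powerset, (-1) ^ u.card * ∏ p ∈ u, f p := by
  rw [prod_sub]
  refine sum_congr rfl fun u _ => ?_
  rw [prod_const_one]
  ring

open scoped Classical in
theorem ic_expand {ι : Type} [Fintype ι] (z : ℕ) (t : ι → ℕ) (n : ℕ) :
    ∏ i, ic z (n + t i) = ∑ s ∈ (Nat.primesLE z).powerset, (-1) ^ s.card *
      (if ∀ p ∈ s, ∃ i, p ∣ n + t i then (1 : ℝ) else 0) := by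
  rw [prod_ic]
  have h1 : ∏ p ∈ Nat.primesLE z, (if (n % p) ∈ OmI t p then (0:ℝ) else 1) =
      ∏ p ∈ Nat.primesLE z, (1 - (if ∃ i, p ∣ n + t i then (1 : ℝ) else 0)) := by
    refine prod_congr rfl fun p hp => ?_
    by_cases h : ∃ i, p ∣ n + t i
    · rw [if_pos ((mem_OmI t p (Nat.mem_primesLE.1 hp).2 n).2 h), if_pos h, sub_self]
    · rw [if_neg (fun h' => h ((mem_OmI t p (Nat.mem_primesLE.1 hp).2 n).1 h')), if_neg h, sub_zero]
  rw [h1, prod_one_sub']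
  refine sum_congr rfl fun s _ => ?_
  rw [prod_boole]

end DiagAux

open DiagAux

open scoped Classical in
theorem diag_expand (k z R x : ℕ) (t : Fin (k + 2) → ℕ) :
    ∑ n ∈ Icc 1 x, (∏ i, ic z (n + t i)) * (lamS z R (n + t 0) * lamS z R (n + t 1)) =
      ∑ d ∈ RR z R, ∑ e ∈ RR z R, ∑ s ∈ (Nat.primesLE z).powerset,
        lamd z R d * lamd z R e * (-1) ^ s.card *
        (((Icc 1 x).filter (fun n => d ∣ n + t 0 ∧ e ∣ n + t 1 ∧ ∀ p ∈ s, ∃ i, p ∣ n + t i)).card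
          : ℝ) := by
  have h1 : ∀ n, (∏ i, ic z (n + t i)) * (lamS z R (n + t 0) * lamS z R (n + t 1)) =
      ∑ d ∈ RR z R, ∑ e ∈ RR z R, ∑ s ∈ (Nat.primesLE z).powerset,
        lamd z R d * lamd z R e * (-1) ^ s.card *
        (if d ∣ n + t 0 ∧ e ∣ n + t 1 ∧ ∀ p ∈ s, ∃ i, p ∣ n + t i then (1 : ℝ) else 0) := by
    intro n
    rw [ic_expand]
    unfold lamS
    rw [sum_filter, sum_filter, sum_mul_sum, mul_sum]
    refine sum_congr rfl fun d _ => ?_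
    rw [mul_sum]
    refine sum_congr rfl fun e _ => ?_
    rw [sum_mul]
    refine sum_congr rfl fun s _ => ?_
    by_cases hd : d ∣ n + t 0
    · by_cases he : e ∣ n + t 1
      · by_cases hs : ∀ p ∈ s, ∃ i, p ∣ n + t i
        · rw [if_pos hs, if_pos hd, if_pos he, if_pos ⟨hd, he, hs⟩]
          ring
        · have hn : ¬ (d ∣ n + t 0 ∧ e ∣ n + t 1 ∧ ∀ p ∈ s, ∃ i, p ∣ n + t i) :=
            fun h => hs h.2.2
          rw [if_neg hs, if_neg hn]
          ring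
      · have hn : ¬ (d ∣ n + t 0 ∧ e ∣ n + t 1 ∧ ∀ p ∈ s, ∃ i, p ∣ n + t i) :=
          fun h => he h.2.1
        rw [if_neg he, if_neg hn]
        ring
    · have hn : ¬ (d ∣ n + t 0 ∧ e ∣ n + t 1 ∧ ∀ p ∈ s, ∃ i, p ∣ n + t i) := fun h => hd h.1
      rw [if_neg hd, if_neg hn]
      ring
  rw [sum_congr rfl fun n _ => h1 n, sum_comm]
  refine sum_congr rfl fun d _ => ?_
  rw [sum_comm]
  refine sum_congr rfl fun e _ => ?_
  rw [sum_comm]
  refine sum_congr rfl fun s _ => ?_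
  rw [← mul_sum, sum_boole]

theorem diag (k z R x : ℕ) (t : Fin (k + 2) → ℕ) :
    ∑ n ∈ Icc 1 x, (∏ i, ic z (n + t i)) * (lamS z R (n + t 0) * lamS z R (n + t 1)) ≤
      x * dd z t * SR z R ((t 0 : ℤ) - t 1) +
        ((k : ℝ) + 3) ^ (Nat.primesLE z).card * (∑ d ∈ RR z R, |lamd z R d|) ^ 2 := by
  classical
  rw [diag_expand]
  -- the main term
  have hmain : x * dd z t * SR z R ((t 0 : ℤ) - t 1) =
      ∑ d ∈ RR z R, ∑ e ∈ RR z R, ∑ s ∈ (Nat.primesLE z).powerset,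
        lamd z R d * lamd z R e * (-1) ^ s.card *
        (if ((Nat.gcd d e : ℕ) : ℤ) ∣ (t 0 : ℤ) - t 1 then
          (x : ℝ) / (Nat.lcm d e : ℝ) * ∏ p ∈ s, (nuI t p : ℝ) / p else 0) := by
    rw [← quad_id, dd, prod_one_sub', mul_sum]
    refine sum_congr rfl fun d _ => ?_
    rw [mul_sum]
    refine sum_congr rfl fun e _ => ?_
    rw [mul_sum, sum_mul]
    refine sum_congr rfl fun s _ => ?_
    split_ifs
    · ring
    · ring
  have herr : ((k : ℝ) + 3) ^ (Nat.primesLE z).card * (∑ d ∈ RR z R, |lamd z R d|) ^ 2 ≥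
      ∑ d ∈ RR z R, ∑ e ∈ RR z R, ∑ s ∈ (Nat.primesLE z).powerset,
        |lamd z R d| * |lamd z R e| * ∏ p ∈ s, (nuI t p : ℝ) := by
    have h1 : ∑ d ∈ RR z R, ∑ e ∈ RR z R, ∑ s ∈ (Nat.primesLE z).powerset,
        |lamd z R d| * |lamd z R e| * ∏ p ∈ s, (nuI t p : ℝ) =
        (∑ s ∈ (Nat.primesLE z).powerset, ∏ p ∈ s, (nuI t p : ℝ)) *
          (∑ d ∈ RR z R, |lamd z R d|) ^ 2 := by
      rw [sq, sum_mul_sum, mul_sum]
      refine sum_congr rfl fun d _ => ?_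
      rw [mul_sum]
      refine sum_congr rfl fun e _ => ?_
      rw [sum_mul]
      refine sum_congr rfl fun s _ => ?_
      ring
    rw [h1]
    refine mul_le_mul_of_nonneg_right ?_ (sq_nonneg _)
    rw [← prod_one_add]
    refine (prod_le_prod (fun p _ => by positivity) (fun p _ => ?_)).trans
      (prod_const ((k : ℝ) + 3)).le
    have h2 := nuI_le t p
    rw [Fintype.card_fin] at h2
    have h3 : (nuI t p : ℝ) ≤ ((k + 2 : ℕ) : ℝ) := by exact_mod_cast h2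
    push_cast at h3
    linarith
  rw [hmain]
  refine le_trans ?_ (add_le_add_right herr _)
  simp only [← sum_add_distrib]
  refine sum_le_sum fun d hd => sum_le_sum fun e he => sum_le_sum fun s hs => ?_
  have hd' := mem_RR.1 hd
  have he' := mem_RR.1 he
  have h := hitN t x d e (t 0) (t 1) hd'.1.1 he'.1.1 s (fun p hp => by
    have hp' := mem_powerset.1 hs hp
    exact ⟨(Nat.mem_primesLE.1 hp').2, hd'.2.2 p hp', he'.2.2 p hp'⟩)
  set c : ℝ := (((Icc 1 x).filter (fun n => d ∣ n + t 0 ∧ e ∣ n + t 1 ∧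
    ∀ p ∈ s, ∃ i, p ∣ n + t i)).card : ℝ)
  set m : ℝ := if ((Nat.gcd d e : ℕ) : ℤ) ∣ (t 0 : ℤ) - t 1 then
        (x : ℝ) / (Nat.lcm d e : ℝ) * ∏ p ∈ s, (nuI t p : ℝ) / p else 0
  have h1 : lamd z R d * lamd z R e * (-1) ^ s.card * (c - m) ≤
      |lamd z R d| * |lamd z R e| * ∏ p ∈ s, (nuI t p : ℝ) := by
    refine (le_abs_self _).trans ?_
    rw [abs_mul, abs_mul, abs_mul, abs_pow, abs_neg, abs_one, one_pow, mul_one]
    exact mul_le_mul_of_nonneg_left h (by positivity)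
  have h2 : lamd z R d * lamd z R e * (-1) ^ s.card * c =
      lamd z R d * lamd z R e * (-1) ^ s.card * (c - m) +
        lamd z R d * lamd z R e * (-1) ^ s.card * m := by ring
  rw [h2]
  linarith

end Pool.Agent.EV2
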