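import Pool.Agent.Lib.EV2.Diag
import Pool.Agent.Lib.EV2.PiS
import Pool.Agent.Lib.EV2.LamB

/-!
MODULE EV2.DiagAs (0.6 h).  The square of the model, asymptotic form.

PROOF.  `diag`; (k+3)^π(z) ≤ x^(η/2) (`pow_card_le`), ∑_{d ∈ RR} |lamd| ≤ R C (1 + log x)²
(`lam_bound`, log R ≤ log x), R² ≤ x^(1-2η): the error is ≤ C² x^(1-3η/2) (1 + log x)⁴ ≤ x/(log x)^M.
-/

set_option autoImplicit false

open Finset Filter

namespace Pool.Agent.EV2

open Pool.Agent.HLB

theorem DiagAsAux.num (C η : ℝ) (hη : 0 < η) (M : ℕ) : ∀ᶠ x : ℕ in atTop,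
    C ^ 2 * (1 + Real.log x) ^ 4 * Real.log x ^ M ≤ (x : ℝ) ^ η := by
  have h1 : (fun x : ℝ => C ^ 2 * (1 + Real.log x) ^ 4 * Real.log x ^ M) =o[atTop]
      fun x : ℝ => x ^ η := by
    have h2 : (fun x : ℝ => Real.log x) =o[atTop] fun x : ℝ => x ^ (η / (4 + M + 1)) :=
      isLittleO_log_rpow_atTop (by positivity)
    have h3 : (fun x : ℝ => 1 + Real.log x) =o[atTop] fun x : ℝ => x ^ (η / (4 + M + 1)) := by
      refine Asymptotics.IsLittleO.add ?_ h2
      exact Asymptotics.isLittleO_const_left.2 (Or.inr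
        (tendsto_norm_atTop_atTop.comp (tendsto_rpow_atTop (by positivity))))
    have h4 : (fun x : ℝ => C ^ 2 * (1 + Real.log x) ^ 4 * Real.log x ^ M) =o[atTop]
        fun x : ℝ => (x ^ (η / (4 + M + 1))) ^ 4 * (x ^ (η / (4 + M + 1))) ^ M := by
      have h5 := (h3.pow (n := 4) (by norm_num)).mul_isBigO
        (Asymptotics.IsBigO.pow h2.isBigO M)
      have h6 := h5.const_mul_left (C ^ 2)
      refine h6.congr_left fun x => ?_
      ring
    refine h4.trans_isBigO ?_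
    refine Asymptotics.IsBigO.of_bound 1 ?_
    filter_upwards [eventually_ge_atTop (1 : ℝ)] with x hx
    have hx0 : (0 : ℝ) < x := by linarith
    rw [← pow_add, ← Real.rpow_natCast, ← Real.rpow_mul hx0.le, one_mul, Real.norm_of_nonneg
      (by positivity), Real.norm_of_nonneg (by positivity)]
    refine Real.rpow_le_rpow_of_exponent_le hx ?_
    push_cast
    rw [div_mul_eq_mul_div, div_le_iff₀ (by positivity)]
    nlinarith
  have h2 := (h1.bound one_pos).natCast_atTop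
  filter_upwards [h2, eventually_ge_atTop 1] with x hx hx1
  have hx0 : (0 : ℝ) < x := by exact_mod_cast hx1
  rw [one_mul, Real.norm_of_nonneg (r := (x : ℝ) ^ η) (by positivity)] at hx
  exact (le_abs_self _).trans hx

theorem diag_as (r k M : ℕ) {η : ℝ} (hη : 0 < η) (hη1 : η ≤ 1 / 4) : ∀ᶠ x : ℕ in atTop,
    ∀ R : ℕ, 1 ≤ R → (R : ℝ) ≤ (x : ℝ) ^ (1 / 2 - η) → ∀ t : Fin (k + 2) → ℕ,
    ∑ n ∈ Icc 1 x, (∏ i, ic (zz r x) (n + t i)) *
        (lamS (zz r x) R (n + t 0) * lamS (zz r x) R (n + t 1)) ≤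
      x * dd (zz r x) t * SR (zz r x) R ((t 0 : ℤ) - t 1) + x / Real.log x ^ M := by
  obtain ⟨C, hC1, hC⟩ := lam_bound
  have hη2 : (0 : ℝ) < η := hη
  filter_upwards [pow_card_le (k + 3) r hη2, DiagAsAux.num C η hη M, eventually_ge_atTop 3]
    with x h1 h2 hx3 R hR hRx t
  have hx0 : (0 : ℝ) < x := by
    have : 0 < x := by omega
    exact_mod_cast this
  have hx1 : (1 : ℝ) ≤ x := by
    have : 1 ≤ x := by omega
    exact_mod_cast this
  have hlog : 1 ≤ Real.log x := by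
    rw [Real.le_log_iff_exp_le hx0]
    have h3 : (3 : ℝ) ≤ x := by exact_mod_cast hx3
    have := Real.exp_one_lt_d9
    linarith
  refine (diag k (zz r x) R x t).trans ?_
  have hR0 : (0 : ℝ) < R := by exact_mod_cast hR
  have hlR : Real.log R ≤ Real.log x := by
    apply Real.log_le_log hR0
    refine hRx.trans ?_
    calc (x : ℝ) ^ (1 / 2 - η) ≤ (x : ℝ) ^ (1 : ℝ) :=
          Real.rpow_le_rpow_of_exponent_le hx1 (by linarith)
      _ = x := Real.rpow_one _
  have hlR0 : 0 ≤ Real.log R := Real.log_nonneg (by exact_mod_cast hR)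
  have hcard : ((RR (zz r x) R).card : ℝ) ≤ R := by
    have : (RR (zz r x) R).card ≤ (Icc 1 R).card := card_le_card fun d hd => by
      rw [mem_RR] at hd
      exact mem_Icc.2 hd.1
    rw [Nat.card_Icc, Nat.add_sub_cancel] at this
    exact_mod_cast this
  have hsum : ∑ d ∈ RR (zz r x) R, |lamd (zz r x) R d| ≤ R * (C * (1 + Real.log x) ^ 2) := by
    calc ∑ d ∈ RR (zz r x) R, |lamd (zz r x) R d| ≤
        ∑ _d ∈ RR (zz r x) R, C * (1 + Real.log x) ^ 2 := by
          refine sum_le_sum fun d _ => (hC (zz r x) R d hR).trans ?_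
          gcongr
      _ = (RR (zz r x) R).card * (C * (1 + Real.log x) ^ 2) := by
          rw [sum_const, nsmul_eq_mul]
      _ ≤ R * (C * (1 + Real.log x) ^ 2) := by gcongr
  have hsum0 : 0 ≤ ∑ d ∈ RR (zz r x) R, |lamd (zz r x) R d| := sum_nonneg fun _ _ => abs_nonneg _
  have hRR : (R : ℝ) ^ 2 ≤ (x : ℝ) ^ (1 - 2 * η) := by
    calc (R : ℝ) ^ 2 ≤ ((x : ℝ) ^ (1 / 2 - η)) ^ 2 := by gcongr
      _ = (x : ℝ) ^ (1 - 2 * η) := by
          rw [← Real.rpow_natCast, ← Real.rpow_mul hx0.le]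
          congr 1
          push_cast
          ring
  refine add_le_add_right ?_ _
  have hk : ((k : ℝ) + 3) ^ (Nat.primesLE (zz r x)).card ≤ (x : ℝ) ^ η := by
    refine le_trans (le_of_eq ?_) h1
    push_cast
    rfl
  have hlM : 0 < Real.log x ^ M := by positivity
  rw [le_div_iff₀ hlM]
  calc ((k : ℝ) + 3) ^ (Nat.primesLE (zz r x)).card *
        (∑ d ∈ RR (zz r x) R, |lamd (zz r x) R d|) ^ 2 * Real.log x ^ M ≤
      (x : ℝ) ^ η * (R * (C * (1 + Real.log x) ^ 2)) ^ 2 * Real.log x ^ M := by gcongr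
    _ = (x : ℝ) ^ η * (R : ℝ) ^ 2 * (C ^ 2 * (1 + Real.log x) ^ 4 * Real.log x ^ M) := by ring
    _ ≤ (x : ℝ) ^ η * (x : ℝ) ^ (1 - 2 * η) * (x : ℝ) ^ η := by
        gcongr
    _ = x := by
        rw [← Real.rpow_add hx0, ← Real.rpow_add hx0]
        rw [show η + (1 - 2 * η) + η = 1 by ring, Real.rpow_one]

end Pool.Agent.EV2
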