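import Pool.Agent.Lib.EV2.Sharp
import Pool.Agent.Lib.MQ.Final

/-!
# Every set of shifts, with the Bombieri-Davenport factor: assembly

`every_set2` is `every_set` (Lib/MQ/Final.lean) with `gprod` in place of `fprod`.
-/

set_option autoImplicit false

open Finset Filter

namespace Pool.Agent.EV2

open Pool.Agent.HL Pool.Agent.HLB Pool.Agent.HLD Pool.Agent.Lib.Sieve4 Pool.Agent.Lib.MP
open Pool.Agent.Lib.MQ hiding fprod

lemma gprod_eq_zero {r : ℕ} (hr : 2 ≤ r) {l : ℝ} (hl0 : 0 < l) (hl : l < 1 / 2) : gprod r l = 0 := by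
  unfold gprod
  refine Finset.prod_eq_zero (Finset.mem_range.mpr (by omega : 0 < r - 1)) ?_
  apply max_eq_left
  have : 1 < 1 / (2 * l) := by rw [lt_div_iff₀ (by positivity)]; linarith
  push_cast
  have e : (2 * (0:ℝ) + 1) / (2 * l) = 1 / (2 * l) := by norm_num
  rw [e]
  linarith

theorem every_set2 : ∃ B : ℕ, ∀ r : ℕ, 2 ≤ r → ∃ (k₀ : ℕ) (c K : ℝ), 1 ≤ k₀ ∧ 0 < c ∧ 0 < K ∧
    (∀ a : Fin r → ℕ, Function.Injective a → (∀ p : ℕ, p.Prime → nuI a p < p) → ∀ x : ℕ, 2 ≤ x →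
      (cnt a x : ℝ) ≤ K * SI a * (x / Real.log x ^ r)) ∧
    (∀ ε ρ : ℝ, 0 < ε → 0 ≤ ρ → ρ < 1 → ∀ K₀ : ℕ, ∀ᶠ x : ℕ in atTop, ∀ A : Finset ℕ,
      (∀ a ∈ A, (a : ℝ) ≤ x * Real.log x ^ K₀) → k₀ ≤ A.card →
      ∀ Φ : ℝ, Φ = max (gprod r (A.card / Real.log x) - ε)
        (c * (min 1 (A.card / Real.log x)) ^ (B ^ r)) →
      Φ * (x / Real.log x ^ r) * (∑ a ∈ injTuples r A, SI a) ≤
        ∑ a ∈ injTuples r A, (cnt a x : ℝ) ∧
      Φ * (x / Real.log x ^ r) * (A.card : ℝ) ^ r ≤ ∑ a ∈ injTuples r A, (cnt a x : ℝ) ∧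
      c * (1 - ρ) * (A.card : ℝ) ^ r ≤ ∑ a ∈ goodSet r x A (ρ * Φ), SI a ∧
      c * (1 - ρ) * ((min 1 (A.card / Real.log x)) ^ r * ∑ a ∈ injTuples r A, SI a) ≤
        ∑ a ∈ goodSet r x A (ρ * Φ), SI a) ∧
    (∀ X : ℕ → ℕ, Tendsto X atTop atTop → ∃ φ : ℕ → ℕ, StrictMono φ ∧ ∀ A : Finset ℕ,
      k₀ ≤ A.card → ∃ G ⊆ injTuples r A, c * (A.card : ℝ) ^ r ≤ G.card ∧
      (∀ a ∈ G, ∀ p : ℕ, p.Prime → nuI a p < p) ∧ ∀ᶠ j : ℕ in atTop, ∀ a ∈ G,
        c * (A.card / Real.log (X (φ j))) ^ (B ^ r) * SI a * (X (φ j) / Real.log (X (φ j)) ^ r) ≤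
          cnt a (X (φ j))) := by
  classical
  obtain ⟨B, hB⟩ := good_many
  refine ⟨B, fun r hr => ?_⟩
  obtain ⟨K, hK, hKup⟩ := tuple_upperI r (by omega)
  obtain ⟨C₃, c₁, hC₃, hc₁, hone⟩ := case_one2 r hr
  obtain ⟨k₀, m, cg, δ₁, hm, hcg, hδ₁, htwo⟩ := hB r hr C₃ hC₃
  have hc00 : 0 < c0 r := c0_pos r (by omega)
  obtain ⟨cΦ, hcΦ⟩ : ∃ cΦ : ℝ, cΦ = min (cg / 2) (c₁ / 2) := ⟨_, rfl⟩
  have hcΦ0 : 0 < cΦ := by rw [hcΦ]; positivity
  have hcΦg : cΦ ≤ cg / 2 := by rw [hcΦ]; exact min_le_left _ _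
  have hcΦ1 : cΦ ≤ c₁ / 2 := by rw [hcΦ]; exact min_le_right _ _
  obtain ⟨cΨ, hcΨ⟩ : ∃ cΨ : ℝ, cΨ = cΦ * (1 / 2) ^ (B ^ r) := ⟨_, rfl⟩
  have hcΨ0 : 0 < cΨ := by rw [hcΨ]; positivity
  have hcΨΦ : cΨ ≤ cΦ := by
    rw [hcΨ]
    exact mul_le_of_le_one_right hcΦ0.le (pow_le_one₀ (by norm_num) (by norm_num))
  obtain ⟨c, hc⟩ : ∃ c : ℝ, c = min (min cΦ (cΨ / (2 * K)))
    (min (min (c0 r * δ₁) δ₁) (c0 r * δ₁ / (2 * C₃))) := ⟨_, rfl⟩
  have hc0 : 0 < c := by rw [hc]; positivity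
  have hca : c ≤ cΦ := by rw [hc]; exact (min_le_left _ _).trans (min_le_left _ _)
  have hcb : c ≤ cΨ / (2 * K) := by rw [hc]; exact (min_le_left _ _).trans (min_le_right _ _)
  have hcc : c ≤ c0 r * δ₁ := by
    rw [hc]; exact (min_le_right _ _).trans ((min_le_left _ _).trans (min_le_left _ _))
  have hcd : c ≤ δ₁ := by
    rw [hc]; exact (min_le_right _ _).trans ((min_le_left _ _).trans (min_le_right _ _))
  have hce : c ≤ c0 r * δ₁ / (2 * C₃) := by
    rw [hc]; exact (min_le_right _ _).trans (min_le_right _ _)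
  have hup : ∀ a : Fin r → ℕ, Function.Injective a → (∀ p : ℕ, p.Prime → nuI a p < p) →
      ∀ x : ℕ, 2 ≤ x → (cnt a x : ℝ) ≤ K * SI a * (x / Real.log x ^ r) := by
    intro a ha hadm x hx
    exact hKup (Fin r) a (Fintype.card_fin r) ha hadm x hx
  refine ⟨max k₀ 1, c, K, le_max_right _ _, hc0, hK, hup, ?_, ?_⟩
  · -- all sets
    intro ε ρ hε hρ0 hρ1 K₀
    obtain ⟨ε₂, hε₂⟩ : ∃ ε₂ : ℝ, ε₂ = min (ε / 2) 1 := ⟨_, rfl⟩
    have hε₂0 : 0 < ε₂ := by rw [hε₂]; (clear * - hε; positivity)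
    have hε₂a : ε₂ ≤ ε / 2 := by rw [hε₂]; exact min_le_left _ _
    have hε₂b : ε₂ ≤ 1 := by rw [hε₂]; exact min_le_right _ _
    have hρ' : 0 < 1 - ρ := by linarith only [hρ1]
    filter_upwards [hone K₀, htwo K₀, sharp_lower2 r hr K₀ (ε := ε / 2) (by (clear * - hε; positivity)),
      sum_SI_le r (by omega) K₀ hε₂0,
      (tendsto_X r).eventually_ge_atTop (2 * r / ((1 - ρ) * cΨ)), eventually_ge_atTop 3]
      with x hx1 hx2 hx4 hx5 hx6 hx3 A hA hAk Φ hΦ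
    have hx3R : (3:ℝ) ≤ x := by exact_mod_cast hx3
    have hlog : 0 < Real.log x := Real.log_pos (by linarith only [hx3R])
    have hxpos : (0:ℝ) < x := by linarith only [hx3R]
    have hlr : 0 < Real.log x ^ r := by (clear * - hlog; positivity)
    have hk₀A : k₀ ≤ A.card := (le_max_left _ _).trans hAk
    have hA1 : 1 ≤ A.card := (le_max_right _ _).trans hAk
    have hAne : A.Nonempty := Finset.card_pos.mp (by omega)
    have hcard : (0:ℝ) < A.card := by exact_mod_cast hA1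
    set X : ℝ := (x:ℝ) / Real.log x ^ r with hX
    have hXpos : 0 < X := by (clear * - hx3 hlog; positivity)
    set l : ℝ := A.card / Real.log x with hl
    have hl0 : 0 < l := by (clear * - hcΦ hcΦ0 hcΦg hcΦ1 hc hc0 hca hcb hcc hcd hce hε₂ hε₂0 hε₂a hε₂b hx5 hlog hAne hx6 hΦ; positivity)
    set θ : ℝ := min 1 l with hθ
    have hθ0 : 0 < θ := lt_min one_pos hl0
    have hθ1 : θ ≤ 1 := min_le_left _ _
    have hθA : θ * Real.log x ≤ A.card := by
      calc θ * Real.log x ≤ l * Real.log x := mul_le_mul_of_nonneg_right (min_le_right _ _) hlog.le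
        _ = A.card := by rw [hl]; field_simp
    have hθM : θ ^ (B ^ r) ≤ 1 := pow_le_one₀ hθ0.le hθ1
    have hθMm : θ ^ (B ^ r) ≤ θ ^ m := pow_le_pow_of_le_one hθ0.le hθ1 hm
    have hθM0 : 0 < θ ^ (B ^ r) := by (clear * - hcΦ hcΦ0 hcΦg hcΦ1 hc hc0 hca hcb hcc hcd hce hε₂ hε₂0 hε₂a hε₂b hx5 hlog hAne hx6 hΦ; positivity)
    set G := GW r (zz r x) A (fun _ => 1) with hG
    set SS1 : ℝ := ∑ a ∈ injTuples r A, SI a with hSS1
    set CC : ℝ := ∑ a ∈ injTuples r A, (cnt a x : ℝ) with hCC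
    have hCC0 : 0 ≤ CC := Finset.sum_nonneg fun a _ => Nat.cast_nonneg _
    have hSS0 : 0 ≤ SS1 := Finset.sum_nonneg fun a ha => SI_nonneg a (mem_injTuples.mp ha).2
    have hpd : (A.card : ℝ) ^ r ≤ G := card_pow_le_GW r (zz r x) (by omega) A
    have hG0 : 0 ≤ G := le_trans (by (clear * - hcΦ hcΦ0 hcΦg hcΦ1 hc hc0 hca hcb hcc hcd hce hε₂ hε₂0 hε₂a hε₂b hx5 hAne hx6 hΦ; positivity)) hpd
    have h5 : SS1 ≤ (1 + ε₂) * G := hx5 A hA
    obtain ⟨M', hM'⟩ : ∃ M' : ℝ, M' = max SS1 ((A.card : ℝ) ^ r) := ⟨_, rfl⟩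
    have hM'S : SS1 ≤ M' := by rw [hM']; exact le_max_left _ _
    have hM'A : (A.card : ℝ) ^ r ≤ M' := by rw [hM']; exact le_max_right _ _
    have hM'0 : 0 ≤ M' := hSS0.trans hM'S
    have hM'G : M' ≤ (1 + ε₂) * G := by
      rw [hM']
      exact max_le h5 (hpd.trans (le_mul_of_one_le_left hG0 (by linarith only [hε₂0])))
    have hM'2 : M' ≤ 2 * G := hM'G.trans (mul_le_mul_of_nonneg_right (by linarith only [hε₂b]) hG0)
    have hXG0 : 0 ≤ X * G := by (clear * - hx3 hlog hG0; positivity)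
    -- total lower bound with the power of θ
    have htot : (2 * cΦ) * θ ^ (B ^ r) * (X * G) ≤ CC := by
      by_cases hcase : C₃ * x ≤ X * G
      · refine le_trans ?_ (hx1 A hA hcase)
        refine mul_le_mul_of_nonneg_right ?_ hXG0
        calc 2 * cΦ * θ ^ (B ^ r) ≤ 2 * cΦ * 1 := mul_le_mul_of_nonneg_left hθM (by linarith only [hcΦ0])
          _ ≤ c₁ := by linarith only [hcΦ1]
      · have hG3 : G ≤ C₃ * Real.log x ^ r := by
          push Not at hcase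
          have e : X * G = x * (G / Real.log x ^ r) := by rw [hX]; ring
          rw [e] at hcase
          have h6 : x * (G / Real.log x ^ r) ≤ x * C₃ := by linarith only [hcase]
          have h7 := le_of_mul_le_mul_left h6 hxpos
          rwa [div_le_iff₀ hlr] at h7
        refine le_trans ?_ (hx2 A hA hk₀A θ hθ0 hθ1 hθA hG3).2
        refine mul_le_mul_of_nonneg_right ?_ hXG0
        calc 2 * cΦ * θ ^ (B ^ r) ≤ cg * θ ^ (B ^ r) :=
              mul_le_mul_of_nonneg_right (by linarith only [hcΦg]) hθM0.le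
          _ ≤ cg * θ ^ m := mul_le_mul_of_nonneg_left hθMm hcg.le
    have hsharp : (gprod r l - ε / 2) * (X * G) ≤ CC := hx4 A hA hAne
    obtain ⟨Φ₁, hΦ₁⟩ : ∃ Φ₁ : ℝ, Φ₁ = max (gprod r l - ε) (cΦ * θ ^ (B ^ r)) := ⟨_, rfl⟩
    have hΦΦ₁ : Φ ≤ Φ₁ := by
      rw [hΦ, hΦ₁]
      exact max_le_max le_rfl (mul_le_mul_of_nonneg_right hca hθM0.le)
    have hΦ₁0 : 0 < Φ₁ := by
      rw [hΦ₁]
      exact lt_max_of_lt_right (by (clear * - hcΦ hcΦ0 hcΦg hcΦ1 hc hc0 hca hcb hcc hcd hce hε₂ hε₂0 hε₂a hε₂b hx5 hlog hAne hx6 hΦ h5 hM' hM'S hM'A hM'0 hM'G hM'2 htot hΦ₁ hΦΦ₁; positivity))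
    have hmain : Φ₁ * (X * M') ≤ CC := by
      have ha : (gprod r l - ε) * (X * M') ≤ CC := by
        rcases le_total (gprod r l - ε) 0 with h | h
        · exact (mul_nonpos_of_nonpos_of_nonneg h (by (clear * - hx3 hlog hM'0; positivity))).trans hCC0
        · refine le_trans ?_ hsharp
          have hf1 := gprod_le_one r hl0
          have h6 : (gprod r l - ε) * M' ≤ (gprod r l - ε / 2) * G := by
            calc (gprod r l - ε) * M' ≤ (gprod r l - ε) * ((1 + ε₂) * G) :=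
                  mul_le_mul_of_nonneg_left hM'G h
              _ = ((gprod r l - ε) * (1 + ε₂)) * G := by ring
              _ ≤ (gprod r l - ε / 2) * G := by
                  refine mul_le_mul_of_nonneg_right ?_ hG0
                  have h7 : (gprod r l - ε) * ε₂ ≤ 1 * ε₂ :=
                    mul_le_mul_of_nonneg_right (by linarith only [hε₂0, hε₂a, hf1]) hε₂0.le
                  have h8 : (gprod r l - ε) * (1 + ε₂) =
                    (gprod r l - ε) + (gprod r l - ε) * ε₂ := by ring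
                  rw [h8]
                  linarith only [hε₂a, h7]
          calc (gprod r l - ε) * (X * M') = X * ((gprod r l - ε) * M') := by ring
            _ ≤ X * ((gprod r l - ε / 2) * G) := mul_le_mul_of_nonneg_left h6 hXpos.le
            _ = _ := by ring
      have hb : (cΦ * θ ^ (B ^ r)) * (X * M') ≤ CC := by
        refine le_trans ?_ htot
        calc (cΦ * θ ^ (B ^ r)) * (X * M') ≤ (cΦ * θ ^ (B ^ r)) * (X * (2 * G)) := by gcongr
          _ = _ := by ring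
      rw [hΦ₁]
      rcases max_choice (gprod r l - ε) (cΦ * θ ^ (B ^ r)) with h | h
      · rw [h]; exact ha
      · rw [h]; exact hb
    have hΦ0 : 0 < Φ := by
      rw [hΦ]
      exact lt_max_of_lt_right (by (clear * - hcΦ hcΦ0 hcΦg hcΦ1 hc hc0 hca hcb hcc hcd hce hε₂ hε₂0 hε₂a hε₂b hx5 hlog hAne hx6 hΦ h5 hM' hM'S hM'A hM'0 hM'G hM'2 htot hΦ₁ hΦΦ₁ hΦ₁0 hmain; positivity))
    have hXM0 : 0 ≤ X * M' := by (clear * - hx3 hlog hM'0; positivity)
    refine ⟨?_, ?_, ?_⟩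
    · calc Φ * X * SS1 ≤ Φ * X * M' := by gcongr
        _ = Φ * (X * M') := by ring
        _ ≤ Φ₁ * (X * M') := mul_le_mul_of_nonneg_right hΦΦ₁ hXM0
        _ ≤ CC := hmain
    · calc Φ * X * (A.card : ℝ) ^ r ≤ Φ * X * M' := by gcongr
        _ = Φ * (X * M') := by ring
        _ ≤ Φ₁ * (X * M') := mul_le_mul_of_nonneg_right hΦΦ₁ hXM0
        _ ≤ CC := hmain
    -- the mass of the good tuples
    have hupA : ∀ a ∈ injTuples r A, (∀ p : ℕ, p.Prime → nuI a p < p) →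
        (cnt a x : ℝ) ≤ K * SI a * (x / Real.log x ^ r) := fun a ha hadm =>
      hup a (mem_injTuples.mp ha).2 hadm x (by omega)
    have hcaseA : ∀ Φ₂ : ℝ, cΨ ≤ Φ₂ → Φ ≤ Φ₂ → Φ₂ * (X * M') ≤ CC →
        c * (1 - ρ) * M' ≤ ∑ a ∈ goodSet r x A (ρ * Φ), SI a := by
      intro Φ₂ h1 h2 h3
      have hΦ₂0 : 0 < Φ₂ := lt_of_lt_of_le hcΨ0 h1
      have hbig : 2 * r ≤ (1 - ρ) * Φ₂ * (x / Real.log x ^ r) := by
        have h6 : 2 * r / ((1 - ρ) * cΨ) ≤ X := hx6
        rw [div_le_iff₀ (mul_pos hρ' hcΨ0)] at h6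
        calc (2 * r : ℝ) ≤ X * ((1 - ρ) * cΨ) := h6
          _ = (1 - ρ) * cΨ * X := by ring
          _ ≤ (1 - ρ) * Φ₂ * X := by gcongr
      have h7 := selberg_mass hK hρ0 h2 hΦ₂0 hXpos hupA hM'S hM'A h3 hbig
      refine le_trans (mul_le_mul_of_nonneg_right ?_ hM'0) h7
      calc c * (1 - ρ) ≤ cΨ / (2 * K) * (1 - ρ) := mul_le_mul_of_nonneg_right hcb hρ'.le
        _ ≤ Φ₂ / (2 * K) * (1 - ρ) := by gcongr
        _ = (1 - ρ) * Φ₂ / (2 * K) := by ring
    have hAconc : c * (1 - ρ) * M' ≤ ∑ a ∈ goodSet r x A (ρ * Φ), SI a →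
        c * (1 - ρ) * (A.card : ℝ) ^ r ≤ ∑ a ∈ goodSet r x A (ρ * Φ), SI a ∧
        c * (1 - ρ) * (θ ^ r * SS1) ≤ ∑ a ∈ goodSet r x A (ρ * Φ), SI a := by
      intro h1
      refine ⟨le_trans (mul_le_mul_of_nonneg_left hM'A (by (clear * - hc0 hρ1; positivity))) h1,
        le_trans (mul_le_mul_of_nonneg_left ?_ (by (clear * - hc0 hρ1; positivity))) h1⟩
      have h2 : θ ^ r ≤ 1 := pow_le_one₀ hθ0.le hθ1
      calc θ ^ r * SS1 ≤ 1 * SS1 := mul_le_mul_of_nonneg_right h2 hSS0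
        _ = SS1 := one_mul _
        _ ≤ M' := hM'S
    by_cases hl1 : 1 / 2 ≤ l
    · have hθe : 1 / 2 ≤ θ := le_min (by norm_num) hl1
      refine hAconc (hcaseA Φ₁ ?_ hΦΦ₁ hmain)
      rw [hΦ₁, hcΨ]
      exact (mul_le_mul_of_nonneg_left (pow_le_pow_left₀ (by norm_num) hθe _) hcΦ0.le).trans
        (le_max_right _ _)
    · push Not at hl1
      have hf0 : gprod r l = 0 := gprod_eq_zero hr hl0 hl1
      have hΦe : Φ = c * θ ^ (B ^ r) := by
        rw [hΦ, hf0]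
        apply max_eq_right
        have : 0 < c * θ ^ (B ^ r) := by (clear * - hcΦ hcΦ0 hcΦg hcΦ1 hc hc0 hca hcb hcc hcd hce hε₂ hε₂0 hε₂a hε₂b hx5 hlog hAne hx6 hΦ h5 hM' hM'S hM'A hM'0 hM'G hM'2 htot hΦ₁ hΦΦ₁ hΦ₁0 hmain hΦ0 hXM0 hcaseA hAconc; positivity)
        linarith only [hε₂0, hε₂a, this]
      by_cases hcase : C₃ * x ≤ X * G
      · refine hAconc (hcaseA (c₁ / 2) (hcΨΦ.trans hcΦ1) ?_ ?_)
        · rw [hΦe]
          calc c * θ ^ (B ^ r) ≤ c * 1 := mul_le_mul_of_nonneg_left hθM hc0.le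
            _ ≤ c₁ / 2 := by linarith only [hcΦ1, hca]
        · refine le_trans ?_ (hx1 A hA hcase)
          calc c₁ / 2 * (X * M') ≤ c₁ / 2 * (X * (2 * G)) := by gcongr
            _ = c₁ * (X * G) := by ring
      · have hG3 : G ≤ C₃ * Real.log x ^ r := by
          push Not at hcase
          have e : X * G = x * (G / Real.log x ^ r) := by rw [hX]; ring
          rw [e] at hcase
          have h6 : x * (G / Real.log x ^ r) ≤ x * C₃ := by linarith only [hcase]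
          have h7 := le_of_mul_le_mul_left h6 hxpos
          rwa [div_le_iff₀ hlr] at h7
        have h8 := (hx2 A hA hk₀A θ hθ0 hθ1 hθA hG3).1
        have hρΦ : ρ * Φ ≤ cg * θ ^ m := by
          calc ρ * Φ ≤ 1 * Φ := mul_le_mul_of_nonneg_right hρ1.le hΦ0.le
            _ = c * θ ^ (B ^ r) := by rw [one_mul, hΦe]
            _ ≤ cg * θ ^ m := by
                refine mul_le_mul ?_ hθMm hθM0.le hcg.le
                linarith only [hcΦ0, hcΦg, hca]
        have hsub : goodSet r x A (cg * θ ^ m) ⊆ goodSet r x A (ρ * Φ) :=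
          goodSet_mono hρΦ hXpos.le
        have h9 : (c0 r * δ₁) * (A.card : ℝ) ^ r ≤ ∑ a ∈ goodSet r x A (ρ * Φ), SI a := by
          have h10 : c0 r * ((goodSet r x A (ρ * Φ)).card : ℝ) ≤
              ∑ a ∈ goodSet r x A (ρ * Φ), SI a := by
            rw [mul_comm, ← nsmul_eq_mul]
            refine Finset.card_nsmul_le_sum _ _ _ fun a ha => ?_
            have hmem := mem_goodSet.mp ha
            have := c0_le_SI a (mem_injTuples.mp hmem.1).2
              (by rw [Fintype.card_fin]; omega) hmem.2.1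
            rwa [Fintype.card_fin] at this
          have h11 : ((goodSet r x A (cg * θ ^ m)).card : ℝ) ≤ (goodSet r x A (ρ * Φ)).card := by
            exact_mod_cast Finset.card_le_card hsub
          calc (c0 r * δ₁) * (A.card : ℝ) ^ r = c0 r * (δ₁ * (A.card : ℝ) ^ r) := by ring
            _ ≤ c0 r * ((goodSet r x A (ρ * Φ)).card : ℝ) :=
                mul_le_mul_of_nonneg_left (h8.trans h11) hc00.le
            _ ≤ _ := h10
        have hAr : 0 ≤ (A.card : ℝ) ^ r := by (clear * - hcΦ hcΦ0 hcΦg hcΦ1 hc hc0 hca hcb hcc hcd hce hε₂ hε₂0 hε₂a hε₂b hx5 hAne hx6 hΦ h5 hM' hM'S hM'A hM'0 hM'G hM'2 htot hΦ₁ hΦΦ₁ hΦ₁0 hmain hΦ0 hXM0 hcaseA hAconc hΦe hρΦ hsub h9; positivity)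
        constructor
        · refine le_trans (mul_le_mul_of_nonneg_right ?_ hAr) h9
          calc c * (1 - ρ) ≤ c * 1 := mul_le_mul_of_nonneg_left (by linarith only [hρ0]) hc0.le
            _ ≤ c0 r * δ₁ := by linarith only [hcc]
        · refine le_trans ?_ h9
          have h12 : θ ^ r * SS1 ≤ 2 * C₃ * (A.card : ℝ) ^ r := by
            calc θ ^ r * SS1 ≤ θ ^ r * (2 * (C₃ * Real.log x ^ r)) := by
                  refine mul_le_mul_of_nonneg_left ?_ (by (clear * - hcΦ hcΦ0 hcΦg hcΦ1 hc hc0 hca hcb hcc hcd hce hε₂ hε₂0 hε₂a hε₂b hx5 hlog hAne hx6 hΦ h5 hM' hM'S hM'A hM'0 hM'G hM'2 htot hΦ₁ hΦΦ₁ hΦ₁0 hmain hΦ0 hXM0 hcaseA hAconc hΦe hρΦ hsub h9; positivity))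
                  exact hM'S.trans (hM'2.trans (by linarith only [hG3]))
              _ = 2 * C₃ * (θ * Real.log x) ^ r := by rw [mul_pow]; ring
              _ ≤ 2 * C₃ * (A.card : ℝ) ^ r := by gcongr
          calc c * (1 - ρ) * (θ ^ r * SS1) ≤ c * (1 - ρ) * (2 * C₃ * (A.card : ℝ) ^ r) :=
                mul_le_mul_of_nonneg_left h12 (by (clear * - hc0 hρ1; positivity))
            _ ≤ c * 1 * (2 * C₃ * (A.card : ℝ) ^ r) := by
                refine mul_le_mul_of_nonneg_right ?_ (by (clear * - hC₃ hcΦ hcΦ0 hcΦg hcΦ1 hc hc0 hca hcb hcc hcd hce hε₂ hε₂0 hε₂a hε₂b hx5 hAne hx6 hΦ h5 hM' hM'S hM'A hM'0 hM'G hM'2 htot hΦ₁ hΦΦ₁ hΦ₁0 hmain hΦ0 hXM0 hcaseA hAconc hΦe hρΦ hsub h9; positivity))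
                exact mul_le_mul_of_nonneg_left (by linarith only [hρ0]) hc0.le
            _ = (c * (2 * C₃)) * (A.card : ℝ) ^ r := by ring
            _ ≤ (c0 r * δ₁) * (A.card : ℝ) ^ r := by
                refine mul_le_mul_of_nonneg_right ?_ hAr
                rwa [le_div_iff₀ (by (clear * - hC₃; positivity))] at hce
  · -- finite sets
    intro X hX
    obtain ⟨P, hP⟩ : ∃ P : Finset ℕ → Finset (Fin r → ℕ) → ℕ → Prop, P = fun (A : Finset ℕ)
      (G : Finset (Fin r → ℕ)) (x : ℕ) => c * (A.card : ℝ) ^ r ≤ G.card ∧ (∀ a ∈ G, ∀ p : ℕ, p.Prime → nuI a p < p) ∧ ∀ a ∈ G,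
        c * (A.card / Real.log x) ^ (B ^ r) * SI a * (x / Real.log x ^ r) ≤ cnt a x := ⟨_, rfl⟩
    have hlogT : Tendsto (fun x : ℕ => Real.log x) atTop atTop :=
      Real.tendsto_log_atTop.comp tendsto_natCast_atTop_atTop
    have hev : ∀ A : Finset ℕ, max k₀ 1 ≤ A.card →
        ∀ᶠ x : ℕ in atTop, ∃ G ∈ (injTuples r A).powerset, P A G x := by
      intro A hAk
      have hk₀A : k₀ ≤ A.card := (le_max_left _ _).trans hAk
      have hA1 : 1 ≤ A.card := (le_max_right _ _).trans hAk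
      have hcard : (0:ℝ) < A.card := by exact_mod_cast hA1
      filter_upwards [htwo 0, fixed_GW r (by omega) A hC₃, hlogT.eventually_ge_atTop (A.card : ℝ),
        eventually_ge_atTop (A.sup id), eventually_ge_atTop 3] with x hx2 hxG hxl hxA hx3
      have hx3R : (3:ℝ) ≤ x := by exact_mod_cast hx3
      have hlog : 0 < Real.log x := Real.log_pos (by linarith only [hx3R])
      have hxpos : (0:ℝ) < x := by linarith only [hx3R]
      have hX0 : 0 ≤ (x:ℝ) / Real.log x ^ r := by (clear * - hx3 hlog; positivity)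
      have hκ1 : A.card / Real.log x ≤ 1 := by rw [div_le_one hlog]; exact hxl
      have hκ0 : 0 < A.card / Real.log x := by (clear * - hA1 hlog; positivity)
      have h8 := (hx2 A (fun a ha => by
        rw [pow_zero, mul_one]
        exact_mod_cast (Finset.le_sup (f := id) ha).trans hxA) hk₀A (A.card / Real.log x)
        hκ0 hκ1 (le_of_eq (by field_simp)) hxG).1
      rw [hP]
      refine ⟨goodSet r x A (cg * (A.card / Real.log x) ^ m), ?_, ?_, ?_, ?_⟩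
      · rw [Finset.mem_powerset]
        intro a ha
        exact (mem_goodSet.mp ha).1
      · exact le_trans (mul_le_mul_of_nonneg_right hcd (by (clear * - hA1; positivity))) h8
      · intro a ha
        exact (mem_goodSet.mp ha).2.1
      · intro a ha
        have hmem := mem_goodSet.mp ha
        have hSI0 := SI_nonneg a (mem_injTuples.mp hmem.1).2
        refine le_trans ?_ hmem.2.2
        refine mul_le_mul_of_nonneg_right (mul_le_mul_of_nonneg_right ?_ hSI0) hX0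
        refine mul_le_mul (by linarith only [hcΦ0, hcΦg, hca]) (pow_le_pow_of_le_one hκ0.le hκ1 hm) (by (clear * - hA1 hlog; positivity)) hcg.le
    obtain ⟨φ, hφ, hφA⟩ := exists_subseq (ι := {A : Finset ℕ // max k₀ 1 ≤ A.card})
      (fun A => (injTuples r A.1).powerset) (fun A G j => P A.1 G (X j))
      (fun A => hX.eventually (hev A.1 A.2))
    refine ⟨φ, hφ, fun A hAk => ?_⟩
    obtain ⟨G, hG, hGP⟩ := hφA ⟨A, hAk⟩
    rw [hP] at hGP
    obtain ⟨j, hj⟩ := hGP.exists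
    exact ⟨G, Finset.mem_powerset.mp hG, hj.1, hj.2.1, hGP.mono fun j hj => hj.2.2⟩

end Pool.Agent.EV2
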