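import Pool.Agent.Lib.EV2.Defs
import Pool.Agent.Lib.MQ.Sharp

/-!
MODULE EV2.GWm (0.8 h).  Monotonicity of the mean singular series.

PROOF.  W = ∏_{p ≤ z} p, X u = ∑_{a ∈ A} ic z (u + a)/DZ z ≥ 0.  For every i: ∑_{u < W} (X u)^i = W GW i z A 1:
expand the power over the tuples (`sum_pi_prod`, `Finset.prod_const`) and use `SZ_avg`
(HLB/PosDef.lean) for ι = Fin i; this is the first step of the proof of `posdef` there.  For i = 1,
∑_u X u = W |A| (locI = 1 for a single shift; also used in `posdef`).  Chebyshev's inequality `cheb`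
(MQ/Sharp.lean) with N = X, h = X^j, l = |A| (l W = ∑ X u): |A| ∑ X^j ≤ ∑ X · X^j.  Divide by W > 0.
-/

set_option autoImplicit false

open Finset

namespace Pool.Agent.EV2

open Pool.Agent.HLB

private lemma GW_pow (r z : ℕ) (A : Finset ℕ) :
    (∏ p ∈ Nat.primesLE z, (p : ℝ)) * GW r z A (fun _ => 1) =
      ∑ u ∈ range (∏ p ∈ Nat.primesLE z, p), (∑ a ∈ A, ic z (u + a) / DZ z) ^ r := by
  classical
  have hpow : ∀ u, (∑ a ∈ A, ic z (u + a) / DZ z) ^ r =
      ∑ a ∈ Fintype.piFinset (fun _ : Fin r => A), ∏ i, (ic z (u + a i) / DZ z) := by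
    intro u
    have h1 : (∑ a ∈ A, ic z (u + a) / DZ z) ^ r =
        ∏ _i : Fin r, ∑ a ∈ A, ic z (u + a) / DZ z := by simp
    rw [h1, Finset.prod_univ_sum]
  unfold GW
  simp_rw [hpow]
  rw [Finset.sum_comm, Finset.mul_sum]
  refine Finset.sum_congr rfl fun a _ => ?_
  rw [SZ_avg, Finset.prod_const_one, one_mul]

theorem GW_mono (j z : ℕ) (A : Finset ℕ) :
    (A.card : ℝ) * GW j z A (fun _ => 1) ≤ GW (j + 1) z A (fun _ => 1) := by
  classical
  set W : ℝ := ∏ p ∈ Nat.primesLE z, (p : ℝ) with hW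
  have hWpos : 0 < W := primorial_pos' z
  set X : ℕ → ℝ := fun u => ∑ a ∈ A, ic z (u + a) / DZ z with hX
  have hX0 : ∀ u, 0 ≤ X u := fun u => Finset.sum_nonneg fun a _ =>
    div_nonneg (ic_nonneg _ _) (DZ_pos z).le
  have hcardW : (((range (∏ p ∈ Nat.primesLE z, p)).card : ℕ) : ℝ) = W := by
    rw [card_range]; push_cast; rfl
  have hsumX : ∑ u ∈ range (∏ p ∈ Nat.primesLE z, p), X u = W * A.card := by
    simp only [hX]
    rw [Finset.sum_comm]
    simp_rw [ic_avg]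
    rw [Finset.sum_const, nsmul_eq_mul, mul_comm]
  have h1 := Pool.Agent.Lib.MQ.cheb (range (∏ p ∈ Nat.primesLE z, p)) X (fun u => X u ^ j) (A.card : ℝ)
    (fun n _ => pow_nonneg (hX0 n) _)
    (fun n _ m _ hnm => pow_le_pow_left₀ (hX0 n) hnm j)
    (by rw [hcardW, hsumX, mul_comm])
  have h2 : ∑ n ∈ range (∏ p ∈ Nat.primesLE z, p), X n * X n ^ j =
      W * GW (j + 1) z A (fun _ => 1) := by
    rw [hW, GW_pow]
    refine Finset.sum_congr rfl fun u _ => ?_
    rw [pow_succ']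
  have h3 : ∑ n ∈ range (∏ p ∈ Nat.primesLE z, p), X n ^ j = W * GW j z A (fun _ => 1) := by
    rw [hW, GW_pow]
  rw [h2, h3] at h1
  have h4 : W * ((A.card : ℝ) * GW j z A (fun _ => 1)) ≤ W * GW (j + 1) z A (fun _ => 1) := by
    calc _ = (A.card : ℝ) * (W * GW j z A (fun _ => 1)) := by ring
      _ ≤ _ := h1
  exact le_of_mul_le_mul_left h4 hWpos

end Pool.Agent.EV2
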