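import Pool.Agent.Lib.EV2.Defs
import Pool.Agent.Lib.MP.PreHits

/-!
MODULE EV2.HitN.  Integers in classes hit by a set of primes.

`generic` of Lib/MP/PreHits.lean with P = (d * e).primeFactors, A = Icc 1 x, f = 1,
Q n = (d ∣ n + a ∧ e ∣ n + b), K = x/lcm(d,e) if gcd(d,e) ∣ a - b and 0 otherwise, E = 1, W = 1, v = 0.
Base: for W ≥ 1 coprime to d e and v: if gcd(d,e) ∤ a - b no n satisfies Q (both sides 0); otherwise
Q n and n ≡ v mod W is one residue class modulo W lcm(d,e) and Icc 1 x contains x/(W lcm) + O(1) of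
its elements, error ≤ 1.
-/

set_option autoImplicit false

open Finset

namespace Pool.Agent.EV2

open Pool.Agent.HLB

namespace HitNaux

lemma count_class (x M c : ℕ) (hM : 0 < M) :
    |(((Finset.Ioc 0 x).filter (fun n => n ≡ c [MOD M])).card : ℝ) - (x:ℝ)/M| ≤ 1 := by
  have h := Nat.Ioc_filter_modEq_card 0 x hM c
  set K := ((Finset.Ioc 0 x).filter (fun n => n ≡ c [MOD M])).card with hK
  have hMq : (0:ℚ) < M := by exact_mod_cast hM
  set X : ℚ := ((x:ℚ) - c) / (M:ℚ) with hx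
  set y : ℚ := (((0 : ℕ):ℚ) - c) / (M:ℚ) with hy
  have hxy : X - y = (x:ℚ)/M := by
    rw [hx, hy, ← sub_div]
    congr 1
    push_cast
    ring
  have h1 := Int.floor_le X
  have h2 := Int.lt_floor_add_one X
  have h3 := Int.floor_le y
  have h4 := Int.lt_floor_add_one y
  have h5 : (K:ℤ) = max (⌊X⌋ - ⌊y⌋) 0 := h
  have h6 : (K:ℚ) = max ((⌊X⌋:ℚ) - ⌊y⌋) 0 := by
    have : ((K:ℤ):ℚ) = ((max (⌊X⌋ - ⌊y⌋) 0 : ℤ):ℚ) := by rw [h5]
    push_cast at this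
    exact this
  have hN : (0:ℚ) ≤ (x:ℚ)/M := by positivity
  have h7 : |(K:ℚ) - (x:ℚ)/M| ≤ 1 := by
    rw [h6, abs_le]
    constructor
    · have := le_max_left ((⌊X⌋:ℚ) - ⌊y⌋) 0
      linarith
    · have : max ((⌊X⌋:ℚ) - ⌊y⌋) 0 ≤ (x:ℚ)/M + 1 := max_le (by linarith) (by linarith)
      linarith
  have h8 : ((|(K:ℚ) - (x:ℚ)/M| : ℚ) : ℝ) ≤ ((1:ℚ):ℝ) := by exact_mod_cast h7
  push_cast at h8
  exact h8

lemma gcd_dvd_iff {d e a b n : ℕ} (h1 : d ∣ n + a) (h2 : e ∣ n + b) :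
    ((Nat.gcd d e : ℕ) : ℤ) ∣ (a : ℤ) - b := by
  have h3 : ((Nat.gcd d e : ℕ) : ℤ) ∣ ((n + a : ℕ) : ℤ) :=
    Int.natCast_dvd_natCast.2 ((Nat.gcd_dvd_left d e).trans h1)
  have h4 : ((Nat.gcd d e : ℕ) : ℤ) ∣ ((n + b : ℕ) : ℤ) :=
    Int.natCast_dvd_natCast.2 ((Nat.gcd_dvd_right d e).trans h2)
  have h5 := Int.dvd_sub h3 h4
  have h6 : ((n + a : ℕ) : ℤ) - ((n + b : ℕ) : ℤ) = (a : ℤ) - b := by push_cast; ring
  rwa [h6] at h5

lemma exists_class {d e a b : ℕ} (hd : 1 ≤ d) (he : 1 ≤ e)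
    (h : ((Nat.gcd d e : ℕ) : ℤ) ∣ (a : ℤ) - b) :
    ∃ c, ∀ n, (d ∣ n + a ∧ e ∣ n + b) ↔ n ≡ c [MOD Nat.lcm d e] := by
  have hcong : (d - 1) * a ≡ (e - 1) * b [MOD Nat.gcd d e] := by
    have h1 : (d - 1) * a + a ≡ (e - 1) * b + a [MOD Nat.gcd d e] := by
      have e1 : (d - 1) * a + a = d * a := by
        obtain ⟨m, rfl⟩ := Nat.exists_eq_add_of_le hd
        rw [Nat.add_sub_cancel_left]; ring
      have e2 : (e - 1) * b + b = e * b := by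
        obtain ⟨m, rfl⟩ := Nat.exists_eq_add_of_le he
        rw [Nat.add_sub_cancel_left]; ring
      have h2 : (d - 1) * a + a ≡ 0 [MOD Nat.gcd d e] := by
        rw [e1]
        exact (Nat.modEq_zero_iff_dvd).2 ((Nat.gcd_dvd_left d e).trans (dvd_mul_right d a))
      have h3 : (e - 1) * b + b ≡ 0 [MOD Nat.gcd d e] := by
        rw [e2]
        exact (Nat.modEq_zero_iff_dvd).2 ((Nat.gcd_dvd_right d e).trans (dvd_mul_right e b))
      have h4 : b ≡ a [MOD Nat.gcd d e] := (Nat.modEq_iff_dvd).2 h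
      exact h2.trans ((h4.add_left ((e - 1) * b)).symm.trans h3).symm
    exact Nat.ModEq.add_right_cancel' a h1
  obtain ⟨c, hc1, hc2⟩ := Nat.chineseRemainder' hcong
  refine ⟨c, fun n => ?_⟩
  rw [Pool.Agent.Lib.MT.Hits.dvd_iff d n a hd, Pool.Agent.Lib.MT.Hits.dvd_iff e n b he]
  constructor
  · rintro ⟨h1, h2⟩
    exact Nat.mod_lcm (h1.trans hc1.symm) (h2.trans hc2.symm)
  · intro h1
    exact ⟨(h1.of_dvd (Nat.dvd_lcm_left d e)).trans hc1, (h1.of_dvd (Nat.dvd_lcm_right d e)).trans hc2⟩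

lemma coprime_lcm {d e W : ℕ} (hd : 1 ≤ d) (he : 1 ≤ e)
    (h : ∀ p ∈ (d * e).primeFactors, ¬ p ∣ W) : Nat.Coprime W (Nat.lcm d e) := by
  have h1 : Nat.Coprime W (d * e) := by
    rw [Nat.coprime_comm]
    refine Nat.Coprime.symm (Nat.coprime_of_dvd ?_)
    intro p hp h2 h3
    refine h p ?_ h2
    rw [Nat.mem_primeFactors]
    exact ⟨hp, h3, Nat.mul_ne_zero (by omega) (by omega)⟩
  exact h1.of_dvd_right (Nat.lcm_dvd_mul d e)

end HitNaux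

open HitNaux

open scoped Classical in
theorem hitN {k : ℕ} (t : Fin k → ℕ) (x d e a b : ℕ) (hd : 1 ≤ d) (he : 1 ≤ e) (s : Finset ℕ)
    (hs : ∀ p ∈ s, p.Prime ∧ ¬ p ∣ d ∧ ¬ p ∣ e) :
    |(((Icc 1 x).filter (fun n => d ∣ n + a ∧ e ∣ n + b ∧ ∀ p ∈ s, ∃ i, p ∣ n + t i)).card : ℝ) -
      (if ((Nat.gcd d e : ℕ) : ℤ) ∣ (a : ℤ) - b then
        (x : ℝ) / (Nat.lcm d e : ℝ) * ∏ p ∈ s, (nuI t p : ℝ) / p else 0)| ≤
      ∏ p ∈ s, (nuI t p : ℝ) := by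
  have hIcc : Icc 1 x = Ioc 0 x := by
    ext n; rw [mem_Icc, mem_Ioc]; omega
  have hl0 : 0 < Nat.lcm d e := Nat.lcm_pos hd he
  have hl0' : ((Nat.lcm d e : ℕ) : ℝ) ≠ 0 := by exact_mod_cast hl0.ne'
  have key := Pool.Agent.Lib.MP.PreHits.generic (P := (d * e).primeFactors)
    (fun p hp => Nat.prime_of_mem_primeFactors hp) (Icc 1 x) (fun _ => (1:ℝ))
    (fun n => d ∣ n + a ∧ e ∣ n + b) t
    (if ((Nat.gcd d e : ℕ) : ℤ) ∣ (a : ℤ) - b then (x : ℝ) / (Nat.lcm d e : ℝ) else 0) 1 (by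
      intro W v hW hPW
      have hco := coprime_lcm hd he hPW
      rw [sum_const, nsmul_eq_mul, mul_one]
      split_ifs with hg
      · obtain ⟨c, hc⟩ := exists_class hd he hg
        obtain ⟨c', hc1, hc2⟩ := Nat.chineseRemainder hco v c
        have h1 : (Icc 1 x).filter (fun n => n ≡ v [MOD W] ∧ (d ∣ n + a ∧ e ∣ n + b)) =
            (Ioc 0 x).filter (fun n => n ≡ c' [MOD W * Nat.lcm d e]) := by
          rw [hIcc]
          refine filter_congr fun n _ => ?_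
          rw [hc n, ← Nat.modEq_and_modEq_iff_modEq_mul hco]
          constructor
          · rintro ⟨h1, h2⟩
            exact ⟨h1.trans hc1.symm, h2.trans hc2.symm⟩
          · rintro ⟨h1, h2⟩
            exact ⟨h1.trans hc1, h2.trans hc2⟩
        have h2 := count_class x (W * Nat.lcm d e) c' (Nat.mul_pos hW hl0)
        rw [h1]
        have h3 : (x:ℝ) / (Nat.lcm d e : ℝ) / W = (x:ℝ) / ((W * Nat.lcm d e : ℕ) : ℝ) := by
          push_cast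
          rw [div_div, mul_comm]
        rw [h3]
        exact h2
      · have h1 : (Icc 1 x).filter (fun n => n ≡ v [MOD W] ∧ (d ∣ n + a ∧ e ∣ n + b)) = ∅ := by
          refine filter_eq_empty_iff.2 fun n _ h2 => hg (gcd_dvd_iff h2.2.1 h2.2.2)
        rw [h1]
        simp) s 1 0 le_rfl (fun p hp h => (Nat.prime_of_mem_primeFactors hp).one_lt.ne' (Nat.dvd_one.1 h))
    (by
      intro p hp
      obtain ⟨h1, h2, h3⟩ := hs p hp
      refine ⟨h1, fun h => h1.one_lt.ne' (Nat.dvd_one.1 h), fun h => ?_⟩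
      rw [Nat.mem_primeFactors] at h
      rcases h1.dvd_mul.1 h.2.1 with h4 | h4
      · exact h2 h4
      · exact h3 h4)
  have hf : (Icc 1 x).filter (fun n => n ≡ 0 [MOD 1] ∧ (d ∣ n + a ∧ e ∣ n + b) ∧
      ∀ p ∈ s, ∃ i, p ∣ n + t i) =
      (Icc 1 x).filter (fun n => d ∣ n + a ∧ e ∣ n + b ∧ ∀ p ∈ s, ∃ i, p ∣ n + t i) := by
    refine filter_congr fun n _ => ?_
    constructor
    · rintro ⟨_, ⟨h1, h2⟩, h3⟩
      exact ⟨h1, h2, h3⟩
    · rintro ⟨h1, h2, h3⟩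
      exact ⟨Nat.modEq_one, ⟨h1, h2⟩, h3⟩
  rw [hf, sum_const, nsmul_eq_mul, mul_one, Nat.cast_one, div_one, mul_one] at key
  have h2 : (if ((Nat.gcd d e : ℕ) : ℤ) ∣ (a : ℤ) - b then
        (x : ℝ) / (Nat.lcm d e : ℝ) * ∏ p ∈ s, (nuI t p : ℝ) / p else 0) =
      (if ((Nat.gcd d e : ℕ) : ℤ) ∣ (a : ℤ) - b then (x : ℝ) / (Nat.lcm d e : ℝ) else 0) *
        ∏ p ∈ s, (nuI t p : ℝ) / p := by
    split_ifs
    · rfl
    · rw [zero_mul]
  rw [h2]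
  exact key

end Pool.Agent.EV2
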