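import Pool.Agent.Lib.EV2.Defs

/-!
MODULE EV2.SR0 (1.2 h).  The diagonal value: SR z R 0 ≥ DZ z log R.

PROOF.  cc 0 m = φ(m) for squarefree m, so SR z R 0 = ∑_{m ∈ RR} 1/φ(m).
(1) log R ≤ ∑_{n ≤ R} 1/n (Mathlib: `log_add_one_le_harmonic` or similar).
(2) Every n ≤ R is uniquely n = s w, s with all prime factors ≤ z, w without prime factor ≤ z, w ≤ R:
∑_{n ≤ R} 1/n ≤ (∑_{s ≤ R, s z-smooth} 1/s) (∑_{w ≤ R, w rough} 1/w), and the first factor is
≤ ∏_{p ≤ z} (1 - 1/p)⁻¹ = (DZ z)⁻¹ (Mathlib: Euler products over `Nat.smoothNumbers` /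
`Nat.factoredNumbers`, e.g. `EulerProduct.summable_and_hasSum_smoothNumbers_prod_primesBelow_geometric`;
in the pool look for sums over smooth numbers in Lib/Sieve4, Lib/MT/OneDim).
(3) Every rough w ≤ R has its squarefree kernel m = rad(w) ∈ RR, and for squarefree m the sum of 1/w over the
w with rad(w) = m (finitely many w ≤ R) is ≤ ∏_{p ∣ m} (1/p + 1/p² + ...) = ∏ 1/(p-1) = 1/φ(m).
Hence log R ≤ (DZ z)⁻¹ ∑_{m ∈ RR} 1/φ(m).
(Alternative to (2), (3): strong induction or the inequality ∑_{n ≤ R} 1/n ≤ ∑_{m ≤ R squarefree} 1/φ(m)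
and ∑_{m ≤ R squarefree} 1/φ(m) ≤ (∑_{l ∣ P} 1/φ(l)) ∑_{m ∈ RR} 1/φ(m), P = ∏_{p ≤ z} p,
∑_{l ∣ P} 1/φ(l) = ∏_{p ≤ z} (1 + 1/(p-1)) = (DZ z)⁻¹: here m = l m', l = gcd(m, P), m' ∈ RR.)
-/

set_option autoImplicit false

open Finset

namespace Pool.Agent.EV2

open Pool.Agent.HLB

/-- no prime factor `≤ z` -/
private def Rgh (z n : ℕ) : Prop := ∀ p ∈ Nat.primesLE z, ¬ p ∣ n

open scoped Classical in
/-- sum of `1/n` over the `n ≤ R` without prime factor `≤ z` -/
private noncomputable def Hf (z R : ℕ) : ℝ := ∑ n ∈ (Icc 1 R).filter (Rgh z), 1 / (n : ℝ)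

/-- sum of `1/φ(m)` -/
private noncomputable def Gf (z R : ℕ) : ℝ := ∑ m ∈ RR z R, 1 / (m.totient : ℝ)

private lemma rgh_succ_prime {z n : ℕ} (hp : (z + 1).Prime) :
    Rgh (z + 1) n ↔ Rgh z n ∧ ¬ (z + 1) ∣ n := by
  unfold Rgh
  constructor
  · intro h
    refine ⟨fun p hp' => h p ?_, h (z + 1) (Nat.mem_primesLE.2 ⟨le_rfl, hp⟩)⟩
    rw [Nat.mem_primesLE] at hp' ⊢
    exact ⟨by omega, hp'.2⟩
  · rintro ⟨h1, h2⟩ p hp'
    rw [Nat.mem_primesLE] at hp'
    rcases Nat.lt_or_ge z p with h | h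
    · have : p = z + 1 := by omega
      rw [this]
      exact h2
    · exact h1 p (Nat.mem_primesLE.2 ⟨h, hp'.2⟩)

private lemma rgh_succ_not {z n : ℕ} (hp : ¬ (z + 1).Prime) : Rgh (z + 1) n ↔ Rgh z n := by
  unfold Rgh
  constructor
  · intro h p hp'
    refine h p ?_
    rw [Nat.mem_primesLE] at hp' ⊢
    exact ⟨by omega, hp'.2⟩
  · intro h p hp'
    rw [Nat.mem_primesLE] at hp'
    refine h p (Nat.mem_primesLE.2 ⟨?_, hp'.2⟩)
    rcases Nat.lt_or_ge z p with h | h
    · have : p = z + 1 := by omega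
      rw [this] at hp'
      exact absurd hp'.2 hp
    · exact h

private lemma rgh_mul {z n : ℕ} (hp : (z + 1).Prime) : Rgh z ((z + 1) * n) ↔ Rgh z n := by
  unfold Rgh
  constructor
  · intro h p hp' hd
    exact h p hp' (hd.mul_left _)
  · intro h p hp' hd
    have hp'' := (Nat.mem_primesLE.1 hp')
    rcases (hp''.2.dvd_mul).1 hd with h1 | h1
    · have := (Nat.prime_dvd_prime_iff_eq hp''.2 hp).1 h1
      omega
    · exact h p hp' h1

private lemma Hf_nonneg (z R : ℕ) : 0 ≤ Hf z R := Finset.sum_nonneg fun _ _ => by positivity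

private lemma Hf_mono (z : ℕ) {R R' : ℕ} (h : R ≤ R') : Hf z R ≤ Hf z R' := by
  classical
  unfold Hf
  refine Finset.sum_le_sum_of_subset_of_nonneg ?_ fun _ _ _ => by positivity
  exact Finset.filter_subset_filter _ (Finset.Icc_subset_Icc_right h)

private lemma Hf_split {z : ℕ} (R : ℕ) (hp : (z + 1).Prime) :
    Hf z R = Hf (z + 1) R + 1 / ((z + 1 : ℕ) : ℝ) * Hf z (R / (z + 1)) := by
  classical
  have hp0 : 0 < z + 1 := hp.pos
  have h1 := Finset.sum_filter_add_sum_filter_not ((Icc 1 R).filter (Rgh z))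
    (fun n => ¬ (z + 1) ∣ n) (fun n : ℕ => 1 / (n : ℝ))
  unfold Hf
  rw [← h1]
  congr 1
  · refine Finset.sum_congr ?_ fun _ _ => rfl
    ext n
    rw [mem_filter, mem_filter, mem_filter, rgh_succ_prime hp]
    tauto
  · rw [Finset.mul_sum]
    refine Finset.sum_nbij' (fun n => n / (z + 1)) (fun n => (z + 1) * n) ?_ ?_ ?_ ?_ ?_
    · intro n hn
      rw [mem_filter, mem_filter, mem_Icc, not_not] at hn
      obtain ⟨⟨⟨h2, h3⟩, h4⟩, k, hk⟩ := hn
      subst hk
      rw [rgh_mul hp] at h4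
      rw [Nat.mul_div_cancel_left _ hp0, mem_filter, mem_Icc]
      refine ⟨⟨?_, ?_⟩, h4⟩
      · exact Nat.pos_of_mul_pos_left h2
      · rw [Nat.le_div_iff_mul_le hp0, mul_comm]
        exact h3
    · intro n hn
      rw [mem_filter, mem_Icc] at hn
      obtain ⟨⟨h2, h3⟩, h4⟩ := hn
      rw [mem_filter, mem_filter, mem_Icc, not_not, rgh_mul hp]
      refine ⟨⟨⟨?_, ?_⟩, h4⟩, dvd_mul_right _ _⟩
      · exact Nat.mul_pos hp0 h2
      · rw [Nat.le_div_iff_mul_le hp0, mul_comm] at h3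
        exact h3
    · intro n hn
      rw [mem_filter, not_not] at hn
      exact Nat.mul_div_cancel' hn.2
    · intro n _
      exact Nat.mul_div_cancel_left _ hp0
    · intro n hn
      rw [mem_filter, mem_filter, mem_Icc, not_not] at hn
      obtain ⟨⟨⟨h2, h3⟩, h4⟩, k, hk⟩ := hn
      subst hk
      rw [Nat.mul_div_cancel_left _ hp0, Nat.cast_mul]
      have h5 : ((z + 1 : ℕ) : ℝ) ≠ 0 := by exact_mod_cast hp0.ne'
      have h6 : (k : ℝ) ≠ 0 := by
        have : 0 < k := Nat.pos_of_mul_pos_left h2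
        exact_mod_cast this.ne'
      field_simp

private lemma Gf_split {z : ℕ} (R : ℕ) (hp : (z + 1).Prime) :
    Gf z R = Gf (z + 1) R + 1 / (((z + 1 : ℕ) : ℝ) - 1) * Gf (z + 1) (R / (z + 1)) := by
  classical
  have hp0 : 0 < z + 1 := hp.pos
  have hmem : ∀ z R m, m ∈ RR z R ↔ (1 ≤ m ∧ m ≤ R) ∧ Squarefree m ∧ Rgh z m := fun _ _ _ => mem_RR
  have h1 := Finset.sum_filter_add_sum_filter_not (RR z R)
    (fun n => ¬ (z + 1) ∣ n) (fun n : ℕ => 1 / (n.totient : ℝ))
  unfold Gf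
  rw [← h1]
  congr 1
  · refine Finset.sum_congr ?_ fun _ _ => rfl
    ext n
    rw [mem_filter, hmem, hmem, rgh_succ_prime hp]
    tauto
  · rw [Finset.mul_sum]
    refine Finset.sum_nbij' (fun n => n / (z + 1)) (fun n => (z + 1) * n) ?_ ?_ ?_ ?_ ?_
    · intro n hn
      rw [mem_filter, hmem, not_not] at hn
      obtain ⟨⟨⟨h2, h3⟩, h7, h4⟩, k, hk⟩ := hn
      subst hk
      rw [rgh_mul hp] at h4
      rw [Nat.mul_div_cancel_left _ hp0, hmem, rgh_succ_prime hp]
      refine ⟨⟨?_, ?_⟩, h7.of_mul_right, h4, ?_⟩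
      · exact Nat.pos_of_mul_pos_left h2
      · rw [Nat.le_div_iff_mul_le hp0, mul_comm]
        exact h3
      · intro hd
        have h8 := (Nat.squarefree_mul_iff.1 h7).1
        have := Nat.eq_one_of_dvd_coprimes h8 dvd_rfl hd
        exact hp.one_lt.ne' this
    · intro n hn
      rw [hmem, rgh_succ_prime hp] at hn
      obtain ⟨⟨h2, h3⟩, h7, h4, h9⟩ := hn
      rw [mem_filter, hmem, not_not, rgh_mul hp]
      refine ⟨⟨⟨?_, ?_⟩, ?_, h4⟩, dvd_mul_right _ _⟩
      · exact Nat.mul_pos hp0 h2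
      · rw [Nat.le_div_iff_mul_le hp0, mul_comm] at h3
        exact h3
      · exact Nat.squarefree_mul_iff.2 ⟨(Nat.Prime.coprime_iff_not_dvd hp).2 h9,
          hp.prime.squarefree, h7⟩
    · intro n hn
      rw [mem_filter, not_not] at hn
      exact Nat.mul_div_cancel' hn.2
    · intro n _
      exact Nat.mul_div_cancel_left _ hp0
    · intro n hn
      rw [mem_filter, hmem, not_not] at hn
      obtain ⟨⟨⟨h2, h3⟩, h7, h4⟩, k, hk⟩ := hn
      subst hk
      rw [Nat.mul_div_cancel_left _ hp0]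
      have h8 := (Nat.squarefree_mul_iff.1 h7).1
      rw [Nat.totient_mul h8, Nat.totient_prime hp, Nat.cast_mul, Nat.cast_sub hp.one_le, Nat.cast_one,
        one_div_mul_one_div]

private lemma Hf_not {z : ℕ} (R : ℕ) (hp : ¬ (z + 1).Prime) : Hf (z + 1) R = Hf z R := by
  classical
  unfold Hf
  refine Finset.sum_congr ?_ fun _ _ => rfl
  ext n
  rw [mem_filter, mem_filter, rgh_succ_not hp]

private lemma Gf_not {z : ℕ} (R : ℕ) (hp : ¬ (z + 1).Prime) : Gf (z + 1) R = Gf z R := by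
  classical
  have hmem : ∀ z R m, m ∈ RR z R ↔ (1 ≤ m ∧ m ≤ R) ∧ Squarefree m ∧ Rgh z m := fun _ _ _ => mem_RR
  unfold Gf
  refine Finset.sum_congr ?_ fun _ _ => rfl
  ext n
  rw [hmem, hmem, rgh_succ_not hp]

private lemma Hf_le {z : ℕ} (hp : (z + 1).Prime) (R : ℕ) :
    Hf z R ≤ ((z + 1 : ℕ) : ℝ) / (((z + 1 : ℕ) : ℝ) - 1) * Hf (z + 1) R := by
  induction R using Nat.strong_induction_on with
  | _ R ih =>
    have hp0 : 0 < z + 1 := hp.pos
    have h2 : (2 : ℝ) ≤ ((z + 1 : ℕ) : ℝ) := by exact_mod_cast hp.two_le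
    set P : ℝ := ((z + 1 : ℕ) : ℝ) with hP
    have hP1 : 0 < P - 1 := by linarith
    have hP0 : 0 < P := by linarith
    rcases Nat.eq_zero_or_pos R with h0 | h0
    · subst h0
      have h3 : ∀ w, Hf w 0 = 0 := by
        intro w
        unfold Hf
        simp
      rw [h3, h3, mul_zero]
    · have h3 := ih (R / (z + 1)) (Nat.div_lt_self h0 hp.one_lt)
      rw [Hf_split R hp, ← hP]
      have h4 : Hf (z + 1) (R / (z + 1)) ≤ Hf (z + 1) R := Hf_mono _ (Nat.div_le_self _ _)
      have h5 : 1 / P * Hf z (R / (z + 1)) ≤ 1 / P * (P / (P - 1) * Hf (z + 1) R) :=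
        mul_le_mul_of_nonneg_left (h3.trans (mul_le_mul_of_nonneg_left h4 (by positivity))) (by positivity)
      have h6 : Hf (z + 1) R + 1 / P * (P / (P - 1) * Hf (z + 1) R) = P / (P - 1) * Hf (z + 1) R := by
        field_simp
        ring
      linarith

private lemma Hf_le_Gf (k : ℕ) : ∀ z R : ℕ, R ≤ z + k → Hf z R ≤ Gf z R := by
  classical
  have hmem : ∀ z R m, m ∈ RR z R ↔ (1 ≤ m ∧ m ≤ R) ∧ Squarefree m ∧ Rgh z m := fun _ _ _ => mem_RR
  induction k with
  | zero =>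
    intro z R h
    have h1 : ∀ n, 1 ≤ n → n ≤ R → Rgh z n → n = 1 := by
      intro n h2 h3 h4
      by_contra h5
      obtain ⟨q, hq, hqn⟩ := Nat.exists_prime_and_dvd h5
      exact h4 q (Nat.mem_primesLE.2 ⟨(Nat.le_of_dvd h2 hqn).trans (h3.trans h), hq⟩) hqn
    unfold Hf Gf
    have h6 : (Icc 1 R).filter (Rgh z) ⊆ RR z R := by
      intro n hn
      rw [mem_filter, mem_Icc] at hn
      have h7 := h1 n hn.1.1 hn.1.2 hn.2
      rw [hmem]
      refine ⟨hn.1, ?_, hn.2⟩
      rw [h7]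
      exact squarefree_one
    calc ∑ n ∈ (Icc 1 R).filter (Rgh z), 1 / (n : ℝ)
        = ∑ n ∈ (Icc 1 R).filter (Rgh z), 1 / (n.totient : ℝ) := by
          refine Finset.sum_congr rfl fun n hn => ?_
          rw [mem_filter, mem_Icc] at hn
          rw [h1 n hn.1.1 hn.1.2 hn.2]
          simp
      _ ≤ _ := Finset.sum_le_sum_of_subset_of_nonneg h6 fun _ _ _ => by positivity
  | succ k ih =>
    intro z R h
    by_cases hp : (z + 1).Prime
    · have h2 : (2 : ℝ) ≤ ((z + 1 : ℕ) : ℝ) := by exact_mod_cast hp.two_le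
      rw [Hf_split R hp, Gf_split R hp]
      set P : ℝ := ((z + 1 : ℕ) : ℝ) with hP
      have hP1 : 0 < P - 1 := by linarith
      have hP0 : 0 < P := by linarith
      have h3 := ih (z + 1) R (by omega)
      have h4 := ih (z + 1) (R / (z + 1)) ((Nat.div_le_self _ _).trans (by omega))
      have h5 := Hf_le hp (R / (z + 1))
      rw [← hP] at h5
      have h6 : 1 / P * Hf z (R / (z + 1)) ≤ 1 / P * (P / (P - 1) * Gf (z + 1) (R / (z + 1))) :=
        mul_le_mul_of_nonneg_left (h5.trans (mul_le_mul_of_nonneg_left h4 (by positivity)))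
          (by positivity)
      have h7 : 1 / P * (P / (P - 1) * Gf (z + 1) (R / (z + 1))) =
          1 / (P - 1) * Gf (z + 1) (R / (z + 1)) := by
        field_simp
      linarith
    · rw [← Hf_not R hp, ← Gf_not R hp]
      exact ih (z + 1) R (by omega)

private lemma primesLE_succ_prime {z : ℕ} (hp : (z + 1).Prime) :
    Nat.primesLE (z + 1) = insert (z + 1) (Nat.primesLE z) := by
  ext q
  rw [mem_insert, Nat.mem_primesLE, Nat.mem_primesLE]
  constructor
  · rintro ⟨h1, h2⟩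
    rcases Nat.lt_or_ge z q with h | h
    · left
      omega
    · right
      exact ⟨h, h2⟩
  · rintro (h | ⟨h1, h2⟩)
    · rw [h]
      exact ⟨le_rfl, hp⟩
    · exact ⟨by omega, h2⟩

private lemma primesLE_succ_not {z : ℕ} (hp : ¬ (z + 1).Prime) :
    Nat.primesLE (z + 1) = Nat.primesLE z := by
  ext q
  rw [Nat.mem_primesLE, Nat.mem_primesLE]
  constructor
  · rintro ⟨h1, h2⟩
    rcases Nat.lt_or_ge z q with h | h
    · have : q = z + 1 := by omega
      rw [this] at h2
      exact absurd h2 hp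
    · exact ⟨h, h2⟩
  · rintro ⟨h1, h2⟩
    exact ⟨by omega, h2⟩

private lemma DZ_Hf (R z : ℕ) : DZ z * Hf 0 R ≤ Hf z R := by
  induction z with
  | zero =>
    have h1 : Nat.primesLE 0 = ∅ := by
      ext q
      rw [Nat.mem_primesLE]
      constructor
      · rintro ⟨h1, h2⟩
        have := h2.pos
        omega
      · intro h
        exact absurd h (Finset.notMem_empty _)
    unfold DZ
    rw [h1, Finset.prod_empty, one_mul]
  | succ z ih =>
    by_cases hp : (z + 1).Prime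
    · have h2 : (2 : ℝ) ≤ ((z + 1 : ℕ) : ℝ) := by exact_mod_cast hp.two_le
      have h3 : (z + 1) ∉ Nat.primesLE z := by
        rw [Nat.mem_primesLE]
        omega
      have h4 : DZ (z + 1) = (1 - 1 / ((z + 1 : ℕ) : ℝ)) * DZ z := by
        unfold DZ
        rw [primesLE_succ_prime hp, Finset.prod_insert h3]
      rw [h4]
      set P : ℝ := ((z + 1 : ℕ) : ℝ) with hP
      have hP1 : 0 < P - 1 := by linarith
      have hP0 : 0 < P := by linarith
      have h5 := Hf_le hp R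
      rw [← hP] at h5
      have h6 : 0 ≤ 1 - 1 / P := by
        rw [sub_nonneg, div_le_one hP0]
        linarith
      calc (1 - 1 / P) * DZ z * Hf 0 R = (1 - 1 / P) * (DZ z * Hf 0 R) := by ring
        _ ≤ (1 - 1 / P) * (P / (P - 1) * Hf (z + 1) R) :=
            mul_le_mul_of_nonneg_left (ih.trans h5) h6
        _ = Hf (z + 1) R := by
            field_simp
    · rw [Hf_not R hp]
      have h4 : DZ (z + 1) = DZ z := by
        unfold DZ
        rw [primesLE_succ_not hp]
      rw [h4]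
      exact ih

private lemma log_le_Hf {R : ℕ} (hR : 1 ≤ R) : Real.log R ≤ Hf 0 R := by
  classical
  have h1 := log_add_one_le_harmonic R
  have h2 : Real.log R ≤ Real.log ((R + 1 : ℕ) : ℝ) := by
    refine Real.log_le_log (by exact_mod_cast hR) ?_
    push_cast
    linarith
  have h3 : ((harmonic R : ℚ) : ℝ) = Hf 0 R := by
    unfold Hf
    rw [harmonic_eq_sum_Icc]
    push_cast
    refine Finset.sum_congr ?_ fun n _ => (one_div _).symm
    ext n
    rw [mem_filter]
    refine ⟨fun h => ⟨h, ?_⟩, fun h => h.1⟩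
    intro q hq
    rw [Nat.mem_primesLE] at hq
    have := hq.2.pos
    omega
  rw [← h3]
  exact h2.trans h1

theorem SR_zero (z R : ℕ) (hR : 1 ≤ R) : DZ z * Real.log R ≤ SR z R 0 := by
  have h1 : SR z R 0 = Gf z R := by
    unfold SR Gf
    refine Finset.sum_congr rfl fun m hm => ?_
    rw [mem_RR] at hm
    have h2 : cc 0 m = (m.totient : ℝ) := by
      unfold cc
      rw [Nat.totient_eq_prod_factorization (by omega)]
      rw [Finsupp.prod, Nat.support_factorization]
      push_cast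
      refine Finset.prod_congr rfl fun p hp => ?_
      have hpp := Nat.prime_of_mem_primeFactors hp
      rw [if_pos (dvd_zero _)]
      have h3 : m.factorization p = 1 := by
        have h4 := (Nat.squarefree_iff_factorization_le_one (by omega)).1 hm.2.1 p
        have h5 : 0 < m.factorization p := hpp.factorization_pos_of_dvd (by omega)
          (Nat.dvd_of_mem_primeFactors hp)
        omega
      rw [h3, Nat.sub_self, pow_zero, one_mul, Nat.cast_sub hpp.one_le, Nat.cast_one]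
    rw [h2]
    have h6 : (m.totient : ℝ) ≠ 0 := by
      have := Nat.totient_pos.2 (show 0 < m by omega)
      exact_mod_cast this.ne'
    field_simp
  rw [h1]
  calc DZ z * Real.log R ≤ DZ z * Hf 0 R := mul_le_mul_of_nonneg_left (log_le_Hf hR) (DZ_pos z).le
    _ ≤ Hf z R := DZ_Hf R z
    _ ≤ Gf z R := Hf_le_Gf R z R (by omega)

end Pool.Agent.EV2
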