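import Pool.Agent.Lib.EV2.Defs
import Pool.Agent.Lib.BV.TauSum

/-!
MODULE EV2.SRl (1.2 h).  The truncated singular series is at least 1 - ε.

PROOF.  ε ≤ 1 without loss of generality.  Every m ∈ RR factors uniquely as m = u v with u the product of
the p ∣ m with p ∣ h and v the product of the others; u ∈ RR has all prime factors dividing h, v ∈ RR
has no prime factor dividing h, gcd(u, v) = 1, u v ≤ R, and conversely.  cc h m = φ(u) μ(v),
cc h m/φ(m)² = (1/φ(u)) μ(v)/φ(v)².  Hence SR z R h = ∑_u (1/φ(u)) I_u, I_u = ∑_{v ≤ R/u} μ(v)/φ(v)².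
The term v = 1 of I_u is 1 (u ≤ R), the others have v > z (every prime factor is > z), so
|I_u - 1| ≤ ∑_{v > z} 1/φ(v)² ≤ ∑_{v > z} 9 log²(v+2)/v² ≤ ε for z ≥ z₀(ε) (`inv_totient_le`; a
convergent series, e.g. log(v+2) ≤ C v^(1/8)).  So I_u ≥ 1 - ε ≥ 0 for all u, and u = 1 alone gives
SR ≥ 1 - ε.
-/

set_option autoImplicit false

open Finset

namespace Pool.Agent.EV2

namespace SRlAux

lemma tail {ε : ℝ} (hε : 0 < ε) : ∃ z₀ : ℕ, ∀ z : ℕ, z₀ ≤ z → ∀ t : Finset ℕ, (∀ v ∈ t, z < v) →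
    ∑ v ∈ t, 1 / (v.totient : ℝ) ^ 2 ≤ ε := by
  have hs : Summable (fun v : ℕ => 1 / (v.totient : ℝ) ^ 2) := by
    have h1 : Summable (fun v : ℕ => (9 * (64 * 3) : ℝ) * (v : ℝ) ^ (-(7 / 4) : ℝ)) :=
      (Real.summable_nat_rpow.2 (by norm_num)).mul_left _
    refine Summable.of_nonneg_of_le (fun v => by positivity) (fun v => ?_) h1
    rcases Nat.eq_zero_or_pos v with hv | hv
    · subst hv
      simp only [Nat.totient_zero]
      norm_num
    · have hv1 : (1 : ℝ) ≤ v := by exact_mod_cast hv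
      have hv0 : (0 : ℝ) < v := by linarith
      have h2 := Pool.Agent.Lib.BV.inv_totient_le v hv
      have h3 : Real.log (v + 2) ≤ 8 * (3 * v : ℝ) ^ (1 / 8 : ℝ) := by
        have h4 := Real.log_le_rpow_div (x := (v : ℝ) + 2) (by positivity)
          (ε := 1 / 8) (by norm_num)
        have h5 : ((v : ℝ) + 2) ^ (1 / 8 : ℝ) ≤ (3 * v : ℝ) ^ (1 / 8 : ℝ) :=
          Real.rpow_le_rpow (by positivity) (by linarith) (by norm_num)
        have h6 : ((v : ℝ) + 2) ^ (1 / 8 : ℝ) / (1 / 8) = 8 * ((v : ℝ) + 2) ^ (1 / 8 : ℝ) := by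
          ring
        rw [h6] at h4
        linarith
      have h4 : 1 / (v.totient : ℝ) ≤ 3 * (8 * (3 * v : ℝ) ^ (1 / 8 : ℝ)) / v := by
        refine h2.trans ?_
        gcongr
      have h5 : 1 / (v.totient : ℝ) ^ 2 = (1 / (v.totient : ℝ)) ^ 2 := by
        rw [div_pow, one_pow]
      rw [h5]
      refine (pow_le_pow_left₀ (by positivity) h4 2).trans ?_
      have h6 : (3 * v : ℝ) ^ (1 / 8 : ℝ) = 3 ^ (1 / 8 : ℝ) * (v : ℝ) ^ (1 / 8 : ℝ) :=
        Real.mul_rpow (by norm_num) hv0.le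
      have h7 : ((3 : ℝ) ^ (1 / 8 : ℝ)) ^ 2 ≤ 3 := by
        rw [← Real.rpow_natCast, ← Real.rpow_mul (by norm_num)]
        calc (3 : ℝ) ^ (1 / 8 * ((2 : ℕ) : ℝ) : ℝ) ≤ 3 ^ (1 : ℝ) :=
              Real.rpow_le_rpow_of_exponent_le (by norm_num) (by norm_num)
          _ = 3 := Real.rpow_one 3
      have h8 : ((v : ℝ) ^ (1 / 8 : ℝ)) ^ 2 / (v : ℝ) ^ 2 = (v : ℝ) ^ (-(7 / 4) : ℝ) := by
        rw [← Real.rpow_natCast, ← Real.rpow_natCast, ← Real.rpow_mul hv0.le,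
          ← Real.rpow_sub hv0]
        norm_num
      calc (3 * (8 * (3 * v : ℝ) ^ (1 / 8 : ℝ)) / v) ^ 2
          = (9 * 64) * (((3 : ℝ) ^ (1 / 8 : ℝ)) ^ 2) *
            (((v : ℝ) ^ (1 / 8 : ℝ)) ^ 2 / (v : ℝ) ^ 2) := by
            rw [h6]
            ring
        _ ≤ (9 * 64) * 3 * (((v : ℝ) ^ (1 / 8 : ℝ)) ^ 2 / (v : ℝ) ^ 2) := by
            gcongr
        _ = _ := by
            rw [h8]
            ring
  obtain ⟨s, hs'⟩ := summable_iff_vanishing_norm.1 hs ε hε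
  refine ⟨s.sup id, fun z hz t ht => ?_⟩
  have h1 : Disjoint t s := by
    rw [Finset.disjoint_left]
    intro v hv hvs
    have h2 := ht v hv
    have h3 : v ≤ s.sup id := Finset.le_sup (f := id) hvs
    omega
  exact (le_abs_self _).trans (hs' t h1).le

open scoped Classical in
/-- the part of `m` composed of primes dividing `h` -/
noncomputable def UU (h : ℤ) (m : ℕ) : ℕ := ∏ p ∈ m.primeFactors.filter (fun p : ℕ => (p : ℤ) ∣ h), p

open scoped Classical in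
/-- the other part -/
noncomputable def VV (h : ℤ) (m : ℕ) : ℕ := ∏ p ∈ m.primeFactors.filter (fun p : ℕ => ¬ (p : ℤ) ∣ h), p

lemma UV {h : ℤ} {m : ℕ} (hm : Squarefree m) : UU h m * VV h m = m := by
  classical
  unfold UU VV
  rw [Finset.prod_filter_mul_prod_filter_not, Nat.prod_primeFactors_of_squarefree hm]

lemma tot {s : Finset ℕ} (hs : ∀ p ∈ s, p.Prime) :
    ((∏ p ∈ s, p).totient : ℝ) = ∏ p ∈ s, ((p : ℝ) - 1) := by
  have h1 := Nat.totient_mul_prod_primeFactors (∏ p ∈ s, p)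
  rw [Nat.primeFactors_prod hs] at h1
  have h2 : 0 < ∏ p ∈ s, p := Finset.prod_pos fun p hp => (hs p hp).pos
  rw [mul_comm] at h1
  have h3 := Nat.eq_of_mul_eq_mul_left h2 h1
  rw [h3]
  push_cast
  refine Finset.prod_congr rfl fun p hp => ?_
  rw [Nat.cast_sub (hs p hp).one_le]
  simp

lemma cc_abs {h : ℤ} {m : ℕ} : |cc h m| = ((UU h m).totient : ℝ) := by
  classical
  unfold cc UU
  rw [tot (fun p hp => Nat.prime_of_mem_primeFactors (Finset.mem_filter.1 hp).1),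
    Finset.abs_prod, Finset.prod_filter]
  refine Finset.prod_congr rfl fun p hp => ?_
  have hp' := (Nat.prime_of_mem_primeFactors hp).two_le
  have hp2 : (2 : ℝ) ≤ p := by exact_mod_cast hp'
  split_ifs
  · exact abs_of_nonneg (by linarith)
  · norm_num

lemma tot_mul {h : ℤ} {m : ℕ} (hm : Squarefree m) :
    (m.totient : ℝ) = ((UU h m).totient : ℝ) * ((VV h m).totient : ℝ) := by
  classical
  conv_lhs => rw [← Nat.prod_primeFactors_of_squarefree hm]
  rw [tot (fun p hp => Nat.prime_of_mem_primeFactors hp)]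
  unfold UU VV
  rw [tot (fun p hp => Nat.prime_of_mem_primeFactors (Finset.mem_filter.1 hp).1),
    tot (fun p hp => Nat.prime_of_mem_primeFactors (Finset.mem_filter.1 hp).1),
    Finset.prod_filter_mul_prod_filter_not]

lemma UU_pos (h : ℤ) (m : ℕ) : 0 < UU h m := by
  classical
  exact Finset.prod_pos fun p hp => (Nat.prime_of_mem_primeFactors (Finset.mem_filter.1 hp).1).pos

lemma VV_pos (h : ℤ) (m : ℕ) : 0 < VV h m := by
  classical
  exact Finset.prod_pos fun p hp => (Nat.prime_of_mem_primeFactors (Finset.mem_filter.1 hp).1).pos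

lemma UU_UU (h : ℤ) (m : ℕ) : UU h (UU h m) = UU h m := by
  classical
  have h1 : (UU h m).primeFactors = m.primeFactors.filter (fun p : ℕ => (p : ℤ) ∣ h) := by
    unfold UU
    exact Nat.primeFactors_prod fun p hp =>
      Nat.prime_of_mem_primeFactors (Finset.mem_filter.1 hp).1
  have h2 : UU h (UU h m) =
      ∏ p ∈ (UU h m).primeFactors.filter (fun p : ℕ => (p : ℤ) ∣ h), p := rfl
  rw [h2, h1, Finset.filter_filter]
  unfold UU
  simp

lemma cc_UU (h : ℤ) (m : ℕ) : cc h (UU h m) = ((UU h m).totient : ℝ) := by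
  classical
  have h1 : (UU h m).primeFactors = m.primeFactors.filter (fun p : ℕ => (p : ℤ) ∣ h) := by
    unfold UU
    exact Nat.primeFactors_prod fun p hp =>
      Nat.prime_of_mem_primeFactors (Finset.mem_filter.1 hp).1
  unfold cc
  rw [h1]
  unfold UU
  rw [tot (fun p hp => Nat.prime_of_mem_primeFactors (Finset.mem_filter.1 hp).1)]
  refine Finset.prod_congr rfl fun p hp => ?_
  rw [if_pos (Finset.mem_filter.1 hp).2]

lemma one_RR {z R : ℕ} (hR : 1 ≤ R) : 1 ∈ RR z R := by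
  rw [mem_RR]
  refine ⟨⟨le_rfl, hR⟩, squarefree_one, fun p hp hp1 => ?_⟩
  exact (Nat.mem_primesLE.1 hp).2.one_lt.ne' (Nat.dvd_one.1 hp1)

lemma UU_one (h : ℤ) : UU h 1 = 1 := by
  classical
  unfold UU
  simp

lemma gt_of_RR {z R v : ℕ} (hv : v ∈ RR z R) (h1 : v ≠ 1) : z < v := by
  rw [mem_RR] at hv
  obtain ⟨p, hp, hpv⟩ := Nat.exists_prime_and_dvd h1
  by_contra hc
  push Not at hc
  have hpz : p ≤ z := (Nat.le_of_dvd (by omega) hpv).trans hc
  exact hv.2.2 p (Nat.mem_primesLE.2 ⟨hpz, hp⟩) hpv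

/-- the inner sum -/
lemma inner {ε : ℝ} {z R : ℕ} {h : ℤ} {u : ℕ}
    (ht : ∀ t : Finset ℕ, (∀ v ∈ t, z < v) → ∑ v ∈ t, 1 / (v.totient : ℝ) ^ 2 ≤ ε)
    (hu : u ∈ RR z R) (huu : UU h u = u) :
    1 / (u.totient : ℝ) * (1 - ε) ≤
      ∑ m ∈ (RR z R).filter (fun m => UU h m = u), cc h m / (m.totient : ℝ) ^ 2 := by
  classical
  have hu1 : 1 ≤ u := (mem_RR.1 hu).1.1
  have hφ : (0 : ℝ) < u.totient := by exact_mod_cast Nat.totient_pos.2 hu1
  have hmem : u ∈ (RR z R).filter (fun m => UU h m = u) := by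
    rw [Finset.mem_filter]
    exact ⟨hu, huu⟩
  rw [← Finset.add_sum_erase _ _ hmem]
  have h1 : cc h u / (u.totient : ℝ) ^ 2 = 1 / (u.totient : ℝ) := by
    have := cc_UU h u
    rw [huu] at this
    rw [this]
    field_simp
  rw [h1]
  set S := ((RR z R).filter (fun m => UU h m = u)).erase u with hS
  have hSm : ∀ m ∈ S, m ∈ RR z R ∧ UU h m = u ∧ m ≠ u := by
    intro m hm
    rw [hS, Finset.mem_erase, Finset.mem_filter] at hm
    exact ⟨hm.2.1, hm.2.2, hm.1⟩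
  have h2 : ∀ m ∈ S, -(1 / (u.totient : ℝ) * (1 / ((VV h m).totient : ℝ) ^ 2)) ≤
      cc h m / (m.totient : ℝ) ^ 2 := by
    intro m hm
    obtain ⟨hm1, hm2, hm3⟩ := hSm m hm
    have hsq := (mem_RR.1 hm1).2.1
    have hφ2 : (0 : ℝ) < (VV h m).totient := by exact_mod_cast Nat.totient_pos.2 (VV_pos h m)
    have h3 : |cc h m / (m.totient : ℝ) ^ 2| =
        1 / (u.totient : ℝ) * (1 / ((VV h m).totient : ℝ) ^ 2) := by
      rw [abs_div, cc_abs, tot_mul (h := h) hsq, hm2, abs_of_nonneg (by positivity)]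
      field_simp
    rw [← h3]
    exact neg_abs_le _
  have h3 := Finset.sum_le_sum h2
  rw [Finset.sum_neg_distrib, ← Finset.mul_sum] at h3
  have hinj : Set.InjOn (VV h) (S : Set ℕ) := by
    intro a ha b hb hab
    obtain ⟨ha1, ha2, _⟩ := hSm a ha
    obtain ⟨hb1, hb2, _⟩ := hSm b hb
    have e1 := UV (h := h) (mem_RR.1 ha1).2.1
    have e2 := UV (h := h) (mem_RR.1 hb1).2.1
    rw [← e1, ← e2, ha2, hb2, hab]
  have h4 : ∑ m ∈ S, 1 / ((VV h m).totient : ℝ) ^ 2 ≤ ε := by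
    have h5 := ht (S.image (VV h)) ?_
    · rwa [Finset.sum_image hinj] at h5
    · intro v hv
      obtain ⟨m, hm, rfl⟩ := Finset.mem_image.1 hv
      obtain ⟨hm1, hm2, hm3⟩ := hSm m hm
      have e1 := UV (h := h) (mem_RR.1 hm1).2.1
      refine gt_of_RR (R := R) (RR_of_dvd hm1 (Dvd.intro_left _ e1)) ?_
      intro h6
      rw [h6, mul_one, hm2] at e1
      exact hm3 e1.symm
  have h5 := mul_le_mul_of_nonneg_left h4 (show 0 ≤ 1 / (u.totient : ℝ) by positivity)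
  linarith

end SRlAux

open SRlAux

theorem SR_lower {ε : ℝ} (hε : 0 < ε) : ∃ z₀ : ℕ, ∀ z : ℕ, z₀ ≤ z → ∀ R : ℕ, 1 ≤ R → ∀ h : ℤ,
    1 - ε ≤ SR z R h := by
  classical
  obtain ⟨z₀, hz₀⟩ := tail (ε := min ε 1) (lt_min hε one_pos)
  refine ⟨z₀, fun z hz R hR h => ?_⟩
  have ht := hz₀ z hz
  have hmap : ∀ m ∈ RR z R, UU h m ∈ (RR z R).image (UU h) := fun m hm =>
    Finset.mem_image_of_mem _ hm
  unfold SR
  rw [← Finset.sum_fiberwise_of_maps_to hmap]
  have h1 : ∀ u ∈ (RR z R).image (UU h), 1 / (u.totient : ℝ) * (1 - min ε 1) ≤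
      ∑ m ∈ (RR z R).filter (fun m => UU h m = u), cc h m / (m.totient : ℝ) ^ 2 := by
    intro u hu
    obtain ⟨m, hm, rfl⟩ := Finset.mem_image.1 hu
    refine inner ht ?_ (UU_UU h m)
    exact RR_of_dvd hm (Dvd.intro _ (UV (mem_RR.1 hm).2.1))
  have h2 : 0 ≤ 1 - min ε 1 := by linarith [min_le_right ε 1]
  have h3 : (1 : ℕ) ∈ (RR z R).image (UU h) :=
    Finset.mem_image.2 ⟨1, one_RR hR, UU_one h⟩
  calc 1 - ε ≤ 1 - min ε 1 := by linarith [min_le_left ε 1]
    _ = 1 / ((1 : ℕ).totient : ℝ) * (1 - min ε 1) := by simp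
    _ ≤ ∑ u ∈ (RR z R).image (UU h), 1 / (u.totient : ℝ) * (1 - min ε 1) :=
        Finset.single_le_sum (f := fun u : ℕ => 1 / (u.totient : ℝ) * (1 - min ε 1))
          (fun u _ => by positivity) h3
    _ ≤ _ := Finset.sum_le_sum h1

end Pool.Agent.EV2
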