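import Pool.Agent.Lib.EV2.CrossAs
import Pool.Agent.Lib.MQ.Sharp

/-!
MODULE EV2.Up (1.5 h).  Upper bounds for the first moments.

PROOF.  RR z 1 = {1}, lamd z 1 1 = 1, lamS z 1 n = 1, SR z 1 h = 1: `cross_as` with R = 1 (η = 1/4, M large) says
|∑_{n ≤ x} ∏_i ic z (n + t i) ip (n + t 0) log (n + t 0) - x pd z t| ≤ x/L^M, L = log x.
`up_one`: r = k+2, z = zz r x, b = bb r x ≤ 1.  Expand ∑_n N (b ∑ ic)^(k+1) = ∑_t b^(k+1) ∑_n ip (n + t 0)
∏_{i ≠ 0} ic z (n + t i) over t : Fin (k+2) → A (see e2 in `sum_NB_ge2`, HLD/T1Lower2.lean).  For the n with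
m = n + t 0 ≤ x^(1-δ) (at most x^(1-δ) of them) bound the term by 1; for m prime > x^(1-δ) ≥ z, ic z m = 1
and log m ≥ (1-δ) L, so the term is ≤ (1-δ)⁻¹ L⁻¹ ∏_i ic z (n + t i) ip m log m.  Total for t:
≤ (1-δ)⁻¹ L⁻¹ (x pd z t + x/L^M) + x^(1-δ), and b^(k+1) pd z t = L^(-(k+1)) SZ z t (`pd_eq`, `SZ_eq`,
b = 1/(DZ L)).  Sum over t: (1-δ)⁻¹ (x/L^(k+2)) GW + |A|^(k+2) (x/L^M + x^(1-δ)), and
|A|^(k+2) ≤ GW (`card_pow_le_GW`).  δ small.
`up_zero`: the same with k = 0, t = (a, a), r = 2: pd z t = 1 (nuI = 1), for every single a; no weight.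
-/

set_option autoImplicit false

open Finset Filter

namespace Pool.Agent.EV2

open Pool.Agent.HLB

namespace UpAux

lemma RR_one (z : ℕ) : RR z 1 = {1} := by
  ext d
  rw [mem_RR, mem_singleton]
  constructor
  · rintro ⟨⟨h1, h2⟩, _⟩
    omega
  · rintro rfl
    refine ⟨⟨le_rfl, le_rfl⟩, squarefree_one, fun p hp h => ?_⟩
    exact (Nat.mem_primesLE.1 hp).2.one_lt.ne' (Nat.dvd_one.1 h)

lemma lamd_one (z : ℕ) : lamd z 1 1 = 1 := by
  unfold lamd
  rw [RR_one]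
  simp

lemma lamS_one (z n : ℕ) : lamS z 1 n = 1 := by
  unfold lamS
  rw [RR_one]
  simp [Finset.filter_singleton, lamd_one]

lemma SR_one (z : ℕ) (h : ℤ) : SR z 1 h = 1 := by
  unfold SR
  rw [RR_one, sum_singleton]
  simp [cc]

lemma cross1 (r k K0 M : ℕ) : ∀ᶠ x : ℕ in atTop, ∀ t : Fin (k + 2) → ℕ,
    (t 0 : ℝ) ≤ x * Real.log x ^ K0 →
    |∑ n ∈ Icc 1 x, (∏ i, ic (zz r x) (n + t i)) * (ip (n + t 0) * Real.log ((n + t 0 : ℕ) : ℝ)) -
      x * pd (zz r x) t| ≤ x / Real.log x ^ M := by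
  filter_upwards [cross_as r k K0 M (η := 1 / 4) (by norm_num) le_rfl, eventually_ge_atTop 1]
    with x hx hx1 t ht
  have hx1' : (1 : ℝ) ≤ x := by exact_mod_cast hx1
  have h := hx 1 le_rfl (by
    rw [Nat.cast_one]
    exact Real.one_le_rpow hx1' (by norm_num)) t ht
  simpa only [lamS_one, SR_one, mul_one] using h

lemma prime_pt {x z m : ℕ} {δ : ℝ} (hδ : δ < 1) (hx : 1 < x)
    (hz : (z : ℝ) ≤ (x : ℝ) ^ (1 - δ)) (hm : (x : ℝ) ^ (1 - δ) < m) :
    ip m ≤ ((1 - δ)⁻¹ * (Real.log x)⁻¹) * (ic z m * (ip m * Real.log (m : ℝ))) := by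
  have hx' : (1 : ℝ) < x := by exact_mod_cast hx
  have hL : 0 < Real.log x := Real.log_pos hx'
  by_cases hp : m.Prime
  · have h1 : ic z m = 1 := by
      unfold ic
      rw [if_pos]
      intro q hq hqm
      have hq' := Nat.mem_primesLE.1 hq
      have h2 : q = m := (Nat.prime_dvd_prime_iff_eq hq'.2 hp).1 hqm
      have h3 : (m : ℝ) ≤ z := by
        rw [← h2]
        exact_mod_cast hq'.1
      linarith
    have h4 : ip m = 1 := by
      unfold ip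
      rw [if_pos hp]
    have h2 : (1 - δ) * Real.log x ≤ Real.log m := by
      rw [← Real.log_rpow (by linarith)]
      exact Real.log_le_log (Real.rpow_pos_of_pos (by linarith) _) hm.le
    have h5 : 0 < (1 - δ) * Real.log x := mul_pos (by linarith) hL
    rw [h1, h4, one_mul, one_mul, ← mul_inv, inv_mul_eq_div, le_div_iff₀ h5, one_mul]
    exact h2
  · have h4 : ip m = 0 := by
      unfold ip
      rw [if_neg hp]
    rw [h4]
    simp

lemma sum_small (x : ℕ) {y : ℝ} (hy : 0 ≤ y) :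
    ∑ n ∈ Icc 1 x, (if (n : ℝ) ≤ y then (1 : ℝ) else 0) ≤ y := by
  rw [← Finset.sum_filter, sum_const, nsmul_eq_mul, mul_one]
  have h1 : (Icc 1 x).filter (fun n : ℕ => (n : ℝ) ≤ y) ⊆ Icc 1 ⌊y⌋₊ := by
    intro n hn
    rw [mem_filter, mem_Icc] at hn
    rw [mem_Icc]
    exact ⟨hn.1.1, Nat.le_floor hn.2⟩
  have h2 := card_le_card h1
  rw [Nat.card_Icc, Nat.add_sub_cancel] at h2
  calc (((Icc 1 x).filter (fun n : ℕ => (n : ℝ) ≤ y)).card : ℝ) ≤ (⌊y⌋₊ : ℝ) := by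
        exact_mod_cast h2
    _ ≤ y := Nat.floor_le hy

/-- the weighted sum against the sum with logarithms -/
lemma S_le {x z : ℕ} {δ : ℝ} (hδ : δ < 1) (hx : 1 < x)
    (hz : (z : ℝ) ≤ (x : ℝ) ^ (1 - δ)) (a : ℕ) (P : ℕ → ℝ) (hP : ∀ n, 0 ≤ P n ∧ P n ≤ 1) :
    ∑ n ∈ Icc 1 x, ip (n + a) * P n ≤
      ((1 - δ)⁻¹ * (Real.log x)⁻¹) *
        ∑ n ∈ Icc 1 x, (ic z (n + a) * P n) * (ip (n + a) * Real.log ((n + a : ℕ) : ℝ)) +
        (x : ℝ) ^ (1 - δ) := by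
  have hx' : (1 : ℝ) < x := by exact_mod_cast hx
  have hL : 0 < Real.log x := Real.log_pos hx'
  have hy : 0 ≤ (x : ℝ) ^ (1 - δ) := Real.rpow_nonneg (by linarith) _
  have hc : 0 ≤ (1 - δ)⁻¹ * (Real.log x)⁻¹ :=
    mul_nonneg (inv_nonneg.2 (by linarith)) (inv_nonneg.2 hL.le)
  have hpt : ∀ n ∈ Icc 1 x, ip (n + a) * P n ≤
      ((1 - δ)⁻¹ * (Real.log x)⁻¹) *
        ((ic z (n + a) * P n) * (ip (n + a) * Real.log ((n + a : ℕ) : ℝ))) +
        (if (n : ℝ) ≤ (x : ℝ) ^ (1 - δ) then (1 : ℝ) else 0) := by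
    intro n hn
    have hlog : 0 ≤ Real.log ((n + a : ℕ) : ℝ) := Real.log_natCast_nonneg _
    have h0 : 0 ≤ ((1 - δ)⁻¹ * (Real.log x)⁻¹) *
        ((ic z (n + a) * P n) * (ip (n + a) * Real.log ((n + a : ℕ) : ℝ))) :=
      mul_nonneg hc (mul_nonneg (mul_nonneg (ic_nonneg _ _) (hP n).1)
        (mul_nonneg (ip_nonneg _) hlog))
    split_ifs with h
    · have h1 : ip (n + a) * P n ≤ 1 := mul_le_one₀ (ip_le_one _) (hP n).1 (hP n).2
      linarith
    · rw [add_zero]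
      push Not at h
      have h2 : (x : ℝ) ^ (1 - δ) < ((n + a : ℕ) : ℝ) := by
        push_cast
        have : (0 : ℝ) ≤ a := Nat.cast_nonneg a
        linarith
      have h3 := mul_le_mul_of_nonneg_right (prime_pt hδ hx hz h2) (hP n).1
      calc ip (n + a) * P n ≤ _ := h3
        _ = _ := by ring
  refine (sum_le_sum hpt).trans ?_
  rw [sum_add_distrib, ← mul_sum]
  exact add_le_add le_rfl (sum_small x hy)

lemma expand (k x : ℕ) (A : Finset ℕ) (z : ℕ) (b : ℝ) :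
    ∑ n ∈ Icc 1 x, (∑ a ∈ A, ip (n + a)) * (b * ∑ a ∈ A, ic z (n + a)) ^ (k + 1) =
      ∑ t ∈ Fintype.piFinset (fun _ : Fin (k + 2) => A), b ^ (k + 1) *
        ∑ n ∈ Icc 1 x, ip (n + t 0) * ∏ i ∈ univ.erase (0 : Fin (k + 2)), ic z (n + t i) := by
  symm
  have h4 : ∀ t ∈ Fintype.piFinset (fun _ : Fin (k + 2) => A), b ^ (k + 1) *
        ∑ n ∈ Icc 1 x, ip (n + t 0) * ∏ i ∈ univ.erase (0 : Fin (k + 2)), ic z (n + t i)
      = ∑ n ∈ Icc 1 x, b ^ (k + 1) * ∏ i : Fin (k + 2),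
          (if i = 0 then ip (n + t i) else ic z (n + t i)) := by
    intro t _
    rw [Finset.mul_sum]
    refine Finset.sum_congr rfl fun n _ => ?_
    congr 1
    rw [← Finset.mul_prod_erase univ _ (mem_univ (0 : Fin (k + 2))), if_pos rfl]
    congr 1
    refine Finset.prod_congr rfl fun i hi => ?_
    rw [if_neg (Finset.ne_of_mem_erase hi)]
  rw [Finset.sum_congr rfl h4, Finset.sum_comm]
  refine Finset.sum_congr rfl fun n _ => ?_
  rw [← Finset.mul_sum]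
  have h6 := sum_pi_prod (k + 2) A (fun i a => if i = 0 then ip (n + a) else ic z (n + a))
  rw [h6, Fin.prod_univ_succ]
  have h7 : ∀ i : Fin (k + 1), ∑ a ∈ A, (if i.succ = 0 then ip (n + a) else ic z (n + a))
      = ∑ a ∈ A, ic z (n + a) := by
    intro i
    refine Finset.sum_congr rfl fun a _ => ?_
    rw [if_neg (Fin.succ_ne_zero i)]
  simp only [h7, if_true, Finset.prod_const, card_univ, Fintype.card_fin]
  rw [mul_pow]
  ring

lemma ev_z (r : ℕ) {δ : ℝ} (hδ : δ < 1) : ∀ᶠ x : ℕ in atTop,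
    (zz r x : ℝ) ≤ (x : ℝ) ^ (1 - δ) := by
  have h1 := isLittleO_log_rpow_atTop (r := 1 - δ) (by linarith)
  have h2 := (h1.comp_tendsto tendsto_natCast_atTop_atTop).bound (c := 1) one_pos
  filter_upwards [h2, eventually_ge_atTop 1] with x hx hx1
  have hx1' : (1 : ℝ) ≤ x := by exact_mod_cast hx1
  have hl0 : 0 ≤ Real.log x := Real.log_nonneg hx1'
  simp only [Function.comp_apply, Real.norm_eq_abs, one_mul] at hx
  rw [abs_of_nonneg hl0, abs_of_nonneg (Real.rpow_nonneg (by linarith) _)] at hx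
  refine le_trans ?_ hx
  unfold zz
  refine (Nat.floor_le (by positivity)).trans (div_le_self hl0 ?_)
  have : (0 : ℝ) ≤ r := Nat.cast_nonneg r
  linarith

lemma ev_pow (s : ℕ) {δ ε : ℝ} (hδ : 0 < δ) (hε : 0 < ε) : ∀ᶠ x : ℕ in atTop,
    (x : ℝ) ^ (1 - δ) ≤ ε * (x / Real.log x ^ s) := by
  have h1 := isLittleO_log_rpow_rpow_atTop (s : ℝ) hδ
  have h2 := (h1.comp_tendsto tendsto_natCast_atTop_atTop).bound hε
  filter_upwards [h2, eventually_ge_atTop 2] with x hx hx1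
  have hx1' : (1 : ℝ) < x := by exact_mod_cast (by omega : 1 < x)
  have hx0 : (0 : ℝ) < x := by linarith
  have hl0 : 0 < Real.log x := Real.log_pos hx1'
  simp only [Function.comp_apply, Real.norm_eq_abs] at hx
  rw [Real.rpow_natCast, abs_of_nonneg (by positivity),
    abs_of_nonneg (Real.rpow_nonneg hx0.le _)] at hx
  rw [← mul_div_assoc, le_div_iff₀ (by positivity)]
  calc (x : ℝ) ^ (1 - δ) * Real.log x ^ s ≤ (x : ℝ) ^ (1 - δ) * (ε * (x : ℝ) ^ δ) :=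
        mul_le_mul_of_nonneg_left hx (Real.rpow_nonneg hx0.le _)
    _ = ε * ((x : ℝ) ^ (1 - δ) * (x : ℝ) ^ δ) := by ring
    _ = ε * x := by
        rw [← Real.rpow_add hx0]
        norm_num

lemma inv_le {δ : ℝ} (hδ : 0 ≤ δ) (hδ1 : δ ≤ 1 / 2) : (1 - δ)⁻¹ ≤ 1 + 2 * δ := by
  rw [inv_le_comm₀ (by linarith) (by linarith), inv_le_iff_one_le_mul₀ (by linarith)]
  nlinarith

lemma bb_pd {k x : ℕ} (hL : Real.log x ≠ 0) (t : Fin (k + 2) → ℕ) :
    bb (k + 2) x ^ (k + 1) * ((Real.log x)⁻¹ * (x * pd (zz (k + 2) x) t)) =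
      (x / Real.log x ^ (k + 2)) * SZ (zz (k + 2) x) t := by
  have hD := (DZ_pos (zz (k + 2) x)).ne'
  rw [pd_eq, SZ_eq, Fintype.card_fin]
  unfold bb
  rw [mul_inv, mul_pow, div_eq_mul_inv (x : ℝ), ← inv_pow (Real.log (x : ℝ))]
  ring

lemma pd_const (z a : ℕ) (k : ℕ) : pd z (fun _ : Fin (k + 2) => a) = 1 := by
  unfold pd
  refine prod_eq_one fun p _ => ?_
  have : nuI (fun _ : Fin (k + 2) => a) p = 1 := by
    unfold nuI
    rw [Finset.image_const (Finset.univ_nonempty), card_singleton]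
  rw [this]
  simp

end UpAux

open UpAux

theorem up_one (k K0 : ℕ) {ε : ℝ} (hε : 0 < ε) : ∀ᶠ x : ℕ in atTop, ∀ A : Finset ℕ,
    (∀ a ∈ A, (a : ℝ) ≤ x * Real.log x ^ K0) →
    ∑ n ∈ Icc 1 x, (∑ a ∈ A, ip (n + a)) *
        (bb (k + 2) x * ∑ a ∈ A, ic (zz (k + 2) x) (n + a)) ^ (k + 1) ≤
      (1 + ε) * ((x / Real.log x ^ (k + 2)) * GW (k + 2) (zz (k + 2) x) A (fun _ => 1)) := by
  set δ : ℝ := min (ε / 8) (1 / 4) with hδdef
  have hδ0 : 0 < δ := lt_min (by positivity) (by norm_num)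
  have hδ1 : δ ≤ 1 / 4 := min_le_right _ _
  have hδε : δ ≤ ε / 8 := min_le_left _ _
  have hinv := inv_le hδ0.le (by linarith)
  have hinv0 : 0 < (1 - δ)⁻¹ := inv_pos.2 (by linarith)
  have hlog : ∀ᶠ x : ℕ in atTop, max 1 (8 / ε) ≤ Real.log x :=
    (Real.tendsto_log_atTop.comp tendsto_natCast_atTop_atTop).eventually_ge_atTop _
  filter_upwards [cross1 (k + 2) k K0 (k + 2), ev_z (k + 2) (δ := δ) (by linarith),
    ev_pow (k + 2) hδ0 (ε := ε / 4) (by positivity), bb_le_one (k + 2), hlog,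
    eventually_ge_atTop 2] with x hcr hz hpow hbb hL hx2 A hA
  have hx1 : (1 : ℝ) < x := by exact_mod_cast (by omega : 1 < x)
  have hL1 : 1 ≤ Real.log x := (le_max_left _ _).trans hL
  have hLε : 8 / ε ≤ Real.log x := (le_max_right _ _).trans hL
  have hL0 : 0 < Real.log x := by linarith
  have hb0 : 0 ≤ bb (k + 2) x := by
    unfold bb
    exact inv_nonneg.2 (mul_nonneg (DZ_pos _).le hL0.le)
  have hbp : bb (k + 2) x ^ (k + 1) ≤ 1 := pow_le_one₀ hb0 hbb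
  have hbp0 : 0 ≤ bb (k + 2) x ^ (k + 1) := pow_nonneg hb0 _
  set X : ℝ := x / Real.log x ^ (k + 2) with hX
  have hX0 : 0 < X := by positivity
  -- every tuple
  have hone : ∀ t ∈ Fintype.piFinset (fun _ : Fin (k + 2) => A), bb (k + 2) x ^ (k + 1) *
        ∑ n ∈ Icc 1 x, ip (n + t 0) * ∏ i ∈ univ.erase (0 : Fin (k + 2)),
          ic (zz (k + 2) x) (n + t i) ≤
      (1 - δ)⁻¹ * (X * SZ (zz (k + 2) x) t) + (ε / 2) * X := by
    intro t ht
    have hmem := Fintype.mem_piFinset.mp ht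
    have h1 := hcr t (hA _ (hmem 0))
    have h2 := S_le (δ := δ) (by linarith) (by omega : 1 < x) hz (t 0)
      (fun n => ∏ i ∈ univ.erase (0 : Fin (k + 2)), ic (zz (k + 2) x) (n + t i))
      (fun n => ⟨prod_nonneg fun i _ => ic_nonneg _ _,
        prod_le_one (fun i _ => ic_nonneg _ _) fun i _ => ic_le_one _ _⟩)
    have h3 : ∀ n ∈ Icc 1 x, (ic (zz (k + 2) x) (n + t 0) *
        ∏ i ∈ univ.erase (0 : Fin (k + 2)), ic (zz (k + 2) x) (n + t i)) *
          (ip (n + t 0) * Real.log ((n + t 0 : ℕ) : ℝ)) =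
        (∏ i, ic (zz (k + 2) x) (n + t i)) * (ip (n + t 0) * Real.log ((n + t 0 : ℕ) : ℝ)) := by
      intro n _
      rw [Finset.mul_prod_erase univ (fun i => ic (zz (k + 2) x) (n + t i))
        (mem_univ (0 : Fin (k + 2)))]
    rw [sum_congr rfl h3] at h2
    have h4 : ∑ n ∈ Icc 1 x, (∏ i, ic (zz (k + 2) x) (n + t i)) *
        (ip (n + t 0) * Real.log ((n + t 0 : ℕ) : ℝ)) ≤ x * pd (zz (k + 2) x) t + X := by
      have := (abs_le.1 h1).2
      linarith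
    have hc : 0 ≤ (1 - δ)⁻¹ * (Real.log x)⁻¹ :=
      mul_nonneg hinv0.le (inv_nonneg.2 hL0.le)
    have h5 := h2.trans (add_le_add (mul_le_mul_of_nonneg_left h4 hc) hpow)
    have h6 := mul_le_mul_of_nonneg_left h5 hbp0
    refine h6.trans ?_
    have h7 := bb_pd (x := x) hL0.ne' t
    have h8 : bb (k + 2) x ^ (k + 1) * ((1 - δ)⁻¹ * (Real.log x)⁻¹ *
        (x * pd (zz (k + 2) x) t + X) + ε / 4 * X) =
        (1 - δ)⁻¹ * (bb (k + 2) x ^ (k + 1) * ((Real.log x)⁻¹ * (x * pd (zz (k + 2) x) t))) +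
        bb (k + 2) x ^ (k + 1) * ((1 - δ)⁻¹ * (Real.log x)⁻¹ * X + ε / 4 * X) := by ring
    rw [h8, h7]
    refine add_le_add le_rfl ?_
    have h9 : (1 - δ)⁻¹ * (Real.log x)⁻¹ ≤ ε / 4 := by
      have h10 : (Real.log x)⁻¹ ≤ ε / 8 := by
        rw [inv_le_comm₀ hL0 (by positivity), inv_div]
        exact hLε
      have h11 : (1 - δ)⁻¹ ≤ 2 := by linarith
      calc (1 - δ)⁻¹ * (Real.log x)⁻¹ ≤ 2 * (ε / 8) :=
            mul_le_mul h11 h10 (inv_nonneg.2 hL0.le) (by norm_num)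
        _ = ε / 4 := by ring
    have h12 : (1 - δ)⁻¹ * (Real.log x)⁻¹ * X + ε / 4 * X ≤ ε / 2 * X := by
      have := mul_le_mul_of_nonneg_right h9 hX0.le
      linarith
    have h13 : 0 ≤ (1 - δ)⁻¹ * (Real.log x)⁻¹ * X + ε / 4 * X := by positivity
    calc bb (k + 2) x ^ (k + 1) * ((1 - δ)⁻¹ * (Real.log x)⁻¹ * X + ε / 4 * X)
        ≤ 1 * ((1 - δ)⁻¹ * (Real.log x)⁻¹ * X + ε / 4 * X) :=
          mul_le_mul_of_nonneg_right hbp h13
      _ ≤ _ := by rw [one_mul]; exact h12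
  rw [expand]
  refine (sum_le_sum hone).trans ?_
  have hG : ∑ t ∈ Fintype.piFinset (fun _ : Fin (k + 2) => A), SZ (zz (k + 2) x) t =
      GW (k + 2) (zz (k + 2) x) A (fun _ => 1) := by
    unfold GW
    refine sum_congr rfl fun t _ => ?_
    simp
  have hcard : ((Fintype.piFinset (fun _ : Fin (k + 2) => A)).card : ℝ) ≤
      GW (k + 2) (zz (k + 2) x) A (fun _ => 1) := by
    have := Pool.Agent.Lib.MQ.card_pow_le_GW (k + 2) (zz (k + 2) x) (by omega) A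
    rw [Fintype.card_piFinset_const]
    push_cast
    exact this
  rw [sum_add_distrib, ← mul_sum, ← mul_sum, hG, sum_const, nsmul_eq_mul]
  set G := GW (k + 2) (zz (k + 2) x) A (fun _ => 1) with hGdef
  have hG0 : 0 ≤ G := GW_nonneg _ _ _ _ fun _ _ => zero_le_one
  have h14 : ((Fintype.piFinset (fun _ : Fin (k + 2) => A)).card : ℝ) * (ε / 2 * X) ≤
      G * (ε / 2 * X) := mul_le_mul_of_nonneg_right hcard (by positivity)
  have h15 : (1 - δ)⁻¹ * (X * G) ≤ (1 + ε / 4) * (X * G) :=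
    mul_le_mul_of_nonneg_right (by linarith) (by positivity)
  have h16 : 0 ≤ X * G := by positivity
  nlinarith

theorem up_zero (K0 : ℕ) {ε : ℝ} (hε : 0 < ε) : ∀ᶠ x : ℕ in atTop, ∀ A : Finset ℕ,
    (∀ a ∈ A, (a : ℝ) ≤ x * Real.log x ^ K0) →
    ∑ n ∈ Icc 1 x, ∑ a ∈ A, ip (n + a) ≤ (1 + ε) * (x * (A.card / Real.log x)) := by
  set δ : ℝ := min (ε / 8) (1 / 4) with hδdef
  have hδ0 : 0 < δ := lt_min (by positivity) (by norm_num)
  have hδ1 : δ ≤ 1 / 4 := min_le_right _ _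
  have hδε : δ ≤ ε / 8 := min_le_left _ _
  have hinv := inv_le hδ0.le (by linarith)
  have hinv0 : 0 < (1 - δ)⁻¹ := inv_pos.2 (by linarith)
  have hlog : ∀ᶠ x : ℕ in atTop, max 1 (8 / ε) ≤ Real.log x :=
    (Real.tendsto_log_atTop.comp tendsto_natCast_atTop_atTop).eventually_ge_atTop _
  filter_upwards [cross1 2 0 K0 1, ev_z 2 (δ := δ) (by linarith),
    ev_pow 1 hδ0 (ε := ε / 4) (by positivity), hlog,
    eventually_ge_atTop 2] with x hcr hz hpow hL hx2 A hA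
  have hx1 : (1 : ℝ) < x := by exact_mod_cast (by omega : 1 < x)
  have hL1 : 1 ≤ Real.log x := (le_max_left _ _).trans hL
  have hLε : 8 / ε ≤ Real.log x := (le_max_right _ _).trans hL
  have hL0 : 0 < Real.log x := by linarith
  rw [pow_one] at hpow
  set X : ℝ := x / Real.log x with hX
  have hX0 : 0 < X := by positivity
  have hone : ∀ a ∈ A, ∑ n ∈ Icc 1 x, ip (n + a) ≤ (1 + ε) * X := by
    intro a ha
    have h1 := hcr (fun _ => a) (hA a ha)
    rw [pd_const, mul_one, pow_one] at h1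
    have h2 := S_le (δ := δ) (by linarith) (by omega : 1 < x) hz a
      (fun n => 1) (fun n => ⟨zero_le_one, le_rfl⟩)
    simp only [mul_one] at h2
    have h3 : ∀ n ∈ Icc 1 x, (∏ i : Fin (0 + 2), ic (zz 2 x) (n + a)) *
          (ip (n + a) * Real.log ((n + a : ℕ) : ℝ)) =
        ic (zz 2 x) (n + a) * (ip (n + a) * Real.log ((n + a : ℕ) : ℝ)) := by
      intro n _
      rw [prod_const, card_univ, Fintype.card_fin]
      congr 1
      unfold ic
      split_ifs <;> simp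
    rw [sum_congr rfl h3] at h1
    have h4 : ∑ n ∈ Icc 1 x, ic (zz 2 x) (n + a) *
        (ip (n + a) * Real.log ((n + a : ℕ) : ℝ)) ≤ x + X := by
      have := (abs_le.1 h1).2
      linarith
    have hc : 0 ≤ (1 - δ)⁻¹ * (Real.log x)⁻¹ :=
      mul_nonneg hinv0.le (inv_nonneg.2 hL0.le)
    refine (h2.trans (add_le_add (mul_le_mul_of_nonneg_left h4 hc) hpow)).trans ?_
    have h8 : (1 - δ)⁻¹ * (Real.log x)⁻¹ * (x + X) + ε / 4 * X =
        (1 - δ)⁻¹ * X + ((1 - δ)⁻¹ * (Real.log x)⁻¹ * X + ε / 4 * X) := by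
      rw [hX]
      ring
    rw [h8]
    have h9 : (1 - δ)⁻¹ * (Real.log x)⁻¹ ≤ ε / 4 := by
      have h10 : (Real.log x)⁻¹ ≤ ε / 8 := by
        rw [inv_le_comm₀ hL0 (by positivity), inv_div]
        exact hLε
      have h11 : (1 - δ)⁻¹ ≤ 2 := by linarith
      calc (1 - δ)⁻¹ * (Real.log x)⁻¹ ≤ 2 * (ε / 8) :=
            mul_le_mul h11 h10 (inv_nonneg.2 hL0.le) (by norm_num)
        _ = ε / 4 := by ring
    have h12 := mul_le_mul_of_nonneg_right h9 hX0.le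
    have h13 : (1 - δ)⁻¹ * X ≤ (1 + ε / 4) * X :=
      mul_le_mul_of_nonneg_right (by linarith) hX0.le
    nlinarith
  rw [sum_comm]
  refine (sum_le_sum hone).trans (le_of_eq ?_)
  rw [sum_const, nsmul_eq_mul, hX]
  ring

end Pool.Agent.EV2
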