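import Pool.Agent.Lib.EV2.Sq
import Pool.Agent.Lib.EV2.Up
import Pool.Agent.Lib.EV2.GWm
import Pool.Agent.Lib.EV2.Alg

/-!
# The r-th factorial moment of the number of primes, Bombieri-Davenport constant
-/

set_option autoImplicit false

open Finset Filter

namespace Pool.Agent.EV2

open Pool.Agent.HL Pool.Agent.HLB Pool.Agent.Lib.MQ

theorem sharp_lower2 (r : ℕ) (hr : 2 ≤ r) (K0 : ℕ) {ε : ℝ} (hε : 0 < ε) :
    ∀ᶠ x : ℕ in atTop, ∀ A : Finset ℕ, (∀ a ∈ A, (a : ℝ) ≤ x * Real.log x ^ K0) →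
      A.Nonempty →
      (gprod r (A.card / Real.log x) - ε) *
          ((x / Real.log x ^ r) * GW r (zz r x) A (fun _ => 1))
        ≤ ∑ a ∈ injTuples r A, (cnt a x : ℝ) := by
  obtain ⟨k, rfl⟩ : ∃ k, r = k + 2 := ⟨r - 2, by omega⟩
  obtain ⟨C, hC, halg⟩ := alg k
  set δ : ℝ := min (ε / C) (1 / 2) with hδ
  have hδ0 : 0 < δ := lt_min (by positivity) (by norm_num)
  have hδ2 : δ ≤ 1 / 2 := min_le_right _ _
  have hCδ : C * δ ≤ ε := by
    calc C * δ ≤ C * (ε / C) := mul_le_mul_of_nonneg_left (min_le_left _ _) hC.le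
      _ = ε := by field_simp
  filter_upwards [sq_lower k K0 hδ0, up_one k K0 hδ0, up_zero K0 hδ0,
    eventually_ge_atTop 2] with x h2 h1 h0 hx A hA hAne
  have hxpos : (0:ℝ) < x := by exact_mod_cast (by omega : 0 < x)
  have hLpos : 0 < Real.log x := Real.log_pos (by exact_mod_cast (by omega : 1 < x))
  have hcard : (0:ℝ) < A.card := by exact_mod_cast hAne.card_pos
  set L := Real.log x with hL
  set z := zz (k + 2) x with hz
  set l : ℝ := A.card / L with hl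
  have hl0 : 0 < l := by positivity
  set G : ℝ := (x / L ^ (k + 2)) * GW (k + 2) z A (fun _ => 1) with hG
  set G' : ℝ := (x / L ^ (k + 1)) * GW (k + 1) z A (fun _ => 1) with hG'
  have hpd2 := card_pow_le_GW (k + 2) z (by omega) A
  have hpd1 := card_pow_le_GW (k + 1) z (by omega) A
  have hmono := GW_mono (k + 1) z A
  have hGl : x * l ^ (k + 2) ≤ G := by
    rw [hG, hl, div_pow]
    calc (x:ℝ) * ((A.card:ℝ) ^ (k + 2) / L ^ (k + 2)) = x / L ^ (k + 2) * (A.card:ℝ) ^ (k + 2) := by ring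
      _ ≤ _ := mul_le_mul_of_nonneg_left hpd2 (by positivity)
  have hG'l : x * l ^ (k + 1) ≤ G' := by
    rw [hG', hl, div_pow]
    calc (x:ℝ) * ((A.card:ℝ) ^ (k + 1) / L ^ (k + 1)) = x / L ^ (k + 1) * (A.card:ℝ) ^ (k + 1) := by ring
      _ ≤ _ := mul_le_mul_of_nonneg_left hpd1 (by positivity)
  have hlG : l * G' ≤ G := by
    rw [hG, hG', hl]
    calc (A.card:ℝ) / L * (x / L ^ (k + 1) * GW (k + 1) z A (fun _ => 1))
        = x / L ^ (k + 2) * ((A.card:ℝ) * GW (k + 1) z A (fun _ => 1)) := by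
          rw [pow_succ L (k + 1)]
          field_simp
      _ ≤ _ := mul_le_mul_of_nonneg_left hmono (by positivity)
  have hG0 : 0 ≤ G := le_trans (by positivity) hGl
  have hb0 : 0 ≤ bb (k + 2) x := by
    unfold bb
    exact inv_nonneg.mpr (mul_nonneg (DZ_pos _).le hLpos.le)
  have h3 := halg (Icc 1 x) (fun n => ∑ a ∈ A, ip (n + a))
    (fun n => bb (k + 2) x * ∑ a ∈ A, ic z (n + a)) x l G G' δ
    (fun n _ => Finset.sum_nonneg fun a _ => ip_nonneg _)
    (fun n _ => mul_nonneg hb0 (Finset.sum_nonneg fun a _ => ic_nonneg _ _))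
    hxpos.le hl0 hδ0.le hδ2 (h0 A hA) (h1 A hA) (h2 A hA) hGl hG'l hlG
  have h4 : ∑ n ∈ Icc 1 x, fall (k + 2) (∑ a ∈ A, ip (n + a)) ≤
      ∑ a ∈ injTuples (k + 2) A, (cnt a x : ℝ) := by
    rw [sum_cnt_eq]
    exact Finset.sum_le_sum fun n _ =>
      fall_le_inj (k + 2) A (fun a => ip (n + a)) (fun a _ => ⟨ip_nonneg _, ip_le_one _⟩)
  refine le_trans ?_ (h3.trans h4)
  exact mul_le_mul_of_nonneg_right (by linarith only [hCδ]) hG0

end Pool.Agent.EV2
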