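import Pool.Agent.Lib.EV2.CrossAs
import Pool.Agent.Lib.EV2.DiagAs
import Pool.Agent.Lib.EV2.SRl
import Pool.Agent.Lib.EV2.SR0
import Pool.Agent.Lib.MQ.Sharp

/-!
MODULE EV2.Sq (2.5 h).  The weighted second moment (Bombieri-Davenport for every set of shifts).

NOTATION.  L = log x, r = k + 2, z = zz r x, b = bb r x = 1/(DZ z L), G = GW (k+2) z A 1, G' = GW (k+1) z A 1,
η > 0 small (η = min(ε/16, 1/8)), R = ⌊x^(1/2-η)⌋₊ ≥ 1, M = k + 8,
th n a = ic z (n+a) ip (n+a) log (n+a), mo n a = ic z (n+a) (DZ z)⁻¹ lamS z R (n+a),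
W n = (b ∑_{a ∈ A} ic z (n+a))^k ≥ 0.
PROOF.
(1) 0 ≤ ∑_{n ≤ x} W n (∑_{a ∈ A} (th n a - mo n a))², so
∑ W (∑ th)² ≥ 2 ∑ W (∑ th) (∑ mo) - ∑ W (∑ mo)².
(2) Expand over the tuples t : Fin (k+2) → A (`sum_pi_prod`, first two entries for the two sums, the other k
for W; compare e2 in `sum_NB_ge2`, HLD/T1Lower2.lean; ic is idempotent, so multiplying by
ic z (n + t 0) ic z (n + t 1) is harmless): the right side is
∑_t b^k [2 (DZ)⁻¹ CS(t) - (DZ)⁻² DS(t)], CS, DS the sums in `cross_as` and `diag_as`.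
(3) CS(t) ≥ x pd z t SR - x/L^M, DS(t) ≤ x dd z t SR + x/L^M, pd = dd/DZ (`pd_eq`), SZ z t = dd (DZ)^(-(k+2))
(`SZ_eq`): the right side is ≥ ∑_t [(x/L^k) SZ z t SR z R (t 0 - t 1) - b^k (2 (DZ)⁻¹ + (DZ)⁻²) x/L^M], and
(DZ)⁻¹ ≤ L (`DZ_lower`, z ≤ L), b ≤ 1 (`bb_le_one`): the errors are ≤ |A|^(k+2) 3 L² x/L^M.
(4) t 0 ≠ t 1: SR ≥ 1 - ε/8 (`SR_lower`, z → ∞).  t 0 = t 1: SR z R 0 ≥ DZ z log R (`SR_zero`), and
SZ z t = (DZ)⁻¹ SZ z (fun i => t i.succ) (same set of residues: nuI equal; one more factor (1-1/p)⁻¹), so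
∑_{t 0 = t 1} SZ z t = (DZ)⁻¹ G'.  Hence ∑_t SZ z t SR ≥ (1 - ε/8) (G - (DZ)⁻¹ G') + log R G'
≥ (1 - ε/8) G + (log R - (DZ)⁻¹) G', log R ≥ (1/2 - 2η) L, (DZ)⁻¹ ≤ C log L ≤ (ε/16) L (`DZ_lower`).
(5) |A|^(k+2) ≤ G (`card_pow_le_GW`), so the errors of (3) are ≤ (3/L²) (x/L^k) G.
(6) th n a ≤ log(2 x L^K0) ip (n+a) ≤ (1 + ε/16) L ip (n+a), so ∑ W (∑ th)² ≤ (1+ε/16)² L² ∑_n W N².
Divide by (1+ε/16)² L² (≥ ... factor 1 - ε/8).
-/

set_option autoImplicit false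

open Finset Filter

namespace Pool.Agent.EV2

open Pool.Agent.HLB

namespace SqAux

lemma expand2 (k : ℕ) (A : Finset ℕ) (u f g : ℕ → ℝ) :
    ∑ t ∈ Fintype.piFinset (fun _ : Fin (k + 2) => A), (∏ i, u (t i)) * f (t 0) * g (t 1) =
      (∑ a ∈ A, u a * f a) * (∑ a ∈ A, u a * g a) * (∑ a ∈ A, u a) ^ k := by
  have h1 : ∀ t ∈ Fintype.piFinset (fun _ : Fin (k + 2) => A),
      (∏ i, u (t i)) * f (t 0) * g (t 1) =
        ∏ i : Fin (k + 2), (u (t i) * (if i = 0 then f (t i) else if i = 1 then g (t i) else 1)) := by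
    intro t _
    have hif : ∏ i : Fin (k + 2), (if i = 0 then f (t i) else if i = 1 then g (t i) else 1) =
        f (t 0) * g (t 1) := by
      rw [Fin.prod_univ_succ, Fin.prod_univ_succ]
      have h2 : ∏ i : Fin k, (if (i.succ.succ : Fin (k + 2)) = 0 then f (t i.succ.succ)
          else if (i.succ.succ : Fin (k + 2)) = 1 then g (t i.succ.succ) else 1) = 1 := by
        refine Finset.prod_eq_one fun i _ => ?_
        rw [if_neg (Fin.succ_ne_zero _), if_neg]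
        intro h
        have h' : i.succ = (0 : Fin (k + 1)) := Fin.succ_injective _ (by rw [h]; rfl)
        exact Fin.succ_ne_zero _ h'
      rw [h2, if_pos rfl, if_neg (Fin.succ_ne_zero _)]
      have h3 : (Fin.succ (0 : Fin (k + 1))) = (1 : Fin (k + 2)) := rfl
      rw [h3, if_pos rfl]
      ring
    rw [Finset.prod_mul_distrib, hif]
    ring
  rw [Finset.sum_congr rfl h1]
  have h4 := sum_pi_prod (k + 2) A
    (fun i a => u a * (if i = 0 then f a else if i = 1 then g a else 1))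
  rw [h4, Fin.prod_univ_succ, Fin.prod_univ_succ]
  have h5 : ∀ i : Fin k, (∑ a ∈ A, u a * (if (i.succ.succ : Fin (k + 2)) = 0 then f a
        else if (i.succ.succ : Fin (k + 2)) = 1 then g a else 1)) = ∑ a ∈ A, u a := by
    intro i
    refine Finset.sum_congr rfl fun a _ => ?_
    rw [if_neg (Fin.succ_ne_zero _), if_neg, mul_one]
    intro h
    have h' : i.succ = (0 : Fin (k + 1)) := Fin.succ_injective _ (by rw [h]; rfl)
    exact Fin.succ_ne_zero _ h'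
  simp only [h5, Finset.prod_const, card_univ, Fintype.card_fin]
  have h3 : (Fin.succ (0 : Fin (k + 1))) = (1 : Fin (k + 2)) := rfl
  have h6 : (1 : Fin (k + 2)) ≠ 0 := by
    rw [← h3]
    exact Fin.succ_ne_zero _
  simp only [h3, if_true, if_neg h6]
  ring

lemma nuI_tail {k : ℕ} (t : Fin (k + 2) → ℕ) (h : t 0 = t 1) (p : ℕ) :
    nuI t p = nuI (fun i : Fin (k + 1) => t i.succ) p := by
  unfold nuI
  congr 1
  ext x
  rw [mem_image, mem_image]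
  constructor
  · rintro ⟨i, -, hi⟩
    refine Fin.cases (fun hi => ⟨0, mem_univ _, ?_⟩) (fun j hi => ⟨j, mem_univ _, hi⟩) i hi
    rw [← hi, h]
    rfl
  · rintro ⟨i, -, hi⟩
    exact ⟨i.succ, mem_univ _, hi⟩

lemma SZ_tail (z : ℕ) {k : ℕ} (t : Fin (k + 2) → ℕ) (h : t 0 = t 1) :
    SZ z t = (DZ z)⁻¹ * SZ z (fun i : Fin (k + 1) => t i.succ) := by
  unfold SZ DZ
  rw [← prod_inv_distrib, ← prod_mul_distrib]
  refine prod_congr rfl fun p _ => ?_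
  unfold locI
  rw [nuI_tail t h, Fintype.card_fin, Fintype.card_fin, pow_succ _ (k + 1)]
  ring

lemma sum_diag {k : ℕ} (A : Finset ℕ) (F : (Fin (k + 1) → ℕ) → ℝ) :
    ∑ t ∈ (Fintype.piFinset (fun _ : Fin (k + 2) => A)).filter (fun t => t 0 = t 1),
      F (fun i => t i.succ) = ∑ s ∈ Fintype.piFinset (fun _ : Fin (k + 1) => A), F s := by
  refine Finset.sum_bij' (fun t _ => fun i => t i.succ) (fun s _ => Fin.cons (s 0) s) ?_ ?_ ?_ ?_ ?_
  · intro t ht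
    rw [mem_filter, Fintype.mem_piFinset] at ht
    rw [Fintype.mem_piFinset]
    exact fun i => ht.1 _
  · intro s hs
    rw [Fintype.mem_piFinset] at hs
    rw [mem_filter, Fintype.mem_piFinset]
    constructor
    · intro i
      refine Fin.cases ?_ (fun j => ?_) i
      · exact hs 0
      · exact hs j
    · rfl
  · intro t ht
    rw [mem_filter] at ht
    funext i
    refine Fin.cases ?_ (fun j => ?_) i
    · exact ht.2.symm
    · rfl
  · intro s _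
    rfl
  · intro t _
    rfl

lemma GW_one (r z : ℕ) (A : Finset ℕ) :
    GW r z A (fun _ => 1) = ∑ t ∈ Fintype.piFinset (fun _ : Fin r => A), SZ z t := by
  unfold GW
  refine Finset.sum_congr rfl fun t _ => ?_
  rw [Finset.prod_const_one, one_mul]

lemma sing_sum (k z R : ℕ) (A : Finset ℕ) {δ : ℝ} (hδ : 0 ≤ δ) (h1 : ∀ h : ℤ, 1 - δ ≤ SR z R h)
    (h0 : DZ z * Real.log R ≤ SR z R 0) :
    (1 - δ) * GW (k + 2) z A (fun _ => 1) +
      (Real.log R - (DZ z)⁻¹) * GW (k + 1) z A (fun _ => 1) ≤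
    ∑ t ∈ Fintype.piFinset (fun _ : Fin (k + 2) => A), SZ z t * SR z R ((t 0 : ℤ) - t 1) := by
  classical
  have hD := DZ_pos z
  have hG' : 0 ≤ GW (k + 1) z A (fun _ => 1) := GW_nonneg _ _ _ _ fun _ _ => zero_le_one
  have hdiag : ∑ t ∈ (Fintype.piFinset (fun _ : Fin (k + 2) => A)).filter (fun t => t 0 = t 1),
      SZ z t = (DZ z)⁻¹ * GW (k + 1) z A (fun _ => 1) := by
    rw [GW_one, ← sum_diag A (fun s => SZ z s), Finset.mul_sum]
    refine Finset.sum_congr rfl fun t ht => ?_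
    exact SZ_tail z t (mem_filter.1 ht).2
  have hsplit := Finset.sum_filter_add_sum_filter_not (Fintype.piFinset (fun _ : Fin (k + 2) => A))
    (fun t => t 0 = t 1) (fun t => SZ z t * SR z R ((t 0 : ℤ) - t 1))
  have hsplit2 := Finset.sum_filter_add_sum_filter_not (Fintype.piFinset (fun _ : Fin (k + 2) => A))
    (fun t => t 0 = t 1) (fun t => SZ z t)
  rw [← GW_one, hdiag] at hsplit2
  have e1 : (DZ z * Real.log R) * ((DZ z)⁻¹ * GW (k + 1) z A (fun _ => 1)) ≤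
      ∑ t ∈ (Fintype.piFinset (fun _ : Fin (k + 2) => A)).filter (fun t => t 0 = t 1),
        SZ z t * SR z R ((t 0 : ℤ) - t 1) := by
    rw [← hdiag, Finset.mul_sum]
    refine Finset.sum_le_sum fun t ht => ?_
    have h2 : ((t 0 : ℤ) - t 1) = 0 := by
      rw [(mem_filter.1 ht).2, sub_self]
    rw [h2, mul_comm]
    exact mul_le_mul_of_nonneg_left h0 (SZ_nonneg z t)
  have e2 : (1 - δ) * ∑ t ∈ (Fintype.piFinset (fun _ : Fin (k + 2) => A)).filter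
      (fun t => ¬ t 0 = t 1), SZ z t ≤
      ∑ t ∈ (Fintype.piFinset (fun _ : Fin (k + 2) => A)).filter (fun t => ¬ t 0 = t 1),
        SZ z t * SR z R ((t 0 : ℤ) - t 1) := by
    rw [Finset.mul_sum]
    refine Finset.sum_le_sum fun t _ => ?_
    rw [mul_comm]
    exact mul_le_mul_of_nonneg_left (h1 _) (SZ_nonneg z t)
  have e3 : (DZ z * Real.log R) * ((DZ z)⁻¹ * GW (k + 1) z A (fun _ => 1)) =
      Real.log R * GW (k + 1) z A (fun _ => 1) := by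
    field_simp
  rw [e3] at e1
  rw [← hsplit]
  have e4 : 0 ≤ δ * ((DZ z)⁻¹ * GW (k + 1) z A (fun _ => 1)) := by positivity
  have e5 : ∑ t ∈ (Fintype.piFinset (fun _ : Fin (k + 2) => A)).filter
      (fun t => ¬ t 0 = t 1), SZ z t =
      GW (k + 2) z A (fun _ => 1) - (DZ z)⁻¹ * GW (k + 1) z A (fun _ => 1) := by
    rw [← hsplit2]
    ring
  rw [e5] at e2
  nlinarith

/-- the square, expanded over the tuples, for one `n` -/
lemma sq_point (k : ℕ) (A : Finset ℕ) (u f g : ℕ → ℝ) (b D : ℝ) (hb : 0 ≤ b)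
    (hu : ∀ a ∈ A, 0 ≤ u a) :
    2 * (b ^ k * D) * (∑ t ∈ Fintype.piFinset (fun _ : Fin (k + 2) => A),
        (∏ i, u (t i)) * f (t 0) * g (t 1)) -
      b ^ k * D ^ 2 * (∑ t ∈ Fintype.piFinset (fun _ : Fin (k + 2) => A),
        (∏ i, u (t i)) * g (t 0) * g (t 1)) ≤
    (∑ a ∈ A, u a * f a) ^ 2 * (b * ∑ a ∈ A, u a) ^ k := by
  rw [expand2, expand2, mul_pow]
  have h1 : 0 ≤ b ^ k * (∑ a ∈ A, u a) ^ k :=
    mul_nonneg (pow_nonneg hb k) (pow_nonneg (Finset.sum_nonneg hu) k)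
  have h2 := mul_nonneg h1 (sq_nonneg ((∑ a ∈ A, u a * f a) - D * ∑ a ∈ A, u a * g a))
  nlinarith [h2]

end SqAux

namespace SqAux

lemma step1 (k x z R : ℕ) (A : Finset ℕ) {L E δ b B : ℝ} (hL : 0 < L) (hδ : 0 ≤ δ)
    (hb : b = (DZ z * L)⁻¹) (hA : ∀ a ∈ A, (a : ℝ) ≤ B)
    (hC : ∀ t : Fin (k + 2) → ℕ, (t 0 : ℝ) ≤ B →
      |∑ n ∈ Icc 1 x, (∏ i, ic z (n + t i)) * (ip (n + t 0) * Real.log ((n + t 0 : ℕ) : ℝ)) *
        lamS z R (n + t 1) - x * pd z t * SR z R ((t 0 : ℤ) - t 1)| ≤ E)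
    (hDg : ∀ t : Fin (k + 2) → ℕ, ∑ n ∈ Icc 1 x, (∏ i, ic z (n + t i)) *
        (lamS z R (n + t 0) * lamS z R (n + t 1)) ≤
      x * dd z t * SR z R ((t 0 : ℤ) - t 1) + E)
    (h1 : ∀ h : ℤ, 1 - δ ≤ SR z R h) (h0 : DZ z * Real.log R ≤ SR z R 0) :
    (x / L ^ k) * ((1 - δ) * GW (k + 2) z A (fun _ => 1) +
        (Real.log R - (DZ z)⁻¹) * GW (k + 1) z A (fun _ => 1)) -
      b ^ k * (2 * (DZ z)⁻¹ + (DZ z)⁻¹ ^ 2) * E * (A.card : ℝ) ^ (k + 2) ≤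
    ∑ n ∈ Icc 1 x, (∑ a ∈ A, ic z (n + a) * (ip (n + a) * Real.log ((n + a : ℕ) : ℝ))) ^ 2 *
      (b * ∑ a ∈ A, ic z (n + a)) ^ k := by
  have hD := DZ_pos z
  have hb0 : 0 ≤ b := by
    rw [hb]
    positivity
  have hpt : ∀ n ∈ Icc 1 x, _ := fun n _ => sq_point k A (fun a => ic z (n + a))
    (fun a => ip (n + a) * Real.log ((n + a : ℕ) : ℝ)) (fun a => lamS z R (n + a)) b (DZ z)⁻¹ hb0
    (fun a _ => ic_nonneg z (n + a))
  refine le_trans ?_ (Finset.sum_le_sum hpt)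
  rw [Finset.sum_sub_distrib, ← Finset.mul_sum, ← Finset.mul_sum, Finset.sum_comm,
    Finset.sum_comm (s := Icc 1 x) (t := Fintype.piFinset (fun _ : Fin (k + 2) => A)),
    Finset.mul_sum, Finset.mul_sum, ← Finset.sum_sub_distrib]
  have hsing := sing_sum k z R A hδ h1 h0
  have hxL : 0 ≤ (x : ℝ) / L ^ k := by positivity
  have hcard : ((Fintype.piFinset (fun _ : Fin (k + 2) => A)).card : ℝ) = (A.card : ℝ) ^ (k + 2) := by
    rw [Fintype.card_piFinset_const]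
    push_cast
    ring
  have hterm : ∀ t ∈ Fintype.piFinset (fun _ : Fin (k + 2) => A),
      (x / L ^ k) * (SZ z t * SR z R ((t 0 : ℤ) - t 1)) -
        b ^ k * (2 * (DZ z)⁻¹ + (DZ z)⁻¹ ^ 2) * E ≤
      2 * (b ^ k * (DZ z)⁻¹) * (∑ n ∈ Icc 1 x, (∏ i, ic z (n + t i)) *
          (ip (n + t 0) * Real.log ((n + t 0 : ℕ) : ℝ)) * lamS z R (n + t 1)) -
        b ^ k * (DZ z)⁻¹ ^ 2 * (∑ n ∈ Icc 1 x, (∏ i, ic z (n + t i)) *
          lamS z R (n + t 0) * lamS z R (n + t 1)) := by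
    intro t ht
    have htA := Fintype.mem_piFinset.1 ht
    have e1 := (abs_le.1 (hC t (hA _ (htA 0)))).1
    have e2 := hDg t
    have e3 : ∑ n ∈ Icc 1 x, (∏ i, ic z (n + t i)) * lamS z R (n + t 0) * lamS z R (n + t 1) =
        ∑ n ∈ Icc 1 x, (∏ i, ic z (n + t i)) * (lamS z R (n + t 0) * lamS z R (n + t 1)) :=
      Finset.sum_congr rfl fun n _ => by ring
    rw [e3]
    obtain ⟨CS, hCS⟩ : ∃ CS : ℝ, CS = ∑ n ∈ Icc 1 x, (∏ i, ic z (n + t i)) *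
          (ip (n + t 0) * Real.log ((n + t 0 : ℕ) : ℝ)) * lamS z R (n + t 1) := ⟨_, rfl⟩
    obtain ⟨DS, hDS⟩ : ∃ DS : ℝ, DS = ∑ n ∈ Icc 1 x, (∏ i, ic z (n + t i)) *
          (lamS z R (n + t 0) * lamS z R (n + t 1)) := ⟨_, rfl⟩
    rw [← hCS] at e1 ⊢
    rw [← hDS] at e2 ⊢
    rw [pd_eq] at e1
    rw [SZ_eq, Fintype.card_fin]
    obtain ⟨S, hS⟩ : ∃ S : ℝ, S = SR z R ((t 0 : ℤ) - t 1) := ⟨_, rfl⟩
    rw [← hS] at e1 e2 ⊢
    have hDi : 0 < (DZ z)⁻¹ := inv_pos.2 hD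
    have hbk : b ^ k = (DZ z)⁻¹ ^ k / L ^ k := by
      rw [hb, mul_inv, mul_pow, inv_pow L, div_eq_mul_inv]
    have hbk0 : 0 ≤ b ^ k := pow_nonneg hb0 k
    have e4 : (x / L ^ k) * (dd z t * (DZ z)⁻¹ ^ (k + 2) * S) =
        b ^ k * (DZ z)⁻¹ ^ 2 * (x * dd z t * S) := by
      rw [hbk]
      ring
    rw [e4]
    have e5 : 2 * (b ^ k * (DZ z)⁻¹) * (x * (dd z t * (DZ z)⁻¹) * S - E) ≤
        2 * (b ^ k * (DZ z)⁻¹) * CS := by
      refine mul_le_mul_of_nonneg_left (by linarith) (by positivity)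
    have e6 : b ^ k * (DZ z)⁻¹ ^ 2 * DS ≤ b ^ k * (DZ z)⁻¹ ^ 2 * (x * dd z t * S + E) :=
      mul_le_mul_of_nonneg_left e2 (by positivity)
    nlinarith [e5, e6]
  refine le_trans ?_ (Finset.sum_le_sum hterm)
  rw [Finset.sum_sub_distrib, ← Finset.mul_sum, Finset.sum_const, nsmul_eq_mul, hcard]
  have e7 := mul_le_mul_of_nonneg_left hsing hxL
  nlinarith [e7]

lemma step2 (x : ℕ) (A : Finset ℕ) {z k : ℕ} {B b Lp : ℝ} (hb : 0 ≤ b)
    (hA : ∀ a ∈ A, (a : ℝ) ≤ B) (hLp : Real.log (x + B) ≤ Lp) :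
    ∑ n ∈ Icc 1 x, (∑ a ∈ A, ic z (n + a) * (ip (n + a) * Real.log ((n + a : ℕ) : ℝ))) ^ 2 *
      (b * ∑ a ∈ A, ic z (n + a)) ^ k ≤
    Lp ^ 2 * ∑ n ∈ Icc 1 x, (∑ a ∈ A, ip (n + a)) ^ 2 * (b * ∑ a ∈ A, ic z (n + a)) ^ k := by
  rw [Finset.mul_sum]
  refine Finset.sum_le_sum fun n hn => ?_
  have hn' := Finset.mem_Icc.1 hn
  have hY : 0 ≤ (b * ∑ a ∈ A, ic z (n + a)) ^ k :=
    pow_nonneg (mul_nonneg hb (Finset.sum_nonneg fun a _ => ic_nonneg _ _)) k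
  rw [← mul_assoc, ← mul_pow]
  refine mul_le_mul_of_nonneg_right ?_ hY
  have hlog0 : ∀ a : ℕ, 0 ≤ Real.log ((n + a : ℕ) : ℝ) := fun a => Real.log_natCast_nonneg _
  refine pow_le_pow_left₀ (Finset.sum_nonneg fun a _ => ?_) ?_ 2
  · exact mul_nonneg (ic_nonneg _ _) (mul_nonneg (ip_nonneg _) (hlog0 a))
  · rw [Finset.mul_sum]
    refine Finset.sum_le_sum fun a ha => ?_
    have h1 : Real.log ((n + a : ℕ) : ℝ) ≤ Lp := by
      refine le_trans (Real.log_le_log ?_ ?_) hLp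
      · exact_mod_cast (by omega : 0 < n + a)
      · have h2 : (n : ℝ) ≤ x := by exact_mod_cast hn'.2
        have h3 := hA a ha
        push_cast
        linarith
    calc ic z (n + a) * (ip (n + a) * Real.log ((n + a : ℕ) : ℝ))
        ≤ 1 * (ip (n + a) * Real.log ((n + a : ℕ) : ℝ)) :=
          mul_le_mul_of_nonneg_right (ic_le_one _ _) (mul_nonneg (ip_nonneg _) (hlog0 a))
      _ = Real.log ((n + a : ℕ) : ℝ) * ip (n + a) := by ring
      _ ≤ Lp * ip (n + a) := mul_le_mul_of_nonneg_right h1 (ip_nonneg _)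

lemma fin_alg {ε η L X G X' G' S S' Er lR Di Q : ℝ} (hε : 0 < ε) (hε1 : ε ≤ 1) (hη : η ≤ ε / 16)
    (hL : 0 < L) (hXG : 0 ≤ X * G) (hXG' : 0 ≤ X' * G') (hS : 0 ≤ S)
    (hQ1 : Q * G = (L ^ 2) * (X * G)) (hQ2 : Q * (L * G') = (L ^ 2) * (X' * G'))
    (hQG' : 0 ≤ Q * G')
    (h1 : Q * ((1 - ε / 8) * G + (lR - Di) * G') - Er ≤ S')
    (h2 : S' ≤ ((1 + ε / 16) * L) ^ 2 * S) (h3 : Er ≤ ε / 8 * (Q * G))
    (h4 : (1 / 2 - 2 * η) * L ≤ lR) (h5 : Di ≤ ε / 16 * L) :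
    (1 - ε) * (X * G) + (1 / 2 - ε) * (X' * G') ≤ S := by
  have h6 : (1 / 2 - 2 * η - ε / 16) * (Q * (L * G')) ≤ Q * ((lR - Di) * G') := by
    have h7 : (1 / 2 - 2 * η - ε / 16) * L ≤ lR - Di := by linarith
    have := mul_le_mul_of_nonneg_right h7 hQG'
    nlinarith
  have h8 : L ^ 2 * ((1 - ε / 4) * (X * G) + (1 / 2 - 3 * ε / 16) * (X' * G')) ≤
      L ^ 2 * ((1 + ε / 16) ^ 2 * S) := by
    have h9 : 0 ≤ L ^ 2 * (X' * G') := by positivity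
    have h10 : (1 / 2 - 3 * ε / 16) * (L ^ 2 * (X' * G')) ≤
        (1 / 2 - 2 * η - ε / 16) * (L ^ 2 * (X' * G')) :=
      mul_le_mul_of_nonneg_right (by linarith) h9
    rw [hQ2] at h6
    rw [hQ1] at h3
    have h11 : Q * ((1 - ε / 8) * G + (lR - Di) * G') =
        (1 - ε / 8) * (Q * G) + Q * ((lR - Di) * G') := by ring
    rw [h11, hQ1] at h1
    nlinarith
  have h12 := le_of_mul_le_mul_left h8 (by positivity)
  by_contra h13
  push Not at h13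
  have h14 : (1 + ε / 16) ^ 2 ≤ 1 + ε / 4 := by nlinarith
  have h15 : (1 + ε / 16) ^ 2 * S ≤ (1 + ε / 4) * S := mul_le_mul_of_nonneg_right h14 hS
  have h16 : (1 + ε / 4) * S < (1 + ε / 4) * ((1 - ε) * (X * G) + (1 / 2 - ε) * (X' * G')) :=
    mul_lt_mul_of_pos_left h13 (by linarith)
  have h17 : (1 + ε / 4) * (1 - ε) * (X * G) ≤ (1 - ε / 4) * (X * G) :=
    mul_le_mul_of_nonneg_right (by nlinarith) hXG
  have h18 : (1 + ε / 4) * (1 / 2 - ε) * (X' * G') ≤ (1 / 2 - 3 * ε / 16) * (X' * G') :=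
    mul_le_mul_of_nonneg_right (by nlinarith) hXG'
  nlinarith

end SqAux

theorem sq_lower_aux (k K0 : ℕ) {ε : ℝ} (hε : 0 < ε) (hε1 : ε ≤ 1) : ∀ᶠ x : ℕ in atTop,
    ∀ A : Finset ℕ, (∀ a ∈ A, (a : ℝ) ≤ x * Real.log x ^ K0) →
    (1 - ε) * ((x / Real.log x ^ (k + 2)) * GW (k + 2) (zz (k + 2) x) A (fun _ => 1)) +
      (1 / 2 - ε) * ((x / Real.log x ^ (k + 1)) * GW (k + 1) (zz (k + 2) x) A (fun _ => 1)) ≤
    ∑ n ∈ Icc 1 x, (∑ a ∈ A, ip (n + a)) ^ 2 *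
      (bb (k + 2) x * ∑ a ∈ A, ic (zz (k + 2) x) (n + a)) ^ k := by
  obtain ⟨η, hη⟩ : ∃ η : ℝ, η = ε / 16 := ⟨_, rfl⟩
  have hη0 : 0 < η := by rw [hη]; positivity
  have hη1 : η ≤ 1 / 4 := by rw [hη]; linarith
  obtain ⟨z₀, hz₀⟩ := SR_lower (ε := ε / 8) (by positivity)
  obtain ⟨c, hc, hDZ⟩ := Pool.Agent.Lib.MP.DZ_lower
  have hT : Tendsto (fun x : ℕ => Real.log x) atTop atTop :=
    Real.tendsto_log_atTop.comp tendsto_natCast_atTop_atTop
  have hlo : ∀ τ : ℝ, 0 < τ → ∀ᶠ x : ℕ in atTop, Real.log (Real.log x) ≤ τ * Real.log x := by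
    intro τ hτ
    have h1 := (Real.isLittleO_log_id_atTop).bound hτ
    have h2 := hT.eventually h1
    filter_upwards [h2, hT.eventually_ge_atTop 0] with x hx hx0
    rw [Real.norm_eq_abs, id, Real.norm_eq_abs, abs_of_nonneg hx0] at hx
    exact (le_abs_self _).trans hx
  have hz : ∀ᶠ x : ℕ in atTop, max z₀ 2 ≤ zz (k + 2) x := by
    filter_upwards [hT.eventually_ge_atTop
      (((max z₀ 2 : ℕ) : ℝ) * (2 * (((k + 2 : ℕ) : ℝ) + 1)))] with x hx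
    unfold zz
    refine Nat.le_floor ?_
    rw [le_div_iff₀ (by positivity)]
    exact hx
  filter_upwards [cross_as (k + 2) k K0 (k + 8) hη0 hη1, diag_as (k + 2) k (k + 8) hη0 hη1, hz,
    bb_le_one (k + 2), hT.eventually_ge_atTop 3, hT.eventually_ge_atTop (Real.log 2 / η),
    hT.eventually_ge_atTop (32 * Real.log 2 / ε), hT.eventually_ge_atTop (24 / ε),
    hlo (c * ε / 16) (by positivity), hlo (ε / (32 * ((K0 : ℝ) + 1))) (by positivity),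
    eventually_ge_atTop 3] with x hx1 hx2 hx3 hx4 hx5 hx6 hx7 hx8 hx9 hx10 hx11 A hA
  obtain ⟨L, hL⟩ : ∃ L : ℝ, L = Real.log x := ⟨_, rfl⟩
  obtain ⟨z, hzz⟩ : ∃ z : ℕ, z = zz (k + 2) x := ⟨_, rfl⟩
  obtain ⟨b, hb⟩ : ∃ b : ℝ, b = bb (k + 2) x := ⟨_, rfl⟩
  obtain ⟨R, hR⟩ : ∃ R : ℕ, R = ⌊(x : ℝ) ^ (1 / 2 - η)⌋₊ := ⟨_, rfl⟩
  rw [← hzz] at hx3
  have hxpos : (0 : ℝ) < x := by exact_mod_cast (by omega : 0 < x)
  have hx1' : (1 : ℝ) ≤ x := by exact_mod_cast (by omega : 1 ≤ x)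
  have hy1 : (1 : ℝ) ≤ (x : ℝ) ^ (1 / 2 - η) := Real.one_le_rpow hx1' (by linarith)
  have hR1 : 1 ≤ R := by
    rw [hR]
    exact Nat.le_floor (by exact_mod_cast hy1)
  have hR1' : (1 : ℝ) ≤ R := by exact_mod_cast hR1
  have hRle : (R : ℝ) ≤ (x : ℝ) ^ (1 / 2 - η) := by
    rw [hR]
    exact Nat.floor_le (by positivity)
  have hRge : (x : ℝ) ^ (1 / 2 - η) / 2 ≤ R := by
    have h := Nat.lt_floor_add_one ((x : ℝ) ^ (1 / 2 - η))
    rw [← hR] at h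
    linarith
  have hxC := hx1 R hR1 hRle
  have hxD := hx2 R hR1 hRle
  rw [← hzz] at hxC hxD
  rw [← hL] at hxC hxD hx5 hx6 hx7 hx8 hx9 hx10 hA
  rw [← hb] at hx4
  rw [← hL, ← hzz, ← hb]
  have hLpos : 0 < L := by linarith
  have hD := DZ_pos z
  have hb' : b = (DZ z * L)⁻¹ := by
    rw [hb, hzz, hL]
    rfl
  have hb0 : 0 ≤ b := by
    rw [hb']
    positivity
  have hz0 : z₀ ≤ z := (le_max_left _ _).trans hx3
  have hz2 : 2 ≤ z := (le_max_right _ _).trans hx3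
  have hzL : (z : ℝ) ≤ L / 2 := by
    have := zz_le (k + 2) x (by rw [← hL]; exact hLpos.le)
    rw [← hzz, ← hL] at this
    exact this
  -- bounds for the inverse density
  have hDiL : (DZ z)⁻¹ ≤ L := by
    have := inv_DZ_le z
    linarith
  have hDi : (DZ z)⁻¹ ≤ ε / 16 * L := by
    have hlz : 0 < Real.log z := Real.log_pos (by exact_mod_cast (by omega : 1 < z))
    have h1 := hDZ z hz2
    have h2 : (DZ z)⁻¹ ≤ Real.log z / c := by
      rw [← inv_div]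
      exact inv_anti₀ (by positivity) h1
    have h3 : Real.log z ≤ Real.log L :=
      Real.log_le_log (by exact_mod_cast (by omega : 0 < z)) (by linarith)
    refine h2.trans ?_
    rw [div_le_iff₀ hc]
    calc Real.log z ≤ c * ε / 16 * L := h3.trans hx9
      _ = ε / 16 * L * c := by ring
  -- the size of R
  have hlR : (1 / 2 - 2 * η) * L ≤ Real.log R := by
    have h1 : Real.log ((x : ℝ) ^ (1 / 2 - η) / 2) ≤ Real.log R :=
      Real.log_le_log (by positivity) hRge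
    rw [Real.log_div (by positivity) (by norm_num), Real.log_rpow hxpos, ← hL] at h1
    have h2 : Real.log 2 ≤ η * L := by
      rw [div_le_iff₀ hη0] at hx6
      linarith
    linarith
  have hstep := SqAux.step1 k x z R A (L := L) (E := x / L ^ (k + 8)) (δ := ε / 8) (b := b)
    (B := x * L ^ K0) hLpos (by positivity) hb' hA hxC hxD (hz₀ z hz0 R hR1)
    (SR_zero z R hR1)
  have hL1 : (1 : ℝ) ≤ L := by linarith
  have hlog : Real.log (x + x * L ^ K0) ≤ (1 + ε / 16) * L := by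
    have h1 : (1 : ℝ) ≤ L ^ K0 := one_le_pow₀ hL1
    have h2 : (x : ℝ) + x * L ^ K0 ≤ 2 * (x * L ^ K0) := by nlinarith
    have h3 : 0 < (x : ℝ) + x * L ^ K0 := by positivity
    refine (Real.log_le_log h3 h2).trans ?_
    rw [Real.log_mul (by norm_num) (by positivity), Real.log_mul hxpos.ne' (by positivity),
      Real.log_pow, ← hL]
    have h4 : Real.log 2 ≤ ε / 32 * L := by
      rw [div_le_iff₀ hε] at hx7
      linarith
    have h5 : (K0 : ℝ) * Real.log L ≤ ε / 32 * L := by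
      have h6 : (K0 : ℝ) * Real.log L ≤ K0 * (ε / (32 * ((K0 : ℝ) + 1)) * L) :=
        mul_le_mul_of_nonneg_left hx10 (Nat.cast_nonneg K0)
      refine h6.trans ?_
      have h7 : (K0 : ℝ) * (ε / (32 * ((K0 : ℝ) + 1)) * L) =
          (K0 / ((K0 : ℝ) + 1)) * (ε / 32 * L) := by
        field_simp
      rw [h7]
      have h8 : (K0 : ℝ) / ((K0 : ℝ) + 1) ≤ 1 := by
        rw [div_le_one (by positivity)]
        linarith
      have h9 : 0 ≤ ε / 32 * L := by positivity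
      nlinarith
    linarith
  have hstep2 := SqAux.step2 x A (z := z) (k := k) (B := x * L ^ K0) (b := b)
    (Lp := (1 + ε / 16) * L) hb0 hA hlog
  obtain ⟨G, hG⟩ : ∃ G : ℝ, G = GW (k + 2) z A (fun _ => 1) := ⟨_, rfl⟩
  obtain ⟨G', hG'⟩ : ∃ G' : ℝ, G' = GW (k + 1) z A (fun _ => 1) := ⟨_, rfl⟩
  have hG0 : 0 ≤ G := by
    rw [hG]
    exact GW_nonneg _ _ _ _ fun _ _ => zero_le_one
  have hG0' : 0 ≤ G' := by
    rw [hG']
    exact GW_nonneg _ _ _ _ fun _ _ => zero_le_one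
  have hcardG : (A.card : ℝ) ^ (k + 2) ≤ G := by
    rw [hG]
    exact Pool.Agent.Lib.MQ.card_pow_le_GW (k + 2) z (by omega) A
  rw [← hG, ← hG'] at hstep ⊢
  have hErr : b ^ k * (2 * (DZ z)⁻¹ + (DZ z)⁻¹ ^ 2) * (x / L ^ (k + 8)) * (A.card : ℝ) ^ (k + 2) ≤
      ε / 8 * ((x / L ^ k) * G) := by
    have hDi0 : 0 < (DZ z)⁻¹ := inv_pos.2 hD
    have h1 : b ^ k ≤ 1 := pow_le_one₀ hb0 hx4
    have h2 : 2 * (DZ z)⁻¹ + (DZ z)⁻¹ ^ 2 ≤ 3 * L ^ 2 := by nlinarith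
    have h3 : b ^ k * (2 * (DZ z)⁻¹ + (DZ z)⁻¹ ^ 2) ≤ 1 * (3 * L ^ 2) :=
      mul_le_mul h1 h2 (by positivity) zero_le_one
    have h4 : 3 * L ^ 2 * (x / L ^ (k + 8)) ≤ ε / 8 * (x / L ^ k) := by
      have h5 : (x : ℝ) / L ^ (k + 8) = (x / L ^ k) * (1 / L ^ 8) := by
        rw [pow_add]
        field_simp
      rw [h5]
      have h6 : 3 * L ^ 2 * (1 / L ^ 8) ≤ ε / 8 := by
        rw [mul_one_div, div_le_iff₀ (by positivity)]
        have h7 : 24 ≤ ε * L := by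
          rw [div_le_iff₀ hε] at hx8
          linarith
        have h8 : (1 : ℝ) ≤ L ^ 5 := one_le_pow₀ hL1
        have h9 : ε / 8 * L ^ 8 = (ε * L) / 8 * L ^ 5 * L ^ 2 := by ring
        rw [h9]
        refine mul_le_mul_of_nonneg_right ?_ (by positivity)
        nlinarith
      calc 3 * L ^ 2 * ((x / L ^ k) * (1 / L ^ 8)) = (3 * L ^ 2 * (1 / L ^ 8)) * (x / L ^ k) := by
            ring
        _ ≤ ε / 8 * (x / L ^ k) := mul_le_mul_of_nonneg_right h6 (by positivity)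
    calc b ^ k * (2 * (DZ z)⁻¹ + (DZ z)⁻¹ ^ 2) * (x / L ^ (k + 8)) * (A.card : ℝ) ^ (k + 2)
        ≤ (1 * (3 * L ^ 2)) * (x / L ^ (k + 8)) * G :=
          mul_le_mul (mul_le_mul_of_nonneg_right h3 (by positivity)) hcardG (by positivity)
            (by positivity)
      _ = (3 * L ^ 2 * (x / L ^ (k + 8))) * G := by ring
      _ ≤ (ε / 8 * (x / L ^ k)) * G := mul_le_mul_of_nonneg_right h4 hG0
      _ = ε / 8 * ((x / L ^ k) * G) := by ring
  have hS0 : 0 ≤ ∑ n ∈ Icc 1 x, (∑ a ∈ A, ip (n + a)) ^ 2 *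
      (b * ∑ a ∈ A, ic z (n + a)) ^ k := by
    refine Finset.sum_nonneg fun n _ => mul_nonneg (sq_nonneg _) (pow_nonneg (mul_nonneg hb0 ?_) k)
    exact Finset.sum_nonneg fun a _ => ic_nonneg _ _
  refine SqAux.fin_alg (L := L) (Q := x / L ^ k) (Di := (DZ z)⁻¹) (lR := Real.log R) (η := η)
    hε hε1 hη.le hLpos (by positivity) (by positivity) hS0 ?_ ?_ (by positivity) hstep hstep2 hErr
    hlR hDi
  · rw [pow_add]
    field_simp
  · rw [pow_succ L k]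
    field_simp

theorem sq_lower (k K0 : ℕ) {ε : ℝ} (hε : 0 < ε) : ∀ᶠ x : ℕ in atTop, ∀ A : Finset ℕ,
    (∀ a ∈ A, (a : ℝ) ≤ x * Real.log x ^ K0) →
    (1 - ε) * ((x / Real.log x ^ (k + 2)) * GW (k + 2) (zz (k + 2) x) A (fun _ => 1)) +
      (1 / 2 - ε) * ((x / Real.log x ^ (k + 1)) * GW (k + 1) (zz (k + 2) x) A (fun _ => 1)) ≤
    ∑ n ∈ Icc 1 x, (∑ a ∈ A, ip (n + a)) ^ 2 *
      (bb (k + 2) x * ∑ a ∈ A, ic (zz (k + 2) x) (n + a)) ^ k := by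
  filter_upwards [sq_lower_aux k K0 (ε := min ε 1) (lt_min hε one_pos) (min_le_right _ _),
    eventually_ge_atTop 1] with x hx hx1 A hA
  refine le_trans ?_ (hx A hA)
  have hL : 0 ≤ Real.log x := Real.log_natCast_nonneg x
  have h1 : 0 ≤ (x / Real.log x ^ (k + 2)) * GW (k + 2) (zz (k + 2) x) A (fun _ => 1) :=
    mul_nonneg (by positivity) (GW_nonneg _ _ _ _ fun _ _ => zero_le_one)
  have h2 : 0 ≤ (x / Real.log x ^ (k + 1)) * GW (k + 1) (zz (k + 2) x) A (fun _ => 1) :=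
    mul_nonneg (by positivity) (GW_nonneg _ _ _ _ fun _ _ => zero_le_one)
  have h3 : min ε 1 ≤ ε := min_le_left _ _
  refine add_le_add (mul_le_mul_of_nonneg_right (by linarith) h1)
    (mul_le_mul_of_nonneg_right (by linarith) h2)

end Pool.Agent.EV2
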